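import Mathlib

/-!
# Artin characters, twisted L-functions, Deligne's relation

`N` runs over the finite Galois extensions of `ℚ`, `M` is a motive over `ℚ` which is given by the
numbers `t(p^n)`, the traces of the `n`-th power of Frobenius at `p`.
-/

set_option autoImplicit false

namespace Pool.Agent.Run7.h810.DL

open NumberField

/-- A finite Galois extension `N` of `ℚ`. -/
structure Fld where
  /-- the field -/
  N : Type
  [fN : Field N]
  [nN : NumberField N]
  [gN : IsGalois ℚ N]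

attribute [instance] Fld.fN Fld.nN Fld.gN

/-- The Galois group of `N` over `ℚ`. -/
abbrev Gal (E : Fld) : Type := E.N ≃ₐ[ℚ] E.N

/-- The restriction homomorphism. -/
noncomputable def rs (E E' : Fld) [Algebra E.N E'.N] : Gal E' →* Gal E :=
  AlgEquiv.restrictNormalHom E.N

/-- The `n`-dimensional complex representations of the Galois group. -/
abbrev Rep (E : Fld) (n : ℕ) : Type := Gal E →* Matrix (Fin n) (Fin n) ℂ

/-- The character of a representation. -/
noncomputable def chr {E : Fld} {n : ℕ} (ρ : Rep E n) (g : Gal E) : ℂ := (ρ g).trace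

/-- The conjugate `τ(ρ)` of a representation by an automorphism `τ` of `ℂ`. -/
noncomputable def conj (τ : ℂ ≃+* ℂ) {E : Fld} {n : ℕ} (ρ : Rep E n) : Rep E n :=
  ((τ : ℂ →+* ℂ).mapMatrix : Matrix (Fin n) (Fin n) ℂ →+* _).toMonoidHom.comp ρ

/-- The pairs `(P, g)`, where `P` is a prime of `N` over the prime number `p`, and `g` induces
`x ↦ x ^ (p ^ n)` modulo `P`. -/
def frobSet (E : Fld) (p n : ℕ) : Set (Ideal (𝓞 E.N) × Gal E) :=
  {x | x.1.IsPrime ∧ (p : 𝓞 E.N) ∈ x.1 ∧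
    ∀ y z : 𝓞 E.N, (z : E.N) = x.2 (y : E.N) → z - y ^ (p ^ n) ∈ x.1}

/-- `χ(p^n)`: the mean of `χ` over the elements which induce `x ↦ x ^ (p ^ n)` modulo a prime
over `p`. For `χ` the character of `ρ` this is the trace of the `n`-th power of Frobenius on the
inertia invariants of `ρ`. -/
noncomputable def frobMean {E : Fld} (χ : Gal E → ℂ) (p n : ℕ) : ℂ :=
  (∑ᶠ x ∈ frobSet E p n, χ x.2) / (frobSet E p n).ncard

/-- The term `t(p^n) χ(p^n) / (n p^(n s))` of `log L(s, M ⊗ χ)`. -/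
noncomputable def logTerm (t : ℕ → ℂ) {E : Fld} (χ : Gal E → ℂ) (s : ℂ) (x : Nat.Primes × ℕ+) : ℂ :=
  t ((x.1 : ℕ) ^ (x.2 : ℕ)) * frobMean χ x.1 x.2 / ((x.2 : ℕ) * ((x.1 : ℕ) : ℂ) ^ (((x.2 : ℕ) : ℂ) * s))

/-- `f` is the L-function `L(s, M ⊗ χ) = exp (∑ t(p^n) χ(p^n) / (n p^(n s)))`, for `Re s > b`,
continued meromorphically to `ℂ`. -/
def IsL (t : ℕ → ℂ) (b : ℝ) {E : Fld} (χ : Gal E → ℂ) (f : ℂ → ℂ) : Prop :=
  (∀ z, MeromorphicAt f z) ∧
    ∀ s : ℂ, b < s.re → ∃ l, HasSum (logTerm t χ s) l ∧ f s = Complex.exp l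

/-- The value at `m` of a meromorphic function (the leading coefficient, if the function has a zero
or a pole at `m`). -/
noncomputable def val (f : ℂ → ℂ) (m : ℂ) : ℂ := meromorphicTrailingCoeffAt f m

/-- The period of the Artin motive of `ρ`: the resolvent `det (∑ φ(g x) ρ(g))`, for an embedding
`φ` of `N` into `ℂ` and an element `x` of `N`. For `N = ℚ(ζ)`, `x = ζ` and a primitive Dirichlet
character it is the Gauss sum. -/
noncomputable def res {E : Fld} (φ : E.N →+* ℂ) (x : E.N) {n : ℕ} (ρ : Rep E n) : ℂ :=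
  (∑ g : Gal E, φ (g x) • ρ g).det

/-- `c` is the complex conjugation of the Galois group which belongs to the embedding `φ`. -/
def IsCC {E : Fld} (φ : E.N →+* ℂ) (c : Gal E) : Prop := ∀ y, φ (c y) = star (φ y)

/-- `ψ` is a linear character of the subgroup `H` of the Galois group, extended by `0`: a Dirichlet
(Hecke) character of finite order of the fixed field `K` of `H`. -/
def IsLin {E : Fld} (H : Subgroup (Gal E)) (ψ : Gal E → ℂ) : Prop :=
  ψ 1 = 1 ∧ (∀ x ∈ H, ∀ y ∈ H, ψ (x * y) = ψ x * ψ y) ∧ ∀ x ∉ H, ψ x = 0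

/-- `ρ` is induced from the linear character `ψ` of the subgroup `H`: its character is
`g ↦ |H|⁻¹ ∑_y ψ(y⁻¹ g y)`. So `L(s, M ⊗ ρ)` is the L-function of the twist by `ψ` of the base
change of `M` to the fixed field `K` of `H`. -/
def IsInd {E : Fld} (H : Subgroup (Gal E)) (ψ : Gal E → ℂ) {n : ℕ} (ρ : Rep E n) : Prop :=
  IsLin H ψ ∧ ∀ g, chr ρ g = (Nat.card H : ℂ)⁻¹ * ∑ᶠ y : Gal E, ψ (y⁻¹ * g * y)

/-- `ψ` and `ψ'` agree at the complex conjugations. -/
def Agree {E : Fld} (ψ ψ' : Gal E → ℂ) : Prop :=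
  ∀ (φ : E.N →+* ℂ) (c : Gal E), IsCC φ c → ψ c = ψ' c

/-- `A` is a normal subgroup of prime index of `B`. -/
def NP {G : Type} [Group G] (A B : Subgroup G) : Prop :=
  A ≤ B ∧ (∀ a ∈ A, ∀ b ∈ B, b⁻¹ * a * b ∈ A) ∧ (A.relIndex B).Prime

/-- All complex conjugations of `N` coincide: `N` is totally real or a CM field. -/
def RealOrCM (E : Fld) : Prop :=
  ∀ (φ φ' : E.N →+* ℂ) (c c' : Gal E), IsCC φ c → IsCC φ' c' → c = c'

/-- **The fields `K` to which classical modular forms can be base changed**, `K` being the fixed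
field of the subgroup `H` of the Galois group of `N`. -/
inductive Good : (E : Fld) → Subgroup (Gal E) → Prop
  /-- `K = ℚ` -/
  | rat (E : Fld) : Good E ⊤
  /-- subfields of solvable totally real or CM fields -/
  | real (E : Fld) (H : Subgroup (Gal E)) : Group.IsSolvable (Gal E) → RealOrCM E → Good E H
  /-- `K` does not change if the surrounding field `N` is enlarged -/
  | up (E E' : Fld) [Algebra E.N E'.N] (H : Subgroup (Gal E)) : Good E H →
    Good E' (H.comap (rs E E'))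
  /-- cyclic extensions of prime degree -/
  | cyc (E : Fld) (A B : Subgroup (Gal E)) : Good E B → NP A B → Good E A
  /-- cubic extensions -/
  | cub (E : Fld) (A B : Subgroup (Gal E)) : Good E B → A ≤ B → A.relIndex B = 3 → Good E A

/-- `L(s, M ⊗ ρ)` and `L(s, τ(M) ⊗ τ(ρ))` have meromorphic continuations to `ℂ`. -/
def Con (τ : ℂ ≃+* ℂ) (t : ℕ → ℂ) (b : ℝ) {E : Fld} {n : ℕ} (ρ : Rep E n) : Prop :=
  (∃ f, IsL t b (chr ρ) f) ∧ ∃ f, IsL (fun k => τ (t k)) b (chr (conj τ ρ)) f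

/-- **Deligne's relation for `M ⊗ ρ` at `m`, with respect to `τ`**. `P`, `Q` and `P'`, `Q'` are the
periods of `M` and of `τ(M)` for the two signs, `r` is half the rank of `M`: if the eigenvalue `1`
of `ρ(c)` has multiplicity `a` and the eigenvalue `-1` has multiplicity `d`, then the quotient of
`L(m, M ⊗ ρ)` and the period `res(ρ)^r P^a Q^d` of `M ⊗ ρ` is mapped by `τ` to the corresponding
quotient for `τ(M)` and `τ(ρ)`. -/
def Del (τ : ℂ ≃+* ℂ) (r : ℕ) (m : ℂ) (t : ℕ → ℂ) (b : ℝ) (P Q P' Q' : ℂ) {E : Fld} {n : ℕ}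
    (ρ : Rep E n) : Prop :=
  ∀ (φ : E.N →+* ℂ) (x : E.N) (c : Gal E) (a d : ℕ) (f f' : ℂ → ℂ), res φ x ρ ≠ 0 → IsCC φ c →
    a + d = n → chr ρ c = a - d → IsL t b (chr ρ) f →
    IsL (fun k => τ (t k)) b (chr (conj τ ρ)) f' →
    τ (val f m / (res φ x ρ ^ r * P ^ a * Q ^ d)) =
      val f' m / (res φ x (conj τ ρ) ^ r * P' ^ a * Q' ^ d)

/-- The same for the quotient of two L-values: `ρ` and `ρ'` have the same dimension and the same
behaviour at infinity, so that the periods of `M` cancel. -/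
def Rel (τ : ℂ ≃+* ℂ) (r : ℕ) (m : ℂ) (t : ℕ → ℂ) (b : ℝ) {E : Fld} {n : ℕ} (ρ ρ' : Rep E n) :
    Prop :=
  ∀ (φ : E.N →+* ℂ) (x : E.N) (f₁ f₂ f₁' f₂' : ℂ → ℂ), res φ x ρ ≠ 0 → res φ x ρ' ≠ 0 →
    IsL t b (chr ρ) f₁ → IsL t b (chr ρ') f₂ →
    IsL (fun k => τ (t k)) b (chr (conj τ ρ)) f₁' →
    IsL (fun k => τ (t k)) b (chr (conj τ ρ')) f₂' →
    τ (val f₁ m / val f₂ m / (res φ x ρ / res φ x ρ') ^ r) =
      val f₁' m / val f₂' m / (res φ x (conj τ ρ) / res φ x (conj τ ρ')) ^ r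

end Pool.Agent.Run7.h810.DL
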