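import Mathlib
import Pool.Agent.Run7.h810.DL.Defs
import Pool.Agent.K4H74.ST.Ext

/-!
# Extensions by square roots, sign characters
-/

set_option autoImplicit false
set_option linter.unusedSectionVars false

namespace Pool.Agent.Run7.h810.DL

open NumberField NumberField.ComplexEmbedding Polynomial Pool.Agent.K4H74.ST

/-- adjoining square roots -/
theorem exists_sq_aux (N : Type) [Field N] [NumberField N] [IsGalois ℚ N]
    (A : Finset N) (N' : Type) [Field N'] [Algebra N N']
    [CharZero N'] (hA : IsSplittingField N N'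
      ((∏ a ∈ A, (minpoly ℚ a).comp (X ^ 2)).map (algebraMap ℚ N))) :
    NumberField N' ∧ IsGalois ℚ N' ∧
      ∀ a ∈ A, ∃ w : N', w * w = algebraMap N N' a := by
  classical
  set P : ℚ[X] := ∏ a ∈ A, (minpoly ℚ a).comp (X ^ 2) with hP
  have hint : ∀ a : N, IsIntegral ℚ a := fun a => (Algebra.IsAlgebraic.isAlgebraic a).isIntegral
  have hP0 : ∀ a : N, (minpoly ℚ a).comp (X ^ 2) ≠ 0 := by
    intro a h
    rw [comp_eq_zero_iff] at h
    rcases h with h | ⟨-, h⟩
    · exact minpoly.ne_zero (hint a) h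
    · have h1 := congrArg natDegree h
      rw [natDegree_X_pow, natDegree_C] at h1
      omega
  have hPne : P ≠ 0 := Finset.prod_ne_zero_iff.mpr fun a _ => hP0 a
  have hfin : FiniteDimensional N N' := IsSplittingField.finiteDimensional N' (P.map (algebraMap ℚ N))
  have hfinQ : FiniteDimensional ℚ N' := FiniteDimensional.trans ℚ N N'
  have hNF : NumberField N' := { to_charZero := inferInstance, to_finiteDimensional := hfinQ }
  obtain ⟨Q, hQs, hQ⟩ := IsGalois.is_separable_splitting_field ℚ N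
  have hsp : IsSplittingField ℚ N' (Q * P) := IsSplittingField.mul (K := N) N' Q P hQs.ne_zero hPne
  have hnorm : Normal ℚ N' := Normal.of_isSplittingField (Q * P)
  have hgal : IsGalois ℚ N' := ⟨⟩
  refine ⟨hNF, hgal, ?_⟩
  · intro a ha
    have hsplit := IsSplittingField.splits N' (P.map (algebraMap ℚ N))
    obtain ⟨w, hw⟩ : ∃ w : N', w ^ 2 = algebraMap N N' a := by
      -- the polynomial `X ^ 2 - a` divides `P`
      have h1 : (X ^ 2 - C a : N[X]) ∣ P.map (algebraMap ℚ N) := by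
        have h2 : (X ^ 2 - C a : N[X]) ∣ ((minpoly ℚ a).comp (X ^ 2)).map (algebraMap ℚ N) := by
          have h3 : (X - C a : N[X]) ∣ (minpoly ℚ a).map (algebraMap ℚ N) := by
            rw [dvd_iff_isRoot, IsRoot.def, eval_map_algebraMap]
            exact minpoly.aeval ℚ a
          obtain ⟨R, hR⟩ := h3
          refine ⟨R.comp (X ^ 2), ?_⟩
          rw [map_comp, hR, mul_comp, sub_comp, X_comp, C_comp, Polynomial.map_pow, map_X]
        refine h2.trans ?_
        rw [hP, Polynomial.map_prod]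
        exact Finset.dvd_prod_of_mem _ ha
      have h4 : ((X ^ 2 - C a : N[X]).map (algebraMap N N')).Splits := by
        refine Splits.of_dvd hsplit ?_ (Polynomial.map_dvd _ h1)
        exact (Polynomial.map_ne_zero_iff (algebraMap N N').injective).mpr
          ((Polynomial.map_ne_zero_iff (algebraMap ℚ N).injective).mpr hPne)
      have h5 : ((X ^ 2 - C a : N[X]).map (algebraMap N N')).degree ≠ 0 := by
        rw [degree_map, degree_X_pow_sub_C (by norm_num)]
        norm_num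
      obtain ⟨w, hw⟩ := h4.exists_eval_eq_zero h5
      refine ⟨w, ?_⟩
      rw [Polynomial.map_sub, Polynomial.map_pow, map_X, map_C, eval_sub, eval_pow, eval_X,
        eval_C] at hw
      exact sub_eq_zero.mp hw
    exact ⟨w, by rw [← pow_two, hw]⟩

/-- adjoining square roots -/
theorem exists_sq (E : Fld) (A : Finset E.N) :
    ∃ (E' : Fld) (_ : Algebra E.N E'.N), ∀ a ∈ A, ∃ w : E'.N, w * w = algebraMap E.N E'.N a := by
  classical
  let f : E.N[X] := (∏ a ∈ A, (minpoly ℚ a).comp (X ^ 2)).map (algebraMap ℚ E.N)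
  let N' := SplittingField f
  have h0 : CharZero N' := charZero_of_injective_algebraMap (algebraMap E.N N').injective
  obtain ⟨h1, h2, h4⟩ := exists_sq_aux E.N A N' (IsSplittingField.splittingField f)
  exact ⟨@Fld.mk N' _ h1 h2, (inferInstance : Algebra E.N N'), h4⟩

lemma rs_apply {E E' : Fld} [Algebra E.N E'.N] (g : Gal E') (x : E.N) :
    algebraMap E.N E'.N (rs E E' g x) = g (algebraMap E.N E'.N x) :=
  AlgEquiv.restrictNormal_commutes g E.N x

lemma rs_surj (E E' : Fld) [Algebra E.N E'.N] : Function.Surjective (rs E E') :=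
  AlgEquiv.restrictNormalHom_surjective E'.N

lemma rs_CC {E E' : Fld} [Algebra E.N E'.N] {c : Gal E'} (hc : c ∈ CC ℚ E'.N) :
    rs E E' c ∈ CC ℚ E.N :=
  CC_res hc

/-- **Sign characters of subgroups.** -/
theorem exists_sgn (E : Fld) (H : Subgroup (Gal E)) (Y : Set (Gal E))
    (hY : ∀ y ∈ Y, y ∈ CC ℚ E.N ∧ y ∈ H) (hYc : ∀ y ∈ Y, ∀ h ∈ H, h⁻¹ * y * h ∈ Y) :
    ∃ (E' : Fld) (_ : Algebra E.N E'.N) (χ : (H.comap (rs E E')) →* ℂˣ), Sg χ ∧
      ∀ x : H.comap (rs E E'), (x : Gal E') ∈ CC ℚ E'.N → (χ x = -1 ↔ rs E E' x ∈ Y) := by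
  classical
  let K : IntermediateField ℚ E.N := IntermediateField.fixedField H
  have hK : NumberField K := inferInstance
  let S : Set (K →+* ℂ) := {σ | ∃ φ : E.N →+* ℂ, ∃ c ∈ Y, IsConj φ c ∧ σ = φ.comp (algebraMap K E.N)}
  obtain ⟨α, hα⟩ := exists_sign K S
  obtain ⟨E', i1, hE'⟩ := exists_sq E {(α : E.N)}
  obtain ⟨w, hw⟩ := hE' (α : E.N) (by simp)
  refine ⟨E', i1, ?_⟩
  have hfix : ∀ g ∈ H, ∀ x : K, g (x : E.N) = x := fun g hg x => x.2 ⟨g, hg⟩
  have hfw : ∀ g ∈ H.comap (rs E E'), g (w * w) = w * w := by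
    intro g hg
    rw [hw, ← rs_apply, hfix _ hg]
  let χ : (H.comap (rs E E')) →* ℂˣ := MonoidHom.mk' (fun g => sgn w (g : Gal E'))
    (fun a b => sgn_mul (pm_of_sq (hfw a a.2)) (pm_of_sq (hfw b b.2)))
  refine ⟨χ, fun g => sgn_sg w _, ?_⟩
  rintro ⟨c, hcH⟩ ⟨φ', hφ'⟩
  change sgn w c = -1 ↔ rs E E' c ∈ Y
  let φ : E.N →+* ℂ := φ'.comp (algebraMap E.N E'.N)
  have hφ : IsConj φ (rs E E' c) := isConj_res hφ'
  have hcH' : rs E E' c ∈ H := hcH
  -- the real embedding of `K`
  have hreal : IsReal (φ.comp (algebraMap K E.N)) := by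
    ext x
    change star (φ (x : E.N)) = φ (x : E.N)
    rw [← hφ.eq, hfix _ hcH']
  have h2 := hα _ hreal
  have hφw : φ' (w * w) = (φ.comp (algebraMap K E.N)) α := by
    rw [hw]
    rfl
  have h3 : (φ' (w * w)).im = 0 := by
    rw [hφw, ← Complex.conj_eq_iff_im]
    exact RingHom.congr_fun hreal α
  have hS : φ.comp (algebraMap K E.N) ∈ S ↔ rs E E' c ∈ Y := by
    constructor
    · rintro ⟨φ₁, c₁, hc₁, hφ₁, he⟩
      have : IsGalois K E.N := inferInstance
      obtain ⟨σ, hσ⟩ := ComplexEmbedding.exists_comp_symm_eq_of_comp_eq (k := K) φ φ₁ he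
      let h : Gal E := (σ.symm : E.N ≃ₐ[K] E.N).restrictScalars ℚ
      have hh : h ∈ H := by
        have h4 : h ∈ K.fixingSubgroup := by
          rw [IntermediateField.mem_fixingSubgroup_iff]
          intro x hx
          exact (σ.symm : E.N ≃ₐ[K] E.N).commutes ⟨x, hx⟩
        rw [IntermediateField.fixingSubgroup_fixedField] at h4
        exact h4
      have h5 : IsConj φ₁ (h⁻¹ * rs E E' c * h) := by
        have h6 := hφ.comp h
        have h7 : φ.comp ((h : Gal E) : E.N →+* E.N) = φ₁ := hσ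
        rw [h7] at h6
        exact h6
      have h8 : h⁻¹ * rs E E' c * h = c₁ := by
        ext x
        apply φ₁.injective
        exact (h5.eq x).trans (hφ₁.eq x).symm
      have h9 := hYc c₁ hc₁ h⁻¹ (H.inv_mem hh)
      rw [← h8] at h9
      have h10 : h⁻¹⁻¹ * (h⁻¹ * rs E E' c * h) * h⁻¹ = rs E E' c := by group
      rwa [h10] at h9
    · intro hc
      exact ⟨φ, _, hc, hφ, rfl⟩
  rw [← hS]
  constructor
  · intro h
    by_contra hcon
    have h4 := h2.2 hcon
    rw [← hφw] at h4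
    rw [sgn_eq_neg] at h
    exact h (sqrt_pos hφ' h3 h4)
  · intro h
    have h4 := h2.1 h
    rw [← hφw] at h4
    rw [sgn_eq_neg, sqrt_neg hφ' h3 h4]
    intro h5
    have h6 : w = 0 := self_eq_neg.mp h5.symm
    rw [h6] at h4
    simp at h4

/-- an odd character -/
theorem exists_odd (E : Fld) : ∃ (E' : Fld) (_ : Algebra E.N E'.N) (s : Gal E' →* ℂˣ), Sg s ∧
    ∀ c ∈ CC ℚ E'.N, s c = -1 := by
  obtain ⟨E', i1, hE'⟩ := exists_sq E {-1}
  obtain ⟨j, hj⟩ := hE' (-1) (by simp)
  rw [map_neg, map_one] at hj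
  obtain ⟨s, hs, hs'⟩ := odd_i (K := ℚ) hj
  exact ⟨E', i1, s, hs, hs'⟩

end Pool.Agent.Run7.h810.DL
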