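import Mathlib
import Pool.Agent.K4H74.ST.Two
import Pool.Agent.R389.Sol
import Pool.Agent.Run7.h810.DL.Defs

/-!
# Brauer induction relative to complex conjugations: the formal setting, subgroups of index two

`G` is a finite group and `X` a set of elements of order at most two (in the applications the
complex conjugations in a Galois group of number fields). `T` is a group of class functions which
vanish at `1` and on `X`, which contains the differences of linear characters which agree on `X`.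
-/

set_option autoImplicit false
set_option linter.unusedSectionVars false

namespace Pool.Agent.Run7.h810.DL

open Pool.Agent.R389 Pool.Agent.K4H74.ST Pool.Agent.W446.AS

/-- the subgroups at the end of a chain of normal subgroups of prime index -/
inductive Sn {G : Type} [Group G] : Subgroup G → Prop
  | top : Sn ⊤
  | step {A B : Subgroup G} (hB : Sn B) (h : NP A B) : Sn A

/-- the combinations of the characters induced from linear characters of these subgroups -/
def MS (G : Type) [Group G] : AddSubgroup (G → ℂ) :=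
  AddSubgroup.closure {F | ∃ (A : Subgroup G) (ψ : A →* ℂˣ), Sn A ∧ F = ind A (lc ψ)}

lemma NP.comap {G G' : Type} [Group G] [Group G'] {A B : Subgroup G} (h : NP A B) {π : G' →* G}
    (hπ : Function.Surjective π) : NP (A.comap π) (B.comap π) := by
  obtain ⟨h1, h2, h3⟩ := h
  refine ⟨Subgroup.comap_mono h1, fun a ha b hb => ?_, ?_⟩
  · rw [Subgroup.mem_comap] at ha hb ⊢
    rw [map_mul, map_mul, map_inv]
    exact h2 _ ha _ hb
  · rw [Subgroup.relIndex_comap, Subgroup.map_comap_eq_self_of_surjective hπ]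
    exact h3

lemma Sn.comap {G G' : Type} [Group G] [Group G'] {A : Subgroup G} (h : Sn A) {π : G' →* G}
    (hπ : Function.Surjective π) : Sn (A.comap π) := by
  induction h with
  | top => rw [Subgroup.comap_top]; exact Sn.top
  | step hB h ih => exact Sn.step ih (h.comap hπ)

lemma MS_comp {G G' : Type} [Group G] [Finite G] [Group G'] [Finite G'] {f : G → ℂ}
    (h : f ∈ MS G) {π : G' →* G} (hπ : Function.Surjective π) : (fun g => f (π g)) ∈ MS G' := by
  induction h using AddSubgroup.closure_induction with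
  | mem F hF =>
    obtain ⟨A, ψ, hA, rfl⟩ := hF
    refine AddSubgroup.subset_closure ⟨A.comap π, ψ.comp (π.subgroupComap A), hA.comap hπ, ?_⟩
    rw [ind_comap hπ]
    rfl
  | zero => exact zero_mem _
  | add a b _ _ ha hb => exact add_mem ha hb
  | neg a _ ha => exact neg_mem ha

lemma sn_ker {G : Type} [Group G] [Finite G] {s : G →* ℂˣ} (hs : Sg s) {t : G} (ht : s t = -1) :
    Sn s.ker := by
  refine Sn.step Sn.top ⟨le_top, fun a ha b _ => ?_, ?_⟩
  · rw [MonoidHom.mem_ker] at ha ⊢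
    rw [map_mul, map_mul, map_inv, ha, mul_one, inv_mul_cancel]
  · rw [Subgroup.relIndex_top_right]
    have h1 := s.ker.index_mul_card
    rw [card_ker hs ht] at h1
    have h2 : s.ker.index = 2 := Nat.eq_of_mul_eq_mul_right Nat.card_pos h1
    rw [h2]
    exact Nat.prime_two

/-- `(G', X', T')` is an extension of `(G, X, T)` -/
structure Cov (P : ∀ (G : Type) [Group G] [Finite G], Set G → AddSubgroup (G → ℂ) → Prop)
    {G : Type} [Group G] [Finite G] (X : Set G) (T : AddSubgroup (G → ℂ)) {G' : Type} [Group G']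
    [Finite G'] (X' : Set G') (T' : AddSubgroup (G' → ℂ)) (π : G' →* G) : Prop where
  surj : Function.Surjective π
  mem : P G' X' T'
  maps : ∀ x ∈ X', π x ∈ X
  up : ∀ f ∈ T, (fun g => f (π g)) ∈ T'
  desc : ∀ f ∈ MS G, (fun g => f (π g)) ∈ T' → f ∈ T

/-- A class of triples `(G, X, T)`, closed under passing to subnormal subgroups, in which all sign functions
on `X ∩ H`, `H` a subgroup of `G`, become the restrictions of sign characters after passing to a
suitable extension `G'` of `G`. -/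
structure Tw (P : ∀ (G : Type) [Group G] [Finite G], Set G → AddSubgroup (G → ℂ) → Prop) :
    Prop where
  inv : ∀ (G : Type) [Group G] [Finite G] (X : Set G) (T : AddSubgroup (G → ℂ)), P G X T →
    ∀ x ∈ X, x * x = 1
  conj : ∀ (G : Type) [Group G] [Finite G] (X : Set G) (T : AddSubgroup (G → ℂ)), P G X T →
    ∀ x ∈ X, ∀ g : G, g⁻¹ * x * g ∈ X
  van : ∀ (G : Type) [Group G] [Finite G] (X : Set G) (T : AddSubgroup (G → ℂ)), P G X T →
    ∀ f ∈ T, f 1 = 0 ∧ ∀ x ∈ X, f x = 0
  sub : ∀ (G : Type) [Group G] [Finite G] (X : Set G) (T : AddSubgroup (G → ℂ)), P G X T →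
    ∀ H : Subgroup G, Sn H → ∃ T' : AddSubgroup (H → ℂ), P H {h : H | (h : G) ∈ X} T' ∧
      ∀ f ∈ T', ind H f ∈ T
  sig : ∀ (G : Type) [Group G] [Finite G] (X : Set G) (T : AddSubgroup (G → ℂ)), P G X T →
    ∀ ψ ψ' : G →* ℂˣ, (∀ x ∈ X, ψ x = ψ' x) → lc ψ - lc ψ' ∈ T
  sign : ∀ (G : Type) [Group G] [Finite G] (X : Set G) (T : AddSubgroup (G → ℂ)), P G X T →
    ∀ (H : Subgroup G) (Y : Set G), (∀ y ∈ Y, y ∈ X ∧ y ∈ H) → (∀ y ∈ Y, ∀ h ∈ H, h⁻¹ * y * h ∈ Y) →
      ∃ (G' : Type) (_ : Group G') (_ : Finite G') (X' : Set G') (T' : AddSubgroup (G' → ℂ))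
        (π : G' →* G), Cov P X T X' T' π ∧
          ∃ χ : (H.comap π) →* ℂˣ, Sg χ ∧
            ∀ x : H.comap π, (x : G') ∈ X' → (χ x = -1 ↔ π x ∈ Y)

/-- the imaginary unit as a unit -/
noncomputable def iU : ℂˣ := Units.mk0 Complex.I Complex.I_ne_zero

lemma iU_sq : iU * iU = -1 := by
  ext
  simp [iU]

section two

variable {P : ∀ (G : Type) [Group G] [Finite G], Set G → AddSubgroup (G → ℂ) → Prop} (S : Tw P)
variable {G : Type} [Group G] [Finite G] {X : Set G} {T : AddSubgroup (G → ℂ)} (hP : P G X T)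

include S hP

/-- differences of linear characters of subgroups -/
lemma Tw.ind_sig {H : Subgroup G} (hH : Sn H) (ψ ψ' : H →* ℂˣ) (h : ∀ x : H, (x : G) ∈ X → ψ x = ψ' x) :
    ind H (lc ψ) - ind H (lc ψ') ∈ T := by
  obtain ⟨T', hT', hind⟩ := S.sub G X T hP H hH
  have h1 := hind _ (S.sig H _ T' hT' ψ ψ' (fun x hx => h x hx))
  rwa [ind_sub] at h1

lemma Tw.val (ψ : G →* ℂˣ) {x : G} (hx : x ∈ X) : ψ x = 1 ∨ ψ x = -1 := by
  have h1 := S.inv G X T hP x hx
  have h2 : ψ x * ψ x = 1 := by rw [← map_mul, h1, map_one]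
  have h3 : ((ψ x : ℂˣ) : ℂ) * ((ψ x : ℂˣ) : ℂ) = 1 := by
    rw [← Units.val_mul, h2, Units.val_one]
  rcases mul_self_eq_one_iff.mp h3 with h4 | h4
  · left; exact Units.ext h4
  · right; exact Units.ext (by rw [h4]; simp)

omit S hP in
lemma ker_conj (s : G →* ℂˣ) (t : G) (x : s.ker) : t⁻¹ * (x : G) * t ∈ s.ker := by
  rw [MonoidHom.mem_ker, map_mul, map_mul, map_inv, MonoidHom.mem_ker.mp x.2, mul_one,
    inv_mul_cancel]

/-- **The index two step.** -/
theorem Tw.qabs {s : G →* ℂˣ} (hs : Sg s) {t : G} (ht : s t = -1) (ψ : s.ker →* ℂˣ)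
    (lam : G →* ℂˣ) (hlam : Sg lam) (χ : s.ker →* ℂˣ) (hχ : Sg χ)
    (h1 : ∀ x : s.ker, (x : G) ∈ X → (lam x = -1 ↔ ψ x = -1 ∧ ψ ⟨_, ker_conj s t x⟩ = -1))
    (h2 : ∀ x : s.ker, (x : G) ∈ X → (χ x = -1 ↔ ψ x = -1 ∧ ψ ⟨_, ker_conj s t x⟩ ≠ -1)) :
    ∃ κ : G →* ℂˣ, ind s.ker (lc ψ) - (lc lam + lc (lam * κ)) ∈ T := by
  classical
  have hn : (-1 : ℂˣ) ≠ 1 := neg_one_ne
  -- replace `ψ` by `lam χ`
  have hA : ind s.ker (lc ψ) - ind s.ker (lc ((lam.comp s.ker.subtype) * χ)) ∈ T := by
    refine S.ind_sig hP (sn_ker hs ht) _ _ fun x hx => ?_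
    rw [MonoidHom.mul_apply, MonoidHom.comp_apply]
    change ψ x = lam x * χ x
    have e1 := h1 x hx
    have e2 := h2 x hx
    have hv : ψ x = 1 ∨ ψ x = -1 := by
      obtain ⟨T', hT', -⟩ := S.sub G X T hP s.ker (sn_ker hs ht)
      exact S.val (G := s.ker) hT' ψ hx
    rcases hv with hv | hv
    · have a1 : lam x = 1 := (hlam x).resolve_right fun h => by
        rw [e1, hv] at h; exact hn h.1.symm
      have a2 : χ x = 1 := (hχ x).resolve_right fun h => by
        rw [e2, hv] at h; exact hn h.1.symm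
      rw [hv, a1, a2, one_mul]
    · by_cases hc : ψ ⟨_, ker_conj s t x⟩ = -1
      · have a1 : lam x = -1 := e1.mpr ⟨hv, hc⟩
        have a2 : χ x = 1 := (hχ x).resolve_right fun h => (e2.mp h).2 hc
        rw [hv, a1, a2, mul_one]
      · have a1 : lam x = 1 := (hlam x).resolve_right fun h => hc (e1.mp h).2
        have a2 : χ x = -1 := e2.mpr ⟨hv, hc⟩
        rw [hv, a1, a2, one_mul]
  by_cases hex : ∃ u : s.ker, (u : G) ∈ X ∧ χ u = -1
  swap
  · -- `χ` is trivial on `X`
    push Not at hex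
    refine ⟨s, ?_⟩
    have hB : ind s.ker (lc ((lam.comp s.ker.subtype) * χ))
        - ind s.ker (lc (lam.comp s.ker.subtype)) ∈ T := by
      refine S.ind_sig hP (sn_ker hs ht) _ _ fun x hx => ?_
      rw [MonoidHom.mul_apply, (hχ x).resolve_right (hex x hx), mul_one]
    have hC : ind s.ker (lc (lam.comp s.ker.subtype)) = lc lam + lc (lam * s) :=
      ind_two' hs ht lam
    rw [← hC]
    have := add_mem hA hB
    rwa [sub_add_sub_cancel] at this
  obtain ⟨u, huX, hu⟩ := hex
  -- the functions of the dihedral group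
  let m : G → ℂˣ := fun g => if h : g ∈ s.ker then χ ⟨g, h⟩ else 1
  have hmk : ∀ (g : G) (h : g ∈ s.ker), m g = χ ⟨g, h⟩ := fun g h => dif_pos h
  have hm : ∀ a b, s a = 1 → s b = 1 → m (a * b) = m a * m b := by
    intro a b ha hb
    rw [hmk a ha, hmk b hb, hmk (a * b) (s.ker.mul_mem ha hb), ← map_mul]
    rfl
  have hm1 : ∀ a, s a = 1 → m a = 1 ∨ m a = -1 := by
    intro a ha
    rw [hmk a ha]
    exact hχ _
  set η := etaHom hs ht hm with hη
  have hηs : Sg η := etaHom_sg hs ht hm hm1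
  let κ : G →* ℂˣ := s * η
  have hκ : Sg κ := hs.mul hηs
  -- `u`
  have hsu : s u = 1 := u.2
  have hmu : m u = -1 := by rw [hmk _ u.2]; exact hu
  have hmu' : m (t⁻¹ * u * t) = 1 := by
    rw [hmk _ (ker_conj s t u)]
    refine (hχ _).resolve_right fun h => ?_
    have h3 : t⁻¹ * (u : G) * t ∈ X := S.conj G X T hP _ huX t
    exact ((h2 u huX).mp hu).2 ((h2 ⟨_, ker_conj s t u⟩ h3).mp h).1
  have hηu : η u = -1 := by
    rw [hη, etaHom_apply, e1_pos hsu, e2_pos hsu, hmu, hmu', mul_one]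
  have hκu : κ u = -1 := by
    change s u * η u = -1
    rw [hsu, hηu, one_mul]
  refine ⟨κ, ?_⟩
  -- the character `ι` of the kernel of `κ`
  let ι' : G → ℂˣ := fun g => if s g = 1 then e1 s t m g else iU * e1 s t m g
  have hι1 : ∀ g, s g = 1 → ι' g = e1 s t m g := fun g h => if_pos h
  have hι2 : ∀ g, s g = -1 → ι' g = iU * e1 s t m g := fun g h => if_neg (by rw [h]; exact hn)
  have hk1 : ∀ g, κ g = 1 → s g = 1 → e2 s t m g = e1 s t m g := by
    intro g hg h
    change s g * η g = 1 at hg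
    rw [h, one_mul] at hg
    exact e_eq hs ht hm hm1 hg
  have hk2 : ∀ g, κ g = 1 → s g = -1 → e2 s t m g = - e1 s t m g := by
    intro g hg h
    change s g * η g = 1 at hg
    have h3 : η g = -1 := by
      rcases hηs g with h4 | h4
      · rw [h, h4, mul_one] at hg; exact absurd hg hn
      · exact h4
    rw [hη, etaHom_apply] at h3
    rcases e1_sg hs ht hm hm1 g with h5 | h5 <;> rcases e2_sg hs ht hm hm1 g with h6 | h6 <;>
      rw [h5, h6] at h3 ⊢
    · rw [one_mul] at h3; exact absurd h3.symm hn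
    · rw [neg_neg]
    · rw [neg_mul_neg, one_mul] at h3; exact absurd h3.symm hn
  have hιm : ∀ a b, κ a = 1 → κ b = 1 → ι' (a * b) = ι' a * ι' b := by
    intro a b ha hb
    have hmul := e1_mul hs ht hm a b
    rcases hs a with sa | sa <;> rcases hs b with sb | sb
    · rw [hι1 _ (by rw [map_mul, sa, sb, one_mul]), hι1 _ sa, hι1 _ sb, hmul, if_pos sb]
    · rw [hι2 _ (by rw [map_mul, sa, sb, one_mul]), hι1 _ sa, hι2 _ sb, hmul,
        if_neg (by rw [sb]; exact hn), hk1 a ha sa]
      simp only [mul_left_comm]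
    · rw [hι2 _ (by rw [map_mul, sa, sb, mul_one]), hι2 _ sa, hι1 _ sb, hmul, if_pos sb, mul_assoc]
    · rw [hι1 _ (by rw [map_mul, sa, sb, neg_mul_neg, one_mul]), hι2 _ sa, hι2 _ sb, hmul,
        if_neg (by rw [sb]; exact hn), hk2 a ha sa]
      calc -e1 s t m a * e1 s t m b = (-1) * (e1 s t m a * e1 s t m b) := by
            rw [neg_mul, neg_one_mul]
        _ = (iU * iU) * (e1 s t m a * e1 s t m b) := by rw [iU_sq]
        _ = _ := by simp only [mul_assoc, mul_left_comm]
  let ι : κ.ker →* ℂˣ := MonoidHom.mk' (fun h => ι' h) (fun a b => hιm a b a.2 b.2)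
  -- `ι` is trivial on `X`
  have hιX : ∀ x : κ.ker, (x : G) ∈ X → ι x = 1 := by
    intro x hx
    have hsq := S.inv G X T hP _ hx
    change ι' x = 1
    rcases hs (x : G) with sx | sx
    · rw [hι1 _ sx]
      have h3 := hk1 _ x.2 sx
      rw [e1_pos sx]
      rw [e1_pos sx, e2_pos sx] at h3
      refine (hm1 _ sx).resolve_right fun h4 => ?_
      have h5 := h3.trans h4
      rw [hmk _ sx] at h4
      rw [hmk _ (ker_conj s t ⟨x, sx⟩)] at h5
      have h6 : t⁻¹ * ((⟨x, sx⟩ : s.ker) : G) * t ∈ X := S.conj G X T hP _ hx t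
      exact ((h2 ⟨x, sx⟩ hx).mp h4).2 ((h2 ⟨_, ker_conj s t ⟨x, sx⟩⟩ h6).mp h5).1
    · exfalso
      have h3 := hιm x x x.2 x.2
      rw [hsq, hι1 1 (map_one s), hι2 _ sx] at h3
      have h4 : e1 s t m 1 = 1 := by
        have := hm 1 1 (map_one s) (map_one s)
        rw [mul_one] at this
        rw [e1_pos (map_one s)]
        exact mul_eq_left.mp this.symm
      rw [h4] at h3
      have h5 : iU * e1 s t m (x : G) * (iU * e1 s t m (x : G)) = -1 := by
        rcases e1_sg hs ht hm hm1 (x : G) with h6 | h6 <;> rw [h6]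
        · rw [mul_one, iU_sq]
        · rw [mul_neg, mul_one, neg_mul_neg, iU_sq]
      exact hn (h3.trans h5).symm
  have hD : ind κ.ker (lc ((lam.comp κ.ker.subtype) * ι))
      - ind κ.ker (lc (lam.comp κ.ker.subtype)) ∈ T := by
    refine S.ind_sig hP (sn_ker hκ hκu) _ _ fun x hx => ?_
    rw [MonoidHom.mul_apply, hιX x hx, mul_one]
  have hE : ind κ.ker (lc (lam.comp κ.ker.subtype)) = lc lam + lc (lam * κ) :=
    ind_two' hκ hκu lam
  -- the two induced characters agree
  have hlc : ∀ g x : G, lc lam (x⁻¹ * g * x) = lc lam g := by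
    intro g x
    unfold lc
    rw [map_mul, map_mul, map_inv, mul_comm (lam x)⁻¹, mul_assoc, inv_mul_cancel, mul_one]
  have hmc : ∀ g x : G, s g = 1 → s x = 1 → m (x⁻¹ * g * x) = m g := by
    intro g x hg hx
    have hx' : s x⁻¹ = 1 := by rw [map_inv, hx, inv_one]
    rw [hmk g hg, hmk _ (by
      rw [MonoidHom.mem_ker, map_mul, map_mul, hx', hg, hx, one_mul, one_mul])]
    have h3 : (⟨x⁻¹ * g * x, by
      rw [MonoidHom.mem_ker, map_mul, map_mul, hx', hg, hx, one_mul, one_mul]⟩ : s.ker)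
        = (⟨x, hx⟩ : s.ker)⁻¹ * ⟨g, hg⟩ * ⟨x, hx⟩ := rfl
    rw [h3, map_mul, map_mul, map_inv, mul_comm (χ ⟨x, hx⟩)⁻¹, mul_assoc, inv_mul_cancel, mul_one]
  have hL : ind s.ker (lc ((lam.comp s.ker.subtype) * χ)) = fun g =>
      if s g = 1 then lc lam g * ((e1 s t m g : ℂˣ) : ℂ) + lc lam g * ((e2 s t m g : ℂˣ) : ℂ)
        else 0 := by
    funext g
    have h3 : lc ((lam.comp s.ker.subtype) * χ)
        = fun h : s.ker => (fun y : G => lc lam y * ((m y : ℂˣ) : ℂ)) h := by
      funext h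
      unfold lc
      rw [MonoidHom.mul_apply, Units.val_mul]
      change _ = _ * ((m h : ℂˣ) : ℂ)
      rw [hmk _ h.2]
      rfl
    rw [h3, ind_two hs ht (fun y : G => lc lam y * ((m y : ℂˣ) : ℂ))]
    · by_cases h : s g = 1
      · rw [if_pos h, if_pos h, e1_pos h, e2_pos h, hlc]
      · rw [if_neg h, if_neg h]
    · intro g x hg hx
      change lc lam (x⁻¹ * g * x) * ((m (x⁻¹ * g * x) : ℂˣ) : ℂ) = lc lam g * ((m g : ℂˣ) : ℂ)
      rw [hlc, hmc g x hg hx]
  have hF : ind κ.ker (lc ((lam.comp κ.ker.subtype) * ι))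
      = ind s.ker (lc ((lam.comp s.ker.subtype) * χ)) := by
    rw [hL]
    funext g
    have h3 : lc ((lam.comp κ.ker.subtype) * ι)
        = fun h : κ.ker => (fun y : G => lc lam y * ((ι' y : ℂˣ) : ℂ)) h := by
      funext h
      unfold lc
      rw [MonoidHom.mul_apply, Units.val_mul]
      rfl
    rw [h3, ind_two hκ hκu (fun y : G => lc lam y * ((ι' y : ℂˣ) : ℂ))]
    · change (if κ g = 1 then lc lam g * ((ι' g : ℂˣ) : ℂ)
        + lc lam ((u : G)⁻¹ * g * u) * ((ι' ((u : G)⁻¹ * g * u) : ℂˣ) : ℂ) else 0) = _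
      have hscu : s ((u : G)⁻¹ * g * u) = s g := by
        rw [map_mul, map_mul, map_inv, hsu, inv_one, one_mul, mul_one]
      by_cases hg : κ g = 1
      · rw [if_pos hg, hlc]
        rcases hs g with sg | sg
        · rw [if_pos sg, hι1 _ sg, hι1 _ (hscu.trans sg), hk1 g hg sg, e1_pos sg,
            e1_pos (hscu.trans sg), hmc g u sg hsu]
        · rw [if_neg (by rw [sg]; exact hn), hι2 _ sg, hι2 _ (hscu.trans sg)]
          have h4 : e1 s t m ((u : G)⁻¹ * g * u) = - e1 s t m g := by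
            have h5 : (u : G)⁻¹ * g * u = (u : G)⁻¹ * (g * u) := by group
            have sgu : s (g * u) = -1 := by rw [map_mul, sg, hsu, mul_one]
            rw [h5, e1_mul hs ht hm, if_neg (by rw [sgu]; exact hn), e1_mul hs ht hm g u,
              if_pos hsu]
            have hsu' : s (u : G)⁻¹ = 1 := by rw [map_inv, hsu, inv_one]
            have h6 : e2 s t m (u : G)⁻¹ = 1 := by
              rw [e2_pos hsu']
              have h7 : t⁻¹ * (u : G)⁻¹ * t = (t⁻¹ * (u : G) * t)⁻¹ := by group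
              have h8 : t⁻¹ * (u : G) * t ∈ s.ker := ker_conj s t u
              have h9 : m (t⁻¹ * (u : G) * t)⁻¹ * m (t⁻¹ * (u : G) * t) = m 1 := by
                rw [← hm _ _ (s.ker.inv_mem h8) h8, inv_mul_cancel]
              have h10 : m 1 = 1 := by
                have := hm 1 1 (map_one s) (map_one s)
                rw [mul_one] at this
                exact mul_eq_left.mp this.symm
              rw [hmu', mul_one, h10] at h9
              rw [h7, h9]
            rw [h6, one_mul, e1_pos hsu, hmu, mul_neg, mul_one]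
          rw [h4, mul_neg, Units.val_neg, mul_neg, add_neg_cancel]
      · rw [if_neg hg]
        have hg' : κ g = -1 := (hκ g).resolve_left hg
        rcases hs g with sg | sg
        · rw [if_pos sg]
          change s g * η g = -1 at hg'
          rw [sg, one_mul, hη, etaHom_apply] at hg'
          rcases e1_sg hs ht hm hm1 g with h | h <;> rcases e2_sg hs ht hm hm1 g with h' | h' <;>
            rw [h, h'] at hg' ⊢
          · rw [one_mul] at hg'; exact absurd hg'.symm hn
          · simp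
          · simp
          · rw [neg_mul_neg, one_mul] at hg'; exact absurd hg'.symm hn
        · rw [if_neg (by rw [sg]; exact hn)]
    · intro g x hg hx
      change lc lam (x⁻¹ * g * x) * ((ι' (x⁻¹ * g * x) : ℂˣ) : ℂ) = lc lam g * ((ι' g : ℂˣ) : ℂ)
      rw [hlc]
      have hx' : κ x⁻¹ = 1 := by rw [map_inv, hx, inv_one]
      have h4 : ι' (x⁻¹ * g * x) = ι' x⁻¹ * ι' g * ι' x := by
        rw [hιm _ _ (by rw [map_mul, hx', hg, one_mul]) hx, hιm _ _ hx' hg]
      have h5 : ι' x⁻¹ * ι' x = ι' 1 := by rw [← hιm _ _ hx' hx, inv_mul_cancel]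
      have h6 : ι' 1 = 1 := by
        have := hιm 1 1 (map_one κ) (map_one κ)
        rw [mul_one] at this
        exact mul_eq_left.mp this.symm
      rw [h4, mul_comm (ι' x⁻¹), mul_assoc, h5, h6, mul_one]
  rw [hF, hE] at hD
  have := add_mem hA hD
  rwa [sub_add_sub_cancel] at this

end two

end Pool.Agent.Run7.h810.DL
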