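import Mathlib
import Pool.Agent.Run7.h810.DL.Core

/-!
# Coverings, steps of index two
-/

set_option autoImplicit false
set_option linter.unusedSectionVars false

namespace Pool.Agent.Run7.h810.DL

open Pool.Agent.R389 Pool.Agent.K4H74.ST Pool.Agent.W446.AS

lemma lc_virt {G : Type} [Group G] [Finite G] (ψ : G →* ℂˣ) : Virt (lc ψ) :=
  AddSubgroup.subset_closure (lin_irr ψ)

lemma lc_conj {G : Type} [Group G] (ψ : G →* ℂˣ) (g x : G) : lc ψ (x * g * x⁻¹) = lc ψ g := by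
  unfold lc
  rw [map_mul, map_mul, map_inv, mul_comm (ψ x), mul_assoc, mul_inv_cancel, mul_one]

/-- induced functions from equal subgroups -/
lemma ind_congr {G : Type} [Group G] [Finite G] {H H' : Subgroup G} (h : H = H') {f : H → ℂ}
    {f' : H' → ℂ} (hf : ∀ y (hy : y ∈ H) (hy' : y ∈ H'), f ⟨y, hy⟩ = f' ⟨y, hy'⟩) :
    ind H f = ind H' f' := by
  subst h
  congr 1
  funext y
  exact hf y y.2 y.2

/-- transitivity of induction -/
lemma ind_tower {G : Type} [Group G] [Finite G] {B : Subgroup G} (K : Subgroup B)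
    {A : Subgroup G} (hA : ∀ b : B, b ∈ K ↔ (b : G) ∈ A) (hAB : A ≤ B) (f : A → ℂ) :
    ind B (ind K (fun b : K => f ⟨((b : B) : G), (hA b).mp b.2⟩)) = ind A f := by
  rw [ind_ind]
  have hK : K.map B.subtype = A := by
    ext y
    constructor
    · rintro ⟨b, hb, rfl⟩
      exact (hA b).mp hb
    · intro hy
      exact ⟨⟨y, hAB hy⟩, (hA _).mpr hy, rfl⟩
  refine ind_congr hK fun y hy hy' => ?_
  have h1 := (K.equivMapOfInjective B.subtype B.subtype_injective).apply_symm_apply ⟨y, hy⟩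
  have h2 := congrArg (fun z : K.map B.subtype => (z : G)) h1
  rw [Subgroup.coe_equivMapOfInjective_apply] at h2
  change f ⟨_, _⟩ = f ⟨y, hy'⟩
  congr 1
  exact Subtype.ext h2

section cov

variable {P : ∀ (G : Type) [Group G] [Finite G], Set G → AddSubgroup (G → ℂ) → Prop}

lemma Cov.refl {G : Type} [Group G] [Finite G] {X : Set G} {T : AddSubgroup (G → ℂ)}
    (h : P G X T) : Cov P X T X T (MonoidHom.id G) where
  surj := Function.surjective_id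
  mem := h
  maps x hx := hx
  up f hf := hf
  desc f _ hf := hf

lemma Cov.comp {G : Type} [Group G] [Finite G] {X : Set G} {T : AddSubgroup (G → ℂ)}
    {G' : Type} [Group G'] [Finite G'] {X' : Set G'} {T' : AddSubgroup (G' → ℂ)} {π : G' →* G}
    {G'' : Type} [Group G''] [Finite G''] {X'' : Set G''} {T'' : AddSubgroup (G'' → ℂ)}
    {π' : G'' →* G'} (h : Cov P X T X' T' π) (h' : Cov P X' T' X'' T'' π') :
    Cov P X T X'' T'' (π.comp π') where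
  surj := h.surj.comp h'.surj
  mem := h'.mem
  maps x hx := h.maps _ (h'.maps x hx)
  up f hf := h'.up _ (h.up f hf)
  desc f hv hf := h.desc f hv (h'.desc _ (MS_comp hv h.surj) hf)

end cov

/-- `A` has index two in `B` -/
def Two {G : Type} [Group G] (A B : Subgroup G) : Prop :=
  A ≤ B ∧ ∃ s : B →* ℂˣ, Sg s ∧ (∃ t, s t = -1) ∧ ∀ b : B, s b = 1 ↔ (b : G) ∈ A

lemma Two.comap {G G' : Type} [Group G] [Group G'] {A B : Subgroup G} (h : Two A B) {π : G' →* G}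
    (hπ : Function.Surjective π) : Two (A.comap π) (B.comap π) := by
  obtain ⟨hAB, s, hs, ⟨t, ht⟩, hk⟩ := h
  refine ⟨Subgroup.comap_mono hAB, s.comp (π.subgroupComap B), fun b => hs _, ?_, fun b => ?_⟩
  · obtain ⟨t', ht'⟩ := hπ t
    refine ⟨⟨t', by rw [Subgroup.mem_comap, ht']; exact t.2⟩, ?_⟩
    have h1 : (π.subgroupComap B) ⟨t', by rw [Subgroup.mem_comap, ht']; exact t.2⟩ = t :=
      Subtype.ext ht'
    rw [MonoidHom.comp_apply, h1, ht]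
  · rw [MonoidHom.comp_apply, hk, Subgroup.mem_comap]
    rfl

lemma Two.np {G : Type} [Group G] [Finite G] {A B : Subgroup G} (h : Two A B) : NP A B := by
  obtain ⟨h1, s, hs, ⟨t, ht⟩, hk⟩ := h
  have h2 : A.subgroupOf B = s.ker := by
    ext b
    rw [Subgroup.mem_subgroupOf, MonoidHom.mem_ker, hk]
  refine ⟨h1, fun a ha b hb => ?_, ?_⟩
  · have h3 := (hk (⟨b, hb⟩⁻¹ * ⟨a, h1 ha⟩ * ⟨b, hb⟩)).mp (by
      rw [map_mul, map_mul, map_inv, (hk ⟨a, h1 ha⟩).mpr ha, mul_one, inv_mul_cancel])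
    exact h3
  · change (A.subgroupOf B).index.Prime
    rw [h2]
    have h3 := s.ker.index_mul_card
    rw [card_ker hs ht] at h3
    have h4 : s.ker.index = 2 := Nat.eq_of_mul_eq_mul_right Nat.card_pos h3
    rw [h4]
    exact Nat.prime_two

section step

variable {P : ∀ (G : Type) [Group G] [Finite G], Set G → AddSubgroup (G → ℂ) → Prop} (S : Tw P)
variable {G : Type} [Group G] [Finite G] {X : Set G} {T : AddSubgroup (G → ℂ)} (hP : P G X T)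

include S hP

/-- **The step of index two for subgroups.** -/
theorem Tw.one_step {A B : Subgroup G} (hB : Sn B) (h : Two A B) (ψ : A →* ℂˣ) :
    ∃ (G' : Type) (_ : Group G') (_ : Finite G') (X' : Set G') (T' : AddSubgroup (G' → ℂ))
      (π : G' →* G), Cov P X T X' T' π ∧ ∃ l₁ l₂ : (B.comap π) →* ℂˣ,
        (fun g => ind A (lc ψ) (π g)) - (ind (B.comap π) (lc l₁) + ind (B.comap π) (lc l₂)) ∈ T' := by
  classical
  obtain ⟨hAB, s, hs, ⟨t, ht⟩, hk⟩ := h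
  have hn : (-1 : ℂˣ) ≠ 1 := neg_one_ne
  let m : G → ℂˣ := fun g => if h : g ∈ A then ψ ⟨g, h⟩ else 1
  have hmk : ∀ (g : G) (h : g ∈ A), m g = ψ ⟨g, h⟩ := fun g h => dif_pos h
  have hmc : ∀ g a : G, g ∈ A → a ∈ A → m (a⁻¹ * g * a) = m g := by
    intro g a hg ha
    rw [hmk g hg, hmk _ (A.mul_mem (A.mul_mem (A.inv_mem ha) hg) ha)]
    have h3 : (⟨a⁻¹ * g * a, A.mul_mem (A.mul_mem (A.inv_mem ha) hg) ha⟩ : A)
        = (⟨a, ha⟩ : A)⁻¹ * ⟨g, hg⟩ * ⟨a, ha⟩ := rfl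
    rw [h3, map_mul, map_mul, map_inv, mul_comm (ψ ⟨a, ha⟩)⁻¹, mul_assoc, inv_mul_cancel, mul_one]
  -- membership in `A`
  have hsA : ∀ b : B, s b = -1 → (b : G) ∉ A := fun b hb h => by
    rw [(hk b).mpr h] at hb; exact hn hb.symm
  have hcA : ∀ (b : B) (g : G), g ∈ A → (b : G)⁻¹ * g * b ∈ A := by
    intro b g hg
    have h1 := (hk (b⁻¹ * ⟨g, hAB hg⟩ * b)).mp (by
      rw [map_mul, map_mul, map_inv, (hk ⟨g, hAB hg⟩).mpr hg, mul_one, inv_mul_cancel])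
    exact h1
  have htA : ∀ b : B, s b = -1 → (t : G)⁻¹ * b ∈ A := by
    intro b hb
    exact (hk (t⁻¹ * b)).mp (by rw [map_mul, map_inv, ht, hb]; simp)
  have hbA : ∀ b : B, s b = -1 → (b : G) * t ∈ A := by
    intro b hb
    exact (hk (b * t)).mp (by rw [map_mul, ht, hb]; simp)
  let Y₁ : Set G := {x | x ∈ X ∧ x ∈ A ∧ m x = -1 ∧ m ((t : G)⁻¹ * x * t) = -1}
  let Y₂ : Set G := {x | x ∈ X ∧ x ∈ A ∧ m x = -1 ∧ m ((t : G)⁻¹ * x * t) ≠ -1}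
  have hY₁ : ∀ y ∈ Y₁, ∀ h ∈ B, h⁻¹ * y * h ∈ Y₁ := by
    rintro y ⟨hyX, hyA, h1, h2⟩ h hb
    refine ⟨S.conj G X T hP y hyX h, hcA ⟨h, hb⟩ y hyA, ?_⟩
    rcases hs ⟨h, hb⟩ with hh | hh
    · have hhA : h ∈ A := (hk ⟨h, hb⟩).mp hh
      refine ⟨by rw [hmc y h hyA hhA, h1], ?_⟩
      have h3 : (t : G)⁻¹ * (h⁻¹ * y * h) * t
          = ((t : G)⁻¹ * h * t)⁻¹ * ((t : G)⁻¹ * y * t) * ((t : G)⁻¹ * h * t) := by group
      rw [h3, hmc _ _ (hcA t y hyA) (hcA t h hhA), h2]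
    · have ha := htA ⟨h, hb⟩ hh
      have hb' := hbA ⟨h, hb⟩ hh
      constructor
      · have h3 : h⁻¹ * y * h = ((t : G)⁻¹ * h)⁻¹ * ((t : G)⁻¹ * y * t) * ((t : G)⁻¹ * h) := by
          group
        rw [h3, hmc _ _ (hcA t y hyA) ha, h2]
      · have h3 : (t : G)⁻¹ * (h⁻¹ * y * h) * t = (h * t)⁻¹ * y * (h * t) := by group
        rw [h3, hmc _ _ hyA hb', h1]
  obtain ⟨G₁, i₁, i₂, X₁, T₁, π₁, c₁, lam₁, hlam₁, hlam₁'⟩ :=
    S.sign G X T hP B Y₁ (fun y hy => ⟨hy.1, hAB hy.2.1⟩) hY₁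
  have hY₂ : ∀ y ∈ {x | x ∈ X₁ ∧ π₁ x ∈ Y₂}, ∀ h ∈ A.comap π₁,
      h⁻¹ * y * h ∈ {x | x ∈ X₁ ∧ π₁ x ∈ Y₂} := by
    rintro y ⟨hyX, -, hyA, h1, h2⟩ h hhA
    rw [Subgroup.mem_comap] at hhA
    have hX1 := S.conj G₁ X₁ T₁ c₁.mem y hyX h
    refine ⟨hX1, c₁.maps _ hX1, ?_⟩
    have h4 : π₁ (h⁻¹ * y * h) = (π₁ h)⁻¹ * π₁ y * π₁ h := by
      rw [map_mul, map_mul, map_inv]
    rw [h4]
    refine ⟨A.mul_mem (A.mul_mem (A.inv_mem hhA) hyA) hhA, by rw [hmc _ _ hyA hhA, h1], ?_⟩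
    have h3 : (t : G)⁻¹ * ((π₁ h)⁻¹ * π₁ y * π₁ h) * t
        = ((t : G)⁻¹ * π₁ h * t)⁻¹ * ((t : G)⁻¹ * π₁ y * t) * ((t : G)⁻¹ * π₁ h * t) := by group
    rw [h3, hmc _ _ (hcA t _ hyA) (hcA t _ hhA)]
    exact h2
  obtain ⟨G₂, i₃, i₄, X₂, T₂, π₂, c₂, χ, hχ, hχ'⟩ :=
    S.sign G₁ X₁ T₁ c₁.mem (A.comap π₁) {x | x ∈ X₁ ∧ π₁ x ∈ Y₂}
      (fun y hy => ⟨hy.1, hy.2.2.1⟩) hY₂
  have c := c₁.comp c₂
  set π : G₂ →* G := π₁.comp π₂ with hπ
  refine ⟨G₂, i₃, i₄, X₂, T₂, π, c, ?_⟩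
  -- the objects over `B`
  obtain ⟨TB, hTB, hind⟩ := S.sub G₂ X₂ T₂ c.mem (B.comap π) (hB.comap c.surj)
  let s₂ : (B.comap π) →* ℂˣ := s.comp (π.subgroupComap B)
  have hs₂ : Sg s₂ := fun b => hs _
  obtain ⟨t₂, ht₂⟩ := c.surj t
  have htB : t₂ ∈ B.comap π := by rw [Subgroup.mem_comap, ht₂]; exact t.2
  have ht₂' : s₂ ⟨t₂, htB⟩ = -1 := by
    have h1 : (π.subgroupComap B) ⟨t₂, htB⟩ = t := Subtype.ext ht₂
    change s ((π.subgroupComap B) ⟨t₂, htB⟩) = -1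
    rw [h1, ht]
  have hk₂ : ∀ b : B.comap π, b ∈ s₂.ker ↔ (b : G₂) ∈ A.comap π := by
    intro b
    rw [MonoidHom.mem_ker]
    exact hk ((π.subgroupComap B) b)
  let j : s₂.ker →* A.comap π :=
    { toFun := fun b => ⟨((b : B.comap π) : G₂), (hk₂ b).mp b.2⟩
      map_one' := rfl
      map_mul' := fun a b => rfl }
  let ψ₂ : s₂.ker →* ℂˣ := (ψ.comp (π.subgroupComap A)).comp j
  have hψ₂ : ∀ b : s₂.ker, ψ₂ b = m (π ((b : B.comap π) : G₂)) := by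
    intro b
    rw [hmk _ ((hk₂ b).mp b.2)]
    rfl
  let lam : (B.comap π) →* ℂˣ := lam₁.comp (π₂.subgroupComap (B.comap π₁))
  have hlam : Sg lam := fun b => hlam₁ _
  let χ₂ : s₂.ker →* ℂˣ := χ.comp j
  have hχ₂ : Sg χ₂ := fun b => hχ _
  have key := S.qabs (G := B.comap π) hTB hs₂ ht₂' ψ₂ lam hlam χ₂ hχ₂ ?_ ?_
  · obtain ⟨κ, hκ⟩ := key
    refine ⟨lam, lam * κ, ?_⟩
    have h1 := hind _ hκ
    rw [ind_sub, ind_add] at h1
    have h2 : ind (B.comap π) (ind s₂.ker (lc ψ₂)) = fun g => ind A (lc ψ) (π g) := by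
      rw [ind_comap c.surj]
      exact ind_tower s₂.ker hk₂ (Subgroup.comap_mono hAB) (lc (ψ.comp (π.subgroupComap A)))
    rwa [h2] at h1
  · intro x hx
    have hxA := (hk₂ x).mp x.2
    have h1 := hlam₁' ((π₂.subgroupComap (B.comap π₁)) (x : B.comap π)) (c₂.maps _ hx)
    have h2 : lam x = lam₁ ((π₂.subgroupComap (B.comap π₁)) (x : B.comap π)) := rfl
    rw [h2, h1, hψ₂, hψ₂]
    have h3 : π ((⟨_, ker_conj s₂ ⟨t₂, htB⟩ x⟩ : s₂.ker) : B.comap π)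
        = (t : G)⁻¹ * π ((x : B.comap π) : G₂) * t := by
      change π (t₂⁻¹ * ((x : B.comap π) : G₂) * t₂) = _
      rw [map_mul, map_mul, map_inv, ht₂]
    rw [h3]
    constructor
    · rintro ⟨-, -, h4, h5⟩
      exact ⟨h4, h5⟩
    · rintro ⟨h4, h5⟩
      exact ⟨c.maps _ hx, hxA, h4, h5⟩
  · intro x hx
    have hxA := (hk₂ x).mp x.2
    have h1 := hχ' (j x) hx
    have h2 : χ₂ x = χ (j x) := rfl
    rw [h2, h1, hψ₂, hψ₂]
    have h3 : π ((⟨_, ker_conj s₂ ⟨t₂, htB⟩ x⟩ : s₂.ker) : B.comap π)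
        = (t : G)⁻¹ * π ((x : B.comap π) : G₂) * t := by
      change π (t₂⁻¹ * ((x : B.comap π) : G₂) * t₂) = _
      rw [map_mul, map_mul, map_inv, ht₂]
    rw [h3]
    constructor
    · rintro ⟨-, -, -, h4, h5⟩
      exact ⟨h4, h5⟩
    · rintro ⟨h4, h5⟩
      exact ⟨c₂.maps _ hx, c.maps _ hx, hxA, h4, h5⟩

end step

end Pool.Agent.Run7.h810.DL
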