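import Mathlib
import Pool.Agent.Run7.h810.DL.Step

/-!
# Combinations of linear characters, and chains of index two
-/

set_option autoImplicit false
set_option linter.unusedSectionVars false
set_option linter.unusedVariables false

namespace Pool.Agent.Run7.h810.DL

open Pool.Agent.R389 Pool.Agent.K4H74.ST Pool.Agent.W446.AS Pool.Agent.H302R2 Pool.Agent.H302R3
  Pool.Agent.H541R3.ART

/-- combinations of linear characters -/
def LL (G : Type) [Group G] : AddSubgroup (G → ℂ) :=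
  AddSubgroup.closure {F | ∃ ψ : G →* ℂˣ, F = lc ψ}

section lin

variable {P : ∀ (G : Type) [Group G] [Finite G], Set G → AddSubgroup (G → ℂ) → Prop} (S : Tw P)

include S

/-- the basic relation between sign characters -/
lemma Tw.rel {G : Type} [Group G] [Finite G] {X : Set G} {T : AddSubgroup (G → ℂ)} (hP : P G X T)
    {γ ε : G →* ℂˣ} (hγ : Sg γ) (h : ∀ x ∈ X, γ x = 1 → ε x = 1) :
    lc 1 + lc γ - (lc ε + lc (ε * γ)) ∈ T := by
  by_cases ht : ∃ t, γ t = -1
  · obtain ⟨t, ht⟩ := ht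
    have h1 : ind γ.ker (fun h => lc (1 : G →* ℂˣ) h) = lc 1 + lc (1 * γ) := ind_two' hγ ht 1
    have h2 : ind γ.ker (fun h => lc ε h) = lc ε + lc (ε * γ) := ind_two' hγ ht ε
    have h3 := S.ind_sig hP (sn_ker hγ ht) ((1 : G →* ℂˣ).comp γ.ker.subtype) (ε.comp γ.ker.subtype)
      (fun x hx => (h x hx x.2).symm)
    have h4 : 1 * γ = γ := by ext g; simp
    rw [h4] at h1
    rw [← h1, ← h2]
    exact h3
  · push Not at ht
    have hγ1 : γ = 1 := by
      ext g
      rw [(hγ g).resolve_right (ht g)]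
      rfl
    subst hγ1
    have h4 : lc 1 - lc ε ∈ T := S.sig G X T hP 1 ε (fun x hx => (h x hx rfl).symm)
    have h7 : ε * 1 = ε := by ext g; simp
    rw [h7]
    have h5 := add_mem h4 h4
    have h6 : (lc 1 - lc ε) + (lc 1 - lc ε) = lc 1 + lc 1 - (lc ε + lc ε) := by abel
    rwa [h6] at h5

/-- sign characters which are negative exactly on given conjugacy classes -/
lemma Tw.fam {G : Type} [Group G] [Finite G] {X : Set G} {T : AddSubgroup (G → ℂ)}
    (hP : P G X T) (l : List (ConjClasses G)) :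
    ∃ (G' : Type) (_ : Group G') (_ : Finite G') (X' : Set G') (T' : AddSubgroup (G' → ℂ))
      (π : G' →* G), Cov P X T X' T' π ∧ ∀ C ∈ l, ∃ ε : G' →* ℂˣ, Sg ε ∧
        ∀ y ∈ X', (ε y = -1 ↔ ConjClasses.mk (π y) = C) := by
  induction l with
  | nil => exact ⟨G, _, _, X, T, MonoidHom.id G, Cov.refl hP, by simp⟩
  | cons C l ih =>
    obtain ⟨G₁, i₁, i₂, X₁, T₁, π₁, c₁, h₁⟩ := ih
    obtain ⟨G₂, i₃, i₄, X₂, T₂, π₂, c₂, χ, hχ, hχ'⟩ := S.sign G₁ X₁ T₁ c₁.mem ⊤
      {y | y ∈ X₁ ∧ ConjClasses.mk (π₁ y) = C} (fun y hy => ⟨hy.1, Subgroup.mem_top _⟩) (by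
        rintro y ⟨hy, hC⟩ h -
        refine ⟨S.conj G₁ X₁ T₁ c₁.mem y hy h, ?_⟩
        rw [← hC, ConjClasses.mk_eq_mk_iff_isConj]
        rw [map_mul, map_mul, map_inv]
        refine (isConj_iff.mpr ⟨(π₁ h)⁻¹, by rw [inv_inv]⟩).symm)
    refine ⟨G₂, i₃, i₄, X₂, T₂, π₁.comp π₂, c₁.comp c₂, fun D hD => ?_⟩
    rcases List.mem_cons.mp hD with rfl | hD
    · let j : G₂ →* ((⊤ : Subgroup G₁).comap π₂) :=
        { toFun := fun g => ⟨g, Subgroup.mem_comap.mpr (Subgroup.mem_top _)⟩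
          map_one' := rfl
          map_mul' := fun a b => rfl }
      refine ⟨χ.comp j, fun g => hχ _, fun y hy => ?_⟩
      have h2 := hχ' (j y) hy
      rw [MonoidHom.comp_apply, h2]
      constructor
      · rintro ⟨-, h3⟩; exact h3
      · intro h3; exact ⟨c₂.maps y hy, h3⟩
    · obtain ⟨ε, hε, hε'⟩ := h₁ D hD
      exact ⟨ε.comp π₂, fun g => hε _, fun y hy => hε' _ (c₂.maps y hy)⟩

/-- **Combinations of linear characters.** -/
theorem Tw.lin {G : Type} [Group G] [Finite G] {X : Set G} {T : AddSubgroup (G → ℂ)}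
    (hP : P G X T) {f : G → ℂ} (hf : f ∈ LL G) (h1 : f 1 = 0) (hX : ∀ x ∈ X, f x = 0) : f ∈ T := by
  classical
  have : Fintype (ConjClasses G) := Fintype.ofFinite _
  obtain ⟨G', i₁, i₂, X', T', π, c, hfam⟩ := S.fam hP (Finset.univ : Finset (ConjClasses G)).toList
  have hfam' : ∀ C : ConjClasses G, ∃ ε : G' →* ℂˣ, Sg ε ∧
        ∀ y ∈ X', (ε y = -1 ↔ ConjClasses.mk (π y) = C) :=
    fun C => hfam C (Finset.mem_toList.mpr (Finset.mem_univ C))
  choose ε hε hε' using hfam'
  have hval : ∀ C, ∀ y ∈ X', ConjClasses.mk (π y) ≠ C → ε C y = 1 := fun C y hy h =>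
    (hε C y).resolve_right fun h' => h ((hε' C y hy).mp h')
  -- products
  have hprod : ∀ S₀ : Finset (ConjClasses G), Sg (∏ C ∈ S₀, ε C) ∧
      (∀ y ∈ X', ((∏ C ∈ S₀, ε C) y = -1 ↔ ConjClasses.mk (π y) ∈ S₀)) ∧
      lc (∏ C ∈ S₀, ε C) - lc 1 - ∑ C ∈ S₀, (lc (ε C) - lc 1) ∈ T' := by
    intro S₀
    induction S₀ using Finset.induction_on with
    | empty =>
      refine ⟨fun g => Or.inl rfl, fun y hy => ?_, ?_⟩
      · rw [Finset.prod_empty]
        constructor
        · intro h; exact absurd h.symm neg_one_ne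
        · intro h; simp at h
      · rw [Finset.prod_empty, Finset.sum_empty, sub_self, sub_zero]
        exact zero_mem _
    | insert C S₀ hC ih =>
      obtain ⟨ih1, ih2, ih3⟩ := ih
      rw [Finset.prod_insert hC, Finset.sum_insert hC]
      set γ := ∏ D ∈ S₀, ε D with hγ
      have h1 : Sg (ε C * γ) := (hε C).mul ih1
      have h2 : ∀ y ∈ X', ((ε C * γ) y = -1 ↔ ConjClasses.mk (π y) ∈ insert C S₀) := by
        intro y hy
        rw [MonoidHom.mul_apply, Finset.mem_insert]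
        by_cases hyC : ConjClasses.mk (π y) = C
        · have h3 : γ y = 1 := (ih1 y).resolve_right fun h => hC (hyC ▸ (ih2 y hy).mp h)
          rw [(hε' C y hy).mpr hyC, h3, mul_one]
          simp [hyC]
        · rw [hval C y hy hyC, one_mul, ih2 y hy]
          simp [hyC]
      refine ⟨h1, h2, ?_⟩
      have h3 := S.rel c.mem (γ := ε C * γ) (ε := ε C) h1 (fun y hy hy1 => by
        refine hval C y hy fun hyC => ?_
        have h4 := (h2 y hy).mpr (by rw [hyC]; exact Finset.mem_insert_self _ _)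
        rw [hy1] at h4
        exact neg_one_ne h4.symm)
      have h4 : ε C * (ε C * γ) = γ := by
        ext g
        rw [MonoidHom.mul_apply, MonoidHom.mul_apply]
        rcases hε C g with h | h <;> rw [h] <;> simp
      rw [h4] at h3
      have h5 : lc (ε C * γ) - lc 1 - ((lc (ε C) - lc 1) + ∑ D ∈ S₀, (lc (ε D) - lc 1))
          = (lc 1 + lc (ε C * γ) - (lc (ε C) + lc γ))
            + (lc γ - lc 1 - ∑ D ∈ S₀, (lc (ε D) - lc 1)) := by abel
      rw [h5]
      exact add_mem h3 ih3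
  -- expansion
  have hexp : ∃ (n : ℤ) (a : ConjClasses G → ℤ), f 1 = n ∧
      (∀ x ∈ X, f x = n - 2 * a (ConjClasses.mk x)) ∧
      (∀ C, (¬ ∃ x ∈ X, ConjClasses.mk x = C) → a C = 0) ∧
      (fun g => f (π g)) - n • lc 1 - ∑ C, a C • (lc (ε C) - lc 1) ∈ T' := by
    clear h1 hX
    induction hf using AddSubgroup.closure_induction with
    | mem F hF =>
      obtain ⟨ψ, rfl⟩ := hF
      let S₀ : Finset (ConjClasses G) :=
        Finset.univ.filter fun C => ∃ x ∈ X, ConjClasses.mk x = C ∧ ψ x = -1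
      have hS₀ : ∀ x ∈ X, (ConjClasses.mk x ∈ S₀ ↔ ψ x = -1) := by
        intro x hx
        rw [Finset.mem_filter]
        constructor
        · rintro ⟨-, x', hx', h2, h3⟩
          rw [ConjClasses.mk_eq_mk_iff_isConj] at h2
          obtain ⟨g, hg⟩ := isConj_iff.mp h2
          rw [← hg, map_mul, map_mul, map_inv, mul_comm (ψ g), mul_assoc, mul_inv_cancel, mul_one,
            h3]
        · intro h; exact ⟨Finset.mem_univ _, x, hx, rfl, h⟩
      refine ⟨1, fun C => if C ∈ S₀ then 1 else 0, ?_, fun x hx => ?_, fun C hC => ?_, ?_⟩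
      · simp [lc]
      · rcases S.val hP ψ hx with h | h
        · have h2 : ConjClasses.mk x ∉ S₀ := fun h3 => by
            rw [hS₀ x hx, h] at h3
            exact neg_one_ne h3.symm
          simp [lc, h, h2]
        · have h2 : ConjClasses.mk x ∈ S₀ := (hS₀ x hx).mpr h
          simp only [lc, h, h2, if_true]
          push_cast
          norm_num
      · change (if C ∈ S₀ then (1 : ℤ) else 0) = 0
        rw [if_neg]
        intro h
        rw [Finset.mem_filter] at h
        obtain ⟨-, x, hx, h2, -⟩ := h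
        exact hC ⟨x, hx, h2⟩
      · obtain ⟨g1, g2, g3⟩ := hprod S₀
        have h2 : lc (ψ.comp π) - lc (∏ C ∈ S₀, ε C) ∈ T' := by
          refine S.sig G' X' T' c.mem _ _ fun y hy => ?_
          have hyX := c.maps y hy
          rw [MonoidHom.comp_apply]
          rcases S.val hP ψ hyX with h | h
          · rw [h]
            refine ((g1 y).resolve_right fun h3 => ?_).symm
            rw [g2 y hy, hS₀ _ hyX, h] at h3
            exact neg_one_ne h3.symm
          · rw [h]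
            exact ((g2 y hy).mpr ((hS₀ _ hyX).mpr h)).symm
        have h3 : ∑ C, (if C ∈ S₀ then (1 : ℤ) else 0) • (lc (ε C) - lc 1)
            = ∑ C ∈ S₀, (lc (ε C) - lc (1 : G' →* ℂˣ)) := by
          simp only [ite_smul, one_smul, zero_smul]
          rw [Finset.sum_ite_mem, Finset.univ_inter]
        rw [h3, one_smul]
        have h4 : (fun g => lc ψ (π g)) = lc (ψ.comp π) := rfl
        rw [h4]
        have h5 : lc (ψ.comp π) - lc 1 - ∑ C ∈ S₀, (lc (ε C) - lc 1)
            = (lc (ψ.comp π) - lc (∏ C ∈ S₀, ε C))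
              + (lc (∏ C ∈ S₀, ε C) - lc 1 - ∑ C ∈ S₀, (lc (ε C) - lc 1)) := by abel
        rw [h5]
        exact add_mem h2 g3
    | zero =>
      refine ⟨0, fun _ => 0, by simp, fun x hx => by simp, fun C hC => rfl, ?_⟩
      have h2 : (fun g => (0 : G → ℂ) (π g)) - (0 : ℤ) • lc (1 : G' →* ℂˣ)
          - ∑ C, (0 : ℤ) • (lc (ε C) - lc 1) = 0 := by
        simp only [zero_smul, Finset.sum_const_zero, sub_zero]
        rfl
      rw [h2]
      exact zero_mem _
    | add a b _ _ ha hb =>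
      obtain ⟨n, u, h1, h2, h3, h4⟩ := ha
      obtain ⟨n', u', h1', h2', h3', h4'⟩ := hb
      refine ⟨n + n', fun C => u C + u' C, ?_, fun x hx => ?_, fun C hC => ?_, ?_⟩
      · rw [Pi.add_apply, h1, h1']; push_cast; ring
      · rw [Pi.add_apply, h2 x hx, h2' x hx]; push_cast; ring
      · change u C + u' C = 0
        rw [h3 C hC, h3' C hC, add_zero]
      · have h5 : (fun g => (a + b) (π g)) - (n + n') • lc 1
            - ∑ C, (u C + u' C) • (lc (ε C) - lc 1)
            = ((fun g => a (π g)) - n • lc 1 - ∑ C, u C • (lc (ε C) - lc 1))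
              + ((fun g => b (π g)) - n' • lc 1 - ∑ C, u' C • (lc (ε C) - lc (1 : G' →* ℂˣ))) := by
          have h6 : (fun g => (a + b) (π g)) = (fun g => a (π g)) + fun g => b (π g) := rfl
          rw [h6, add_smul]
          simp only [add_smul, Finset.sum_add_distrib]
          abel
        rw [h5]
        exact add_mem h4 h4'
    | neg a _ ha =>
      obtain ⟨n, u, h1, h2, h3, h4⟩ := ha
      refine ⟨-n, fun C => - u C, ?_, fun x hx => ?_, fun C hC => ?_, ?_⟩
      · rw [Pi.neg_apply, h1]; push_cast; ring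
      · rw [Pi.neg_apply, h2 x hx]; push_cast; ring
      · change - u C = 0
        rw [h3 C hC, neg_zero]
      · have h5 : (fun g => (-a) (π g)) - (-n) • lc 1 - ∑ C, (- u C) • (lc (ε C) - lc 1)
            = -((fun g => a (π g)) - n • lc 1 - ∑ C, u C • (lc (ε C) - lc (1 : G' →* ℂˣ))) := by
          have h6 : (fun g => (-a) (π g)) = - (fun g => a (π g)) := rfl
          rw [h6, neg_smul]
          simp only [neg_smul, Finset.sum_neg_distrib]
          abel
        rw [h5]
        exact neg_mem h4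
  obtain ⟨n, a, g1, g2, g3, g4⟩ := hexp
  have hn : n = 0 := by
    rw [h1] at g1
    exact_mod_cast g1.symm
  have ha : ∀ C, a C = 0 := by
    intro C
    by_cases hC : ∃ x ∈ X, ConjClasses.mk x = C
    · obtain ⟨x, hx, rfl⟩ := hC
      have h2 := g2 x hx
      rw [hX x hx, hn] at h2
      have h3 : ((2 * a (ConjClasses.mk x) : ℤ) : ℂ) = 0 := by
        push_cast at h2 ⊢
        rw [zero_sub] at h2
        exact neg_eq_zero.mp h2.symm
      have h4 : 2 * a (ConjClasses.mk x) = 0 := by exact_mod_cast h3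
      omega
    · exact g3 C hC
  refine c.desc f ?_ ?_
  · refine (AddSubgroup.closure_le (MS G)).mpr ?_ hf
    rintro F ⟨ψ, rfl⟩
    refine AddSubgroup.subset_closure ⟨⊤, ψ.comp (Subgroup.subtype ⊤), Sn.top, ?_⟩
    exact (ind_top (lc ψ) (fun g x => lc_conj _ g x)).symm
  · have h2 : (fun g => f (π g)) = (fun g => f (π g)) - n • lc 1
        - ∑ C, a C • (lc (ε C) - lc (1 : G' →* ℂˣ)) := by
      simp only [hn, ha, zero_smul, Finset.sum_const_zero, sub_zero]
    rw [h2]
    exact g4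

end lin

/-- chains of subgroups of index two -/
inductive Ch {G : Type} [Group G] : ℕ → Subgroup G → Prop
  | top : Ch 0 ⊤
  | step {r : ℕ} {A B : Subgroup G} (hB : Ch r B) (h : Two A B) : Ch (r + 1) A

lemma Ch.sn {G : Type} [Group G] [Finite G] {r : ℕ} {A : Subgroup G} (h : Ch r A) : Sn A := by
  induction h with
  | top => exact Sn.top
  | step hB h ih => exact Sn.step ih h.np

lemma Ch.comap {G G' : Type} [Group G] [Group G'] {r : ℕ} {A : Subgroup G} (h : Ch r A)
    {π : G' →* G} (hπ : Function.Surjective π) : Ch r (A.comap π) := by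
  induction h with
  | top => rw [Subgroup.comap_top]; exact Ch.top
  | step hB h ih => exact Ch.step ih (h.comap hπ)

/-- characters induced along chains of index two -/
def Mo {G : Type} [Group G] (r : ℕ) (F : G → ℂ) : Prop :=
  ∃ (A : Subgroup G) (ψ : A →* ℂˣ), Ch r A ∧ F = ind A (lc ψ)

lemma Mo.comp {G G' : Type} [Group G] [Finite G] [Group G'] [Finite G'] {r : ℕ} {F : G → ℂ}
    (h : Mo r F) {π : G' →* G} (hπ : Function.Surjective π) : Mo r (fun g => F (π g)) := by
  obtain ⟨A, ψ, hA, rfl⟩ := h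
  refine ⟨A.comap π, ψ.comp (π.subgroupComap A), hA.comap hπ, ?_⟩
  rw [ind_comap hπ]
  rfl

/-- combinations of such characters -/
def KK (G : Type) [Group G] (r : ℕ) : AddSubgroup (G → ℂ) :=
  AddSubgroup.closure {F | ∃ r' ≤ r, Mo r' F}

lemma KK_comp {G G' : Type} [Group G] [Finite G] [Group G'] [Finite G'] {r : ℕ} {f : G → ℂ}
    (h : f ∈ KK G r) {π : G' →* G} (hπ : Function.Surjective π) : (fun g => f (π g)) ∈ KK G' r := by
  induction h using AddSubgroup.closure_induction with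
  | mem F hF =>
    obtain ⟨r', hr', hF⟩ := hF
    exact AddSubgroup.subset_closure ⟨r', hr', hF.comp hπ⟩
  | zero => exact zero_mem _
  | add a b _ _ ha hb => exact add_mem ha hb
  | neg a _ ha => exact neg_mem ha

lemma KK_mono {G : Type} [Group G] {r r' : ℕ} (h : r ≤ r') : KK G r ≤ KK G r' := by
  apply AddSubgroup.closure_mono
  rintro F ⟨s, hs, hF⟩
  exact ⟨s, hs.trans h, hF⟩

lemma KK_ms {G : Type} [Group G] [Finite G] {r : ℕ} {f : G → ℂ} (h : f ∈ KK G r) :
    f ∈ MS G := by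
  refine (AddSubgroup.closure_le (MS G)).mpr ?_ h
  rintro F ⟨r', -, A, ψ, hA, rfl⟩
  exact AddSubgroup.subset_closure ⟨A, ψ, hA.sn, rfl⟩

lemma KK_zero {G : Type} [Group G] [Finite G] {f : G → ℂ} (h : f ∈ KK G 0) : f ∈ LL G := by
  refine (AddSubgroup.closure_le (LL G)).mpr ?_ h
  rintro F ⟨r', hr', A, ψ, hA, rfl⟩
  obtain rfl : r' = 0 := by omega
  cases hA
  let j : G →* (⊤ : Subgroup G) :=
    { toFun := fun g => ⟨g, Subgroup.mem_top _⟩
      map_one' := rfl
      map_mul' := fun a b => rfl }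
  refine AddSubgroup.subset_closure ⟨ψ.comp j, ?_⟩
  have h1 := ind_top (lc (ψ.comp j)) (fun g x => lc_conj _ g x)
  rw [← h1]
  rfl

section chain

variable {P : ∀ (G : Type) [Group G] [Finite G], Set G → AddSubgroup (G → ℂ) → Prop} (S : Tw P)

include S

/-- shortening the chains by one step -/
lemma Tw.shorten (r : ℕ) {G : Type} [Group G] [Finite G] {f : G → ℂ} (hf : f ∈ KK G (r + 1)) :
    ∀ {G₁ : Type} [Group G₁] [Finite G₁] {X₁ : Set G₁} {T₁ : AddSubgroup (G₁ → ℂ)}
      (_ : P G₁ X₁ T₁) {ρ : G₁ →* G} (_ : Function.Surjective ρ),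
      ∃ (G' : Type) (_ : Group G') (_ : Finite G') (X' : Set G') (T' : AddSubgroup (G' → ℂ))
        (π : G' →* G₁), Cov P X₁ T₁ X' T' π ∧ ∃ g ∈ KK G' r, (fun x => f (ρ (π x))) - g ∈ T' := by
  induction hf using AddSubgroup.closure_induction with
  | mem F hF =>
    intro G₁ _ _ X₁ T₁ hP₁ ρ hρ
    obtain ⟨r', hr', hF⟩ := hF
    rcases Nat.lt_or_ge r r' with h | h
    · obtain rfl : r' = r + 1 := by omega
      obtain ⟨A, ψ, hA, hFA⟩ := hF.comp hρ
      cases hA with
      | step hB h2 =>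
        rename_i B
        obtain ⟨G', i₁, i₂, X', T', π, c, l₁, l₂, hl⟩ := S.one_step hP₁ hB.sn h2 ψ
        refine ⟨G', i₁, i₂, X', T', π, c, ind (B.comap π) (lc l₁) + ind (B.comap π) (lc l₂),
          ?_, ?_⟩
        · exact add_mem (AddSubgroup.subset_closure ⟨r, le_rfl, _, l₁, hB.comap c.surj, rfl⟩)
            (AddSubgroup.subset_closure ⟨r, le_rfl, _, l₂, hB.comap c.surj, rfl⟩)
        · have h3 : (fun x => F (ρ (π x))) = fun g => ind A (lc ψ) (π g) := by
            funext x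
            exact congrFun hFA (π x)
          rw [h3]
          exact hl
    · refine ⟨G₁, _, _, X₁, T₁, MonoidHom.id G₁, Cov.refl hP₁, fun x => F (ρ x),
        AddSubgroup.subset_closure ⟨r', h, hF.comp hρ⟩, ?_⟩
      have h3 : (fun x => F (ρ ((MonoidHom.id G₁) x))) - (fun x => F (ρ x)) = 0 := by
        funext x
        simp
      rw [h3]
      exact zero_mem _
  | zero =>
    intro G₁ _ _ X₁ T₁ hP₁ ρ hρ
    refine ⟨G₁, _, _, X₁, T₁, MonoidHom.id G₁, Cov.refl hP₁, 0, zero_mem _, ?_⟩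
    rw [sub_zero]
    exact zero_mem _
  | add a b _ _ ha hb =>
    intro G₁ _ _ X₁ T₁ hP₁ ρ hρ
    obtain ⟨G₂, i₁, i₂, X₂, T₂, π₂, c₂, g₂, hg₂, h2⟩ := ha hP₁ hρ
    obtain ⟨G₃, i₃, i₄, X₃, T₃, π₃, c₃, g₃, hg₃, h3⟩ := hb c₂.mem (ρ := ρ.comp π₂)
      (hρ.comp c₂.surj)
    refine ⟨G₃, i₃, i₄, X₃, T₃, π₂.comp π₃, c₂.comp c₃, (fun x => g₂ (π₃ x)) + g₃,
      add_mem (KK_comp hg₂ c₃.surj) hg₃, ?_⟩
    have h4 := add_mem (c₃.up _ h2) h3
    have h5 : (fun x => (a + b) (ρ ((π₂.comp π₃) x))) - ((fun x => g₂ (π₃ x)) + g₃)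
        = (fun g => ((fun x => a (ρ (π₂ x))) - g₂) (π₃ g))
          + ((fun x => b ((ρ.comp π₂) (π₃ x))) - g₃) := by
      funext x
      simp only [Pi.add_apply, Pi.sub_apply, MonoidHom.comp_apply]
      ring
    rw [h5]
    exact h4
  | neg a _ ha =>
    intro G₁ _ _ X₁ T₁ hP₁ ρ hρ
    obtain ⟨G₂, i₁, i₂, X₂, T₂, π₂, c₂, g₂, hg₂, h2⟩ := ha hP₁ hρ
    refine ⟨G₂, i₁, i₂, X₂, T₂, π₂, c₂, -g₂, neg_mem hg₂, ?_⟩
    have h5 : (fun x => (-a) (ρ (π₂ x))) - (-g₂) = -((fun x => a (ρ (π₂ x))) - g₂) := by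
      funext x
      simp only [Pi.neg_apply, Pi.sub_apply]
      ring
    rw [h5]
    exact neg_mem h2

/-- reduction to linear characters -/
lemma Tw.reduceL : ∀ (r : ℕ) {G : Type} [Group G] [Finite G] {X : Set G} {T : AddSubgroup (G → ℂ)}
    (_ : P G X T) {f : G → ℂ} (_ : f ∈ KK G r),
      ∃ (G' : Type) (_ : Group G') (_ : Finite G') (X' : Set G') (T' : AddSubgroup (G' → ℂ))
        (π : G' →* G), Cov P X T X' T' π ∧ ∃ g ∈ LL G', (fun x => f (π x)) - g ∈ T' := by
  intro r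
  induction r with
  | zero =>
    intro G _ _ X T hP f hf
    refine ⟨G, _, _, X, T, MonoidHom.id G, Cov.refl hP, f, KK_zero hf, ?_⟩
    have h3 : (fun x => f ((MonoidHom.id G) x)) - f = 0 := by
      funext x
      simp
    rw [h3]
    exact zero_mem _
  | succ r ih =>
    intro G _ _ X T hP f hf
    obtain ⟨G₁, i₁, i₂, X₁, T₁, π₁, c₁, g₁, hg₁, h1⟩ := S.shorten r hf hP
      (ρ := MonoidHom.id G) Function.surjective_id
    obtain ⟨G₂, i₃, i₄, X₂, T₂, π₂, c₂, g₂, hg₂, h2⟩ := ih c₁.mem hg₁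
    refine ⟨G₂, i₃, i₄, X₂, T₂, π₁.comp π₂, c₁.comp c₂, g₂, hg₂, ?_⟩
    have h3 := add_mem (c₂.up _ h1) h2
    have h4 : (fun x => f ((π₁.comp π₂) x)) - g₂
        = (fun g => ((fun x => f ((MonoidHom.id G) (π₁ x))) - g₁) (π₂ g))
          + ((fun x => g₁ (π₂ x)) - g₂) := by
      funext x
      simp only [Pi.add_apply, Pi.sub_apply, MonoidHom.comp_apply, MonoidHom.id_apply]
      ring
    rw [h4]
    exact h3

/-- **Combinations of characters induced along chains of index two.** -/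
theorem Tw.chain {r : ℕ} {G : Type} [Group G] [Finite G] {X : Set G} {T : AddSubgroup (G → ℂ)}
    (hP : P G X T) {f : G → ℂ} (hf : f ∈ KK G r) (h1 : f 1 = 0) (hX : ∀ x ∈ X, f x = 0) :
    f ∈ T := by
  obtain ⟨G₁, i₁, i₂, X₁, T₁, π₁, c₁, g₁, hg₁, h2⟩ := S.reduceL r hP hf
  obtain ⟨h3, h4⟩ := S.van G₁ X₁ T₁ c₁.mem _ h2
  have h5 : g₁ ∈ T₁ := by
    refine S.lin c₁.mem hg₁ ?_ fun x hx => ?_
    · simp only [Pi.sub_apply, map_one, h1] at h3
      rw [zero_sub] at h3
      exact neg_eq_zero.mp h3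
    · have h6 := h4 x hx
      simp only [Pi.sub_apply, hX _ (c₁.maps x hx)] at h6
      rw [zero_sub] at h6
      exact neg_eq_zero.mp h6
  refine c₁.desc f (KK_ms hf) ?_
  have h6 := add_mem h2 h5
  rwa [sub_add_cancel] at h6

end chain

end Pool.Agent.Run7.h810.DL
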