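import Mathlib
import Pool.Agent.Run7.h810.DL.Lin
import Pool.Agent.R389.Theta
import Pool.Agent.R389.Brauer

/-!
# Nilpotent groups and the main theorem on virtual characters
-/

set_option autoImplicit false
set_option linter.unusedSectionVars false
set_option linter.unusedVariables false

namespace Pool.Agent.Run7.h810.DL

open Pool.Agent.R389 Pool.Agent.K4H74.ST Pool.Agent.W446.AS Pool.Agent.H302R2 Pool.Agent.H302R3
  Pool.Agent.H541R3.ART

/-- the group generated by the differences of monomial characters which agree on `X` -/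
def DJ {G : Type} [Group G] (X : Set G) : AddSubgroup (G → ℂ) :=
  AddSubgroup.closure {f | ∃ (H : Subgroup G) (ψ ψ' : H →* ℂˣ),
    (∀ x : H, (x : G) ∈ X → ψ x = ψ' x) ∧ f = ind H (lc ψ) - ind H (lc ψ')}

section dj

variable {G : Type} [Group G] [Finite G]

lemma DJ_ind {X : Set G} (H : Subgroup G) {f : H → ℂ} (hf : f ∈ DJ {x : H | (x : G) ∈ X}) :
    ind H f ∈ DJ X := by
  have h1 : DJ {x : H | (x : G) ∈ X} ≤ (DJ X).comap (indHom H) := by
    rw [DJ, AddSubgroup.closure_le]
    rintro f ⟨V, ψ, ψ', hV, rfl⟩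
    rw [SetLike.mem_coe, AddSubgroup.mem_comap, indHom_apply, ind_sub, ind_ind, ind_ind]
    refine AddSubgroup.subset_closure ⟨V.map H.subtype, ψ.comp
      (V.equivMapOfInjective H.subtype H.subtype_injective).symm.toMonoidHom, ψ'.comp
      (V.equivMapOfInjective H.subtype H.subtype_injective).symm.toMonoidHom, ?_, rfl⟩
    intro x hx
    refine hV _ ?_
    have h1 := (V.equivMapOfInjective H.subtype H.subtype_injective).apply_symm_apply x
    have h2 := congrArg (fun z : V.map H.subtype => (z : G)) h1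
    rw [Subgroup.coe_equivMapOfInjective_apply] at h2
    change ((((V.equivMapOfInjective H.subtype H.subtype_injective).symm x : V) : H) : G) ∈ X
    rw [show ((((V.equivMapOfInjective H.subtype H.subtype_injective).symm x : V) : H) : G) = x
      from h2]
    exact hx
  exact h1 hf

lemma DJ_tw {X : Set G} (lam : G →* ℂˣ) {f : G → ℂ} (hf : f ∈ DJ X) :
    (fun u => f u * lc lam u) ∈ DJ X := by
  have h1 : DJ X ≤ (DJ X).comap (twHom lam) := by
    rw [DJ, AddSubgroup.closure_le]
    rintro f ⟨V, ψ, ψ', hV, rfl⟩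
    rw [SetLike.mem_coe, AddSubgroup.mem_comap]
    refine AddSubgroup.subset_closure ⟨V, ψ * lam.comp V.subtype, ψ' * lam.comp V.subtype, ?_, ?_⟩
    · intro x hx
      rw [MonoidHom.mul_apply, MonoidHom.mul_apply, hV x hx]
    · funext g
      change (ind V (lc ψ) g - ind V (lc ψ') g) * lc lam g = _
      have h2 : ∀ θ : V →* ℂˣ, ind V (lc (θ * lam.comp V.subtype)) g = ind V (lc θ) g * lc lam g := by
        intro θ
        rw [← ind_mul V (lc θ) (F := lc lam) (lc_conj lam) g]
        rfl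
      rw [Pi.sub_apply, h2, h2, sub_mul]
  exact h1 hf

lemma DJ_mono {X X' : Set G} (h : X' ⊆ X) : DJ X ≤ DJ X' := by
  apply AddSubgroup.closure_mono
  rintro f ⟨H, ψ, ψ', h1, rfl⟩
  exact ⟨H, ψ, ψ', fun x hx => h1 x (h hx), rfl⟩

lemma DJ_top {X : Set G} {ψ ψ' : G →* ℂˣ} (h : ∀ x ∈ X, ψ x = ψ' x) : lc ψ - lc ψ' ∈ DJ X := by
  refine AddSubgroup.subset_closure ⟨⊤, ψ.comp (Subgroup.subtype ⊤), ψ'.comp (Subgroup.subtype ⊤),
    fun x hx => h x hx, ?_⟩
  have h1 := ind_top (lc ψ) (fun g x => lc_conj _ g x)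
  have h2 := ind_top (lc ψ') (fun g x => lc_conj _ g x)
  nth_rewrite 1 [← h1, ← h2]
  rfl

/-- irreducible characters of commutative groups -/
lemma irr_comm (hc : ∀ a b : G, a * b = b * a) {χ : G → ℂ} (hχ : χ ∈ Irr G) :
    ∃ ψ : G →* ℂˣ, χ = lc ψ := by
  have h5 : χ 1 = 1 := by
    obtain ⟨n, ρ, hρ, rfl⟩ := exists_rep hχ
    obtain ⟨μ, v₀, hv₀, hμ⟩ := exists_weight hc ρ hρ.1
    have h1 : Submodule.span ℂ {v₀} = ⊤ := by
      rcases hρ.2 (Submodule.span ℂ {v₀}) (by
        intro g v hv
        obtain ⟨a, rfl⟩ := Submodule.mem_span_singleton.mp hv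
        rw [map_smul, hμ]
        exact Submodule.smul_mem _ _ (Submodule.smul_mem _ _ (Submodule.mem_span_singleton_self _)))
        with h | h
      · exact absurd (Submodule.span_singleton_eq_bot.mp h) hv₀
      · exact h
    have h3 : (Module.finrank ℂ (Fin n → ℂ) : ℂ) = 1 := by
      have h4 := finrank_top ℂ (Fin n → ℂ)
      rw [← h1, finrank_span_singleton hv₀] at h4
      rw [← h4]; simp
    rw [ρ.char_one]
    exact h3
  obtain ⟨lam, hlam⟩ := irr_deg_one hχ h5
  exact ⟨lam, funext hlam⟩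

/-- inflation of virtual characters of a commutative quotient -/
lemma DJ_comm {Q : Type} [Group Q] [Finite Q] (hc : ∀ a b : Q, a * b = b * a) (q : G →* Q)
    {X : Set G} (hX : ∀ x ∈ X, q x = 1) {f : Q → ℂ} (hf : Virt f) :
    ∃ n : ℤ, (fun g => f (q g)) - n • lc 1 ∈ DJ X := by
  induction hf using AddSubgroup.closure_induction with
  | mem χ hχ =>
    obtain ⟨ψ, rfl⟩ := irr_comm hc hχ
    refine ⟨1, ?_⟩
    rw [one_smul]
    have h1 : (fun g => lc ψ (q g)) = lc (ψ.comp q) := rfl
    rw [h1]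
    refine DJ_top fun x hx => ?_
    rw [MonoidHom.comp_apply, hX x hx, map_one]
    rfl
  | zero =>
    refine ⟨0, ?_⟩
    rw [zero_smul, sub_zero]
    exact zero_mem _
  | add a b _ _ ha hb =>
    obtain ⟨n, hn⟩ := ha
    obtain ⟨n', hn'⟩ := hb
    refine ⟨n + n', ?_⟩
    have h1 : (fun g => (a + b) (q g)) - (n + n') • lc 1
        = ((fun g => a (q g)) - n • lc 1) + ((fun g => b (q g)) - n' • lc 1) := by
      have h2 : (fun g => (a + b) (q g)) = (fun g => a (q g)) + fun g => b (q g) := rfl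
      rw [h2, add_smul]
      abel
    rw [h1]
    exact add_mem hn hn'
  | neg a _ ha =>
    obtain ⟨n, hn⟩ := ha
    refine ⟨-n, ?_⟩
    have h1 : (fun g => (-a) (q g)) - (-n) • lc 1 = -((fun g => a (q g)) - n • lc 1) := by
      have h2 : (fun g => (-a) (q g)) = - fun g => a (q g) := rfl
      rw [h2, neg_smul]
      abel
    rw [h1]
    exact neg_mem hn

end dj

/-- maximal subgroups of nilpotent groups: generation by one element -/
lemma coatom_gen {W : Type} [Group W] [Finite W] [Group.IsNilpotent W] {M : Subgroup W}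
    (hM : IsCoatom M) {d : W} (hd : d ∉ M) : M.Normal ∧ ∀ b : W, ∃ m ∈ M, ∃ i : ℤ, b = m * d ^ i := by
  have h00 : Group.IsNilpotent W ↔ ∀ H : Subgroup W, IsCoatom H → H.Normal :=
    (Group.isNilpotent_of_finite_tfae (G := W)).out 0 2
  have h0 := h00.mp inferInstance
  have hN : M.Normal := h0 M hM
  refine ⟨hN, fun b => ?_⟩
  have h1 : M ⊔ Subgroup.zpowers d = ⊤ := by
    apply hM.2
    refine lt_of_le_of_ne le_sup_left fun h => hd ?_
    rw [h]
    exact (le_sup_right : Subgroup.zpowers d ≤ _) (Subgroup.mem_zpowers d)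
  have h2 : b ∈ M ⊔ Subgroup.zpowers d := by rw [h1]; exact Subgroup.mem_top _
  rw [Subgroup.mem_sup_of_normal_left] at h2
  obtain ⟨y, hy, z, hz, rfl⟩ := h2
  obtain ⟨i, rfl⟩ := Subgroup.mem_zpowers_iff.mp hz
  exact ⟨y, hy, i, rfl⟩

/-- the index of a maximal subgroup of a nilpotent group -/
lemma coatom_index {W : Type} [Group W] [Finite W] [Group.IsNilpotent W] {M : Subgroup W}
    (hM : IsCoatom M) : M.index.Prime := by
  have h00 : Group.IsNilpotent W ↔ ∀ H : Subgroup W, IsCoatom H → H.Normal :=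
    (Group.isNilpotent_of_finite_tfae (G := W)).out 0 2
  have hN : M.Normal := h00.mp inferInstance M hM
  have h1 : M.index ≠ 1 := fun h => hM.1 (Subgroup.index_eq_one.mp h)
  obtain ⟨q, hq, hqd⟩ := Nat.exists_prime_and_dvd h1
  have : Fact q.Prime := ⟨hq⟩
  rw [Subgroup.index_eq_card] at hqd
  obtain ⟨x, hx⟩ := exists_prime_orderOf_dvd_card' (G := W ⧸ M) q hqd
  obtain ⟨d, rfl⟩ := QuotientGroup.mk_surjective x
  have hd : d ∉ M := by
    intro h
    rw [(QuotientGroup.eq_one_iff d).mpr h, orderOf_one] at hx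
    exact hq.one_lt.ne hx
  obtain ⟨-, hgen⟩ := coatom_gen hM hd
  have h2 : orderOf (QuotientGroup.mk d : W ⧸ M) = Nat.card (W ⧸ M) := by
    refine orderOf_eq_card_of_forall_mem_zpowers fun a => ?_
    obtain ⟨a, rfl⟩ := QuotientGroup.mk_surjective a
    obtain ⟨m, hm, i, rfl⟩ := hgen a
    rw [QuotientGroup.mk_mul, (QuotientGroup.eq_one_iff m).mpr hm, one_mul, QuotientGroup.mk_zpow]
    exact Subgroup.mem_zpowers_iff.mpr ⟨i, rfl⟩
  rw [Subgroup.index_eq_card, ← h2, hx]
  exact hq

/-- all subgroups of nilpotent groups are subnormal -/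
lemma allSn_aux {G : Type} [Group G] [Finite G] [Group.IsNilpotent G] (A : Subgroup G) :
    ∀ (n : ℕ) (B : Subgroup G), Nat.card B = n → A ≤ B → Sn B → Sn A := by
  intro n
  induction n using Nat.strong_induction_on with
  | _ n ih =>
  intro B hn hAB hB
  rcases eq_top_or_exists_le_coatom (A.subgroupOf B) with h | ⟨M, hM, hAM⟩
  · have h1 : B ≤ A := Subgroup.subgroupOf_eq_top.mp h
    rw [le_antisymm hAB h1]
    exact hB
  · have hMt : M ≠ ⊤ := hM.1
    have hMN : M.Normal := by
      have h00 : Group.IsNilpotent B ↔ ∀ H : Subgroup B, IsCoatom H → H.Normal :=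
        (Group.isNilpotent_of_finite_tfae (G := B)).out 0 2
      exact h00.mp inferInstance M hM
    have hle : M.map B.subtype ≤ B := by
      rintro y ⟨b, -, rfl⟩
      exact b.2
    have hsub : (M.map B.subtype).subgroupOf B = M :=
      Subgroup.comap_map_eq_self_of_injective B.subtype_injective M
    have hnp : NP (M.map B.subtype) B := by
      refine ⟨hle, ?_, ?_⟩
      · rintro _ ⟨a, ha, rfl⟩ b hb
        refine ⟨(⟨b, hb⟩ : B)⁻¹ * a * ⟨b, hb⟩, ?_, rfl⟩
        have h1 := hMN.conj_mem a ha (⟨b, hb⟩ : B)⁻¹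
        rwa [inv_inv] at h1
      · change ((M.map B.subtype).subgroupOf B).index.Prime
        rw [hsub]
        exact coatom_index hM
    have hcard : Nat.card (M.map B.subtype) < n := by
      have h1 : Nat.card (M.map B.subtype) = Nat.card M :=
        (Nat.card_congr (M.equivMapOfInjective B.subtype B.subtype_injective).toEquiv).symm
      rw [h1, ← hn]
      refine lt_of_le_of_ne M.card_le_card_group fun h => hMt (Subgroup.eq_top_of_card_eq M h)
    refine ih _ hcard (M.map B.subtype) rfl ?_ (Sn.step hB hnp)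
    intro a ha
    exact ⟨⟨a, hAB ha⟩, hAM (Subgroup.mem_subgroupOf.mpr ha), rfl⟩

lemma allSn {G : Type} [Group G] [Finite G] [Group.IsNilpotent G] (A : Subgroup G) : Sn A :=
  allSn_aux A _ ⊤ rfl le_top Sn.top

/-- permutation characters of nilpotent groups -/
lemma DJ_perm : ∀ (n : ℕ) (W : Type) [Group W] [Finite W] [Group.IsNilpotent W],
    Nat.card W = n → ∀ (V : Subgroup W) (X : Set W), (∀ x ∈ X, x ∈ V) →
      ∃ k : ℤ, ind V (lc 1) - k • lc 1 ∈ DJ X := by
  intro n
  induction n using Nat.strong_induction_on with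
  | _ n ih =>
  intro W _ _ _ hn V X hX
  rcases eq_top_or_exists_le_coatom V with rfl | ⟨M, hM, hVM⟩
  · refine ⟨1, ?_⟩
    have h1 := ind_top (lc (1 : W →* ℂˣ)) (fun g x => lc_conj _ g x)
    have h2 : ind (⊤ : Subgroup W) (lc 1) = lc (1 : W →* ℂˣ) := by
      rw [← h1]; rfl
    rw [h2, one_smul, sub_self]
    exact zero_mem _
  · have hMt : M ≠ ⊤ := hM.1
    obtain ⟨d, hd⟩ : ∃ d, d ∉ M := by
      by_contra h
      push Not at h
      exact hMt ((Subgroup.eq_top_iff' M).mpr h)
    obtain ⟨hN, hgen⟩ := coatom_gen hM hd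
    have hcard : Nat.card M < n := by
      rw [← hn]
      have h1 := M.card_le_card_group
      refine lt_of_le_of_ne h1 fun h => hMt (Subgroup.eq_top_of_card_eq M h)
    obtain ⟨k, hk⟩ := ih _ hcard M rfl (V.subgroupOf M) {x : M | (x : W) ∈ X}
      (fun x hx => Subgroup.mem_subgroupOf.mpr (hX x hx))
    have h1 := DJ_ind M hk
    rw [ind_sub] at h1
    have h2 : ind M (ind (V.subgroupOf M) (lc (1 : (V.subgroupOf M) →* ℂˣ)))
        = ind V (lc (1 : V →* ℂˣ)) :=
      ind_tower (V.subgroupOf M) (fun b => Subgroup.mem_subgroupOf) hVM (lc (1 : V →* ℂˣ))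
    have h3 : ind M (k • lc (1 : M →* ℂˣ)) = k • ind M (lc (1 : M →* ℂˣ)) := by
      rw [← indHom_apply, map_zsmul, indHom_apply]
    rw [h2, h3] at h1
    -- the quotient by `M`
    have hc : ∀ a b : W ⧸ M, a * b = b * a := by
      have hp : ∀ a : W ⧸ M, ∃ i : ℤ, a = (QuotientGroup.mk d : W ⧸ M) ^ i := by
        intro a
        obtain ⟨a, rfl⟩ := QuotientGroup.mk_surjective a
        obtain ⟨m, hm, i, rfl⟩ := hgen a
        refine ⟨i, ?_⟩
        rw [QuotientGroup.mk_mul, (QuotientGroup.eq_one_iff m).mpr hm, one_mul,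
          QuotientGroup.mk_zpow]
      intro a b
      obtain ⟨i, rfl⟩ := hp a
      obtain ⟨j, rfl⟩ := hp b
      rw [← zpow_add, ← zpow_add, add_comm]
    have hv : Virt (ind (⊥ : Subgroup (W ⧸ M)) (lc 1)) := virt_ind _ (lc_virt _)
    obtain ⟨k', hk'⟩ := DJ_comm hc (QuotientGroup.mk' M) (X := X) (fun x hx =>
      (QuotientGroup.eq_one_iff x).mpr (hVM (hX x hx))) hv
    have h4 : (fun g => ind (⊥ : Subgroup (W ⧸ M)) (lc 1) (QuotientGroup.mk' M g))
        = ind M (lc (1 : M →* ℂˣ)) := by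
      rw [ind_comap (QuotientGroup.mk'_surjective M)]
      refine ind_congr ?_ fun y hy hy' => rfl
      rw [MonoidHom.comap_bot, QuotientGroup.ker_mk']
    rw [h4] at hk'
    refine ⟨k * k', ?_⟩
    have h5 : ind V (lc (1 : V →* ℂˣ)) - (k * k') • lc 1
        = (ind V (lc (1 : V →* ℂˣ)) - k • ind M (lc (1 : M →* ℂˣ)))
          + k • (ind M (lc (1 : M →* ℂˣ)) - k' • lc 1) := by
      rw [smul_sub, smul_smul]
      abel
    rw [h5]
    exact add_mem h1 (zsmul_mem hk' k)

/-- the projection to the `2`-part -/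
lemma exists_proj {G : Type} [Group G] [Finite G] [Group.IsNilpotent G] :
    ∃ E : G →* G, (∀ x, x * x = 1 → E x = x) ∧ (∀ x, E (E x) = E x) ∧
      (∀ x, ∃ j : ℕ, E x ^ (2 ^ j) = 1) ∧ ∀ (U : Subgroup G), ∀ x ∈ U, E x ∈ U := by
  classical
  obtain ⟨φ⟩ := (Group.isNilpotent_of_finite_tfae (G := G)).out 0 4 |>.mp ‹_›
  have hn : Nat.card G ≠ 0 := Nat.card_pos.ne'
  obtain ⟨a, m, hm, ham⟩ := Nat.exists_eq_two_pow_mul_odd hn
  have hcop : Nat.Coprime (2 ^ a) m := Nat.Coprime.pow_left a (Nat.coprime_two_left.mpr hm)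
  obtain ⟨k, hk1, hk2⟩ := Nat.chineseRemainder hcop 1 0
  have hpow : ∀ z : G, z ^ (2 ^ a) = 1 → z ^ k = z := by
    intro z hz
    have h1 : z ^ k = z ^ 1 := by
      rw [pow_eq_pow_iff_modEq]
      exact hk1.of_dvd (orderOf_dvd_of_pow_eq_one hz)
    rw [h1, pow_one]
  have hmk : m ∣ k := (Nat.modEq_zero_iff_dvd).mp hk2
  have hone : ∀ z : G, z ^ m = 1 → z ^ k = 1 := by
    intro z hz
    obtain ⟨c, rfl⟩ := hmk
    rw [pow_mul, hz, one_pow]
  have hmul : ∀ x y : G, (x * y) ^ k = x ^ k * y ^ k := by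
    intro x y
    obtain ⟨x, rfl⟩ := φ.surjective x
    obtain ⟨y, rfl⟩ := φ.surjective y
    rw [← map_mul, ← map_pow, ← map_pow, ← map_pow, ← map_mul]
    congr 1
    funext p P
    have hpp : Fact (p : ℕ).Prime := ⟨Nat.prime_of_mem_primeFactors p.2⟩
    rw [Pi.pow_apply, Pi.pow_apply, Pi.mul_apply, Pi.mul_apply, Pi.mul_apply, Pi.mul_apply,
      Pi.pow_apply, Pi.pow_apply, Pi.pow_apply, Pi.pow_apply]
    by_cases hp2 : (p : ℕ) = 2
    · have h1 : ∀ z : (↑P : Subgroup G), z ^ k = z := by
        intro z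
        apply Subtype.ext
        rw [Subgroup.coe_pow]
        apply hpow
        have h2 : Nat.card (↑P : Subgroup G) ∣ 2 ^ a := by
          rw [P.card_eq_multiplicity, hp2, ham]
          rw [Nat.factorization_mul (by positivity) hm.pos.ne', Nat.Prime.factorization_pow
            Nat.prime_two]
          simp only [Finsupp.add_apply, Finsupp.single_eq_same]
          rw [Nat.factorization_eq_zero_of_not_dvd (by
            intro h; exact (Nat.not_even_iff_odd.mpr hm) (even_iff_two_dvd.mpr h)), add_zero]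
        obtain ⟨c, hc⟩ := h2
        rw [hc, pow_mul]
        have h3 : z ^ Nat.card (↑P : Subgroup G) = 1 := pow_card_eq_one'
        have h4 := congrArg (fun w : (↑P : Subgroup G) => (w : G)) h3
        simp only [Subgroup.coe_pow, Subgroup.coe_one] at h4
        rw [h4, one_pow]
      rw [h1, h1, h1]
    · have h1 : ∀ z : (↑P : Subgroup G), z ^ k = 1 := by
        intro z
        apply Subtype.ext
        rw [Subgroup.coe_pow, Subgroup.coe_one]
        apply hone
        have h2 : Nat.card (↑P : Subgroup G) ∣ m := by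
          have h3 : Nat.card (↑P : Subgroup G) ∣ 2 ^ a * m := by
            rw [← ham]; exact Subgroup.card_subgroup_dvd_card _
          refine Nat.Coprime.dvd_of_dvd_mul_left ?_ h3
          rw [P.card_eq_multiplicity]
          exact Nat.Coprime.pow _ _ ((Nat.coprime_primes hpp.out Nat.prime_two).mpr hp2)
        obtain ⟨c, hc⟩ := h2
        rw [hc, pow_mul]
        have h3 : z ^ Nat.card (↑P : Subgroup G) = 1 := pow_card_eq_one'
        have h4 := congrArg (fun w : (↑P : Subgroup G) => (w : G)) h3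
        simp only [Subgroup.coe_pow, Subgroup.coe_one] at h4
        rw [h4, one_pow]
      rw [h1, h1, h1, mul_one]
  have hka : ∀ z : G, (z ^ k) ^ (2 ^ a) = 1 := by
    intro z
    obtain ⟨c, hc⟩ := hmk
    rw [← pow_mul, hc]
    have h3 : z ^ Nat.card G = 1 := pow_card_eq_one'
    have h4 : m * c * 2 ^ a = Nat.card G * c := by rw [ham]; ring
    rw [h4, pow_mul, h3, one_pow]
  refine ⟨MonoidHom.mk' (fun z => z ^ k) hmul, ?_, ?_, ?_, ?_⟩
  · intro x hx
    change x ^ k = x
    apply hpow
    rcases Nat.eq_zero_or_pos a with rfl | ha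
    · -- odd order
      rw [pow_zero, one_mul] at ham
      rw [pow_zero, pow_one]
      have h1 : x ^ Nat.card G = 1 := pow_card_eq_one'
      rw [ham] at h1
      obtain ⟨c, hc⟩ := hm
      rw [hc, pow_succ, pow_mul, pow_two, hx, one_pow, one_mul] at h1
      exact h1
    · obtain ⟨b, rfl⟩ := Nat.exists_eq_add_of_lt ha
      rw [zero_add, pow_succ, mul_comm, pow_mul, pow_two, hx, one_pow]
  · intro x
    change (x ^ k) ^ k = x ^ k
    exact hpow _ (hka x)
  · intro x
    exact ⟨a, hka x⟩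
  · intro U x hx
    exact U.pow_mem hx k

section nil

variable {G : Type} [Group G] [Finite G]

/-- the chain from the top to a subgroup containing the elements of odd order -/
lemma exists_chain [Group.IsNilpotent G] {E : G →* G} (hE2 : ∀ x, E (E x) = E x)
    (hE3 : ∀ x, ∃ j : ℕ, E x ^ (2 ^ j) = 1) (hE4 : ∀ (U : Subgroup G), ∀ x ∈ U, E x ∈ U)
    {W : Subgroup G} (hW : ∀ x, E x = 1 → x ∈ W) :
    ∀ (n : ℕ) (B : Subgroup G), Nat.card B = n → W ≤ B → ∀ r, Ch r B → ∃ r', Ch r' W := by
  classical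
  intro n
  induction n using Nat.strong_induction_on with
  | _ n ih =>
  intro B hn hWB r hr
  rcases eq_top_or_exists_le_coatom (W.subgroupOf B) with h | ⟨M, hM, hWM⟩
  · have h1 : B ≤ W := Subgroup.subgroupOf_eq_top.mp h
    have h2 : B = W := le_antisymm h1 hWB
    exact ⟨r, h2 ▸ hr⟩
  · have hMt : M ≠ ⊤ := hM.1
    have hWM' : ∀ b : B, (b : G) ∈ W → b ∈ M := fun b hb => hWM (Subgroup.mem_subgroupOf.mpr hb)
    obtain ⟨b₀, hb₀⟩ : ∃ d, d ∉ M := by
      by_contra h
      push Not at h
      exact hMt ((Subgroup.eq_top_iff' M).mpr h)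
    let c : B := ⟨E b₀, hE4 B _ b₀.2⟩
    have hc : c ∉ M := by
      intro hc
      apply hb₀
      have h1 : c⁻¹ * b₀ ∈ M := by
        apply hWM'
        apply hW
        change E ((E b₀)⁻¹ * b₀) = 1
        rw [map_mul, map_inv, hE2, inv_mul_cancel]
      have h2 := M.mul_mem hc h1
      rwa [mul_inv_cancel_left] at h2
    have hex : ∃ j : ℕ, c ^ (2 ^ j) ∈ M := by
      obtain ⟨j, hj⟩ := hE3 (b₀ : G)
      refine ⟨j, ?_⟩
      have h1 : c ^ (2 ^ j) = 1 := Subtype.ext (by rw [Subgroup.coe_pow]; exact hj)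
      rw [h1]
      exact one_mem _
    set j := Nat.find hex with hj
    have hj1 : c ^ (2 ^ j) ∈ M := Nat.find_spec hex
    have hj0 : j ≠ 0 := by
      intro h
      rw [h, pow_zero, pow_one] at hj1
      exact hc hj1
    obtain ⟨i, hi⟩ := Nat.exists_eq_succ_of_ne_zero hj0
    set d := c ^ (2 ^ i) with hd
    have hdM : d ∉ M := Nat.find_min hex (by omega)
    have hd2 : d * d ∈ M := by
      have h1 : d * d = c ^ (2 ^ j) := by
        rw [hd, ← pow_add, hi, Nat.succ_eq_add_one, pow_succ, mul_two]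
      rw [h1]; exact hj1
    obtain ⟨hN, hgen⟩ := coatom_gen hM hdM
    have hidx : M.index = 2 := by
      rw [Subgroup.index_eq_two_iff]
      refine ⟨d, fun b => ?_⟩
      obtain ⟨m, hm, e, rfl⟩ := hgen b
      have hde : ∀ e : ℤ, d ^ (e + e) ∈ M := by
        intro e
        have h1 : d ^ (e + e) = (d * d) ^ e := by
          rw [← two_mul, zpow_mul]
          congr 1
          rw [← pow_two]
          exact zpow_natCast d 2
        rw [h1]
        exact M.zpow_mem hd2 e
      rcases Int.even_or_odd' e with ⟨e', rfl | rfl⟩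
      · right
        have h1 : m * d ^ (2 * e') ∈ M := M.mul_mem hm (by rw [two_mul]; exact hde e')
        refine ⟨h1, fun h2 => hdM ?_⟩
        exact (M.mul_mem_cancel_left h1).mp h2
      · left
        have h1 : m * d ^ (2 * e' + 1) * d ∈ M := by
          rw [mul_assoc, ← zpow_add_one]
          refine M.mul_mem hm ?_
          have h2 : 2 * e' + 1 + 1 = (e' + 1) + (e' + 1) := by ring
          rw [h2]
          exact hde _
        refine ⟨h1, fun h2 => hdM ?_⟩
        exact (M.mul_mem_cancel_left h2).mp h1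
    -- the sign character
    let s : B →* ℂˣ := MonoidHom.mk' (fun b => if b ∈ M then 1 else -1) (by
      intro a b
      have h1 := Subgroup.mul_mem_iff_of_index_two hidx (a := a) (b := b)
      by_cases ha : a ∈ M <;> by_cases hb : b ∈ M <;> simp [h1, ha, hb])
    have hs1 : ∀ b : B, b ∈ M → s b = 1 := fun b hb => if_pos hb
    have hs2 : ∀ b : B, b ∉ M → s b = -1 := fun b hb => if_neg hb
    have hsg : Sg s := by
      intro b
      by_cases hb : b ∈ M
      · exact Or.inl (hs1 b hb)
      · exact Or.inr (hs2 b hb)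
    have htwo : Two (M.map B.subtype) B := by
      refine ⟨?_, s, hsg, ⟨d, hs2 d hdM⟩, fun b => ?_⟩
      · rintro y ⟨b, -, rfl⟩
        exact b.2
      · constructor
        · intro h1
          refine ⟨b, ?_, rfl⟩
          by_contra hb
          rw [hs2 b hb] at h1
          exact neg_one_ne h1
        · rintro ⟨b', hb', h1⟩
          have h2 : b' = b := Subtype.ext h1
          exact hs1 b (h2 ▸ hb')
    have hcard : Nat.card (M.map B.subtype) < n := by
      have h1 : Nat.card (M.map B.subtype) = Nat.card M :=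
        (Nat.card_congr (M.equivMapOfInjective B.subtype B.subtype_injective).toEquiv).symm
      rw [h1, ← hn]
      refine lt_of_le_of_ne M.card_le_card_group fun h => hMt (Subgroup.eq_top_of_card_eq M h)
    refine ih _ hcard (M.map B.subtype) rfl ?_ (r + 1) (Ch.step hr htwo)
    intro w hw
    exact ⟨⟨w, hWB hw⟩, hWM' _ hw, rfl⟩

end nil

section main

variable {P : ∀ (G : Type) [Group G] [Finite G], Set G → AddSubgroup (G → ℂ) → Prop} (S : Tw P)

include S

lemma Tw.dj {G : Type} [Group G] [Finite G] [Group.IsNilpotent G] {X : Set G}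
    {T : AddSubgroup (G → ℂ)} (hP : P G X T) : DJ X ≤ T := by
  rw [DJ, AddSubgroup.closure_le]
  rintro f ⟨H, ψ, ψ', h, rfl⟩
  exact S.ind_sig hP (allSn H) ψ ψ' h

/-- **Nilpotent groups: reduction to chains of index two.** -/
theorem Tw.red {G : Type} [Group G] [Finite G] [Group.IsNilpotent G] {X : Set G}
    {T : AddSubgroup (G → ℂ)} (hP : P G X T) {f : G → ℂ} (hf : Virt f) :
    ∃ (r : ℕ) (g : G → ℂ), g ∈ KK G r ∧ f - g ∈ T := by
  classical
  obtain ⟨E, hE1, hE2, hE3, hE4⟩ := exists_proj (G := G)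
  have key : ∀ f ∈ MonG G, ∃ (r : ℕ) (g : G → ℂ), g ∈ KK G r ∧ f - g ∈ T := by
    intro f hf
    induction hf using AddSubgroup.closure_induction with
    | mem F hF =>
      obtain ⟨U, ψ, -, rfl⟩ := hF
      let W : Subgroup G := U.comap E
      have hUW : U ≤ W := fun x hx => hE4 U x hx
      let j : W →* U :=
        { toFun := fun b => ⟨E b, b.2⟩
          map_one' := Subtype.ext (map_one E)
          map_mul' := fun a b => Subtype.ext (map_mul E _ _) }
      let ψ' : W →* ℂˣ := ψ.comp j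
      obtain ⟨r, hr⟩ := exists_chain hE2 hE3 hE4 (W := W) (fun x hx => by
        change E x ∈ U
        rw [hx]; exact one_mem _) _ ⊤ rfl le_top 0 Ch.top
      have hXU : ∀ x ∈ X, x ∈ W → x ∈ U := by
        intro x hx hxW
        have h2 := hE1 x (S.inv G X T hP x hx)
        change E x ∈ U at hxW
        rwa [h2] at hxW
      obtain ⟨k, hk⟩ := DJ_perm _ W rfl (U.subgroupOf W) {x : W | (x : G) ∈ X}
        (fun x hx => Subgroup.mem_subgroupOf.mpr (hXU x hx x.2))
      have hK : ind W (lc ψ') ∈ KK G r :=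
        AddSubgroup.subset_closure ⟨r, le_rfl, W, ψ', hr, rfl⟩
      refine ⟨r, k • ind W (lc ψ'), zsmul_mem hK k, S.dj hP ?_⟩
      -- first the `2`-part
      have h2 : ind U (lc ψ) - ind U (lc (ψ'.comp (Subgroup.inclusion hUW))) ∈ DJ X := by
        refine AddSubgroup.subset_closure ⟨U, ψ, ψ'.comp (Subgroup.inclusion hUW),
          fun x hx => ?_, rfl⟩
        change ψ x = ψ (j (Subgroup.inclusion hUW x))
        congr 1
        exact Subtype.ext (hE1 x (S.inv G X T hP x hx)).symm
      have h3 := DJ_ind W (DJ_tw ψ' hk)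
      have h4 : ind W (fun u => (ind (U.subgroupOf W) (lc (1 : (U.subgroupOf W) →* ℂˣ))
            - k • lc (1 : W →* ℂˣ) : W → ℂ) u * lc ψ' u)
          = ind U (lc (ψ'.comp (Subgroup.inclusion hUW))) - k • ind W (lc ψ') := by
        have h5 : (fun u => (ind (U.subgroupOf W) (lc (1 : (U.subgroupOf W) →* ℂˣ))
            - k • lc (1 : W →* ℂˣ) : W → ℂ) u * lc ψ' u)
            = ind (U.subgroupOf W) (fun b : U.subgroupOf W =>
                lc (ψ'.comp (Subgroup.inclusion hUW))
                ⟨((b : W) : G), Subgroup.mem_subgroupOf.mp b.2⟩) - k • lc ψ' := by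
          funext u
          rw [Pi.sub_apply, Pi.sub_apply, Pi.smul_apply, Pi.smul_apply, sub_mul,
            ← ind_mul (U.subgroupOf W) (lc 1) (F := lc ψ') (lc_conj ψ') u]
          congr 1
          · congr 1
            funext b
            simp only [lc, MonoidHom.one_apply, Units.val_one, one_mul]
            rfl
          · simp only [lc, MonoidHom.one_apply, Units.val_one, zsmul_eq_mul, mul_one]
        rw [h5, ind_sub]
        congr 1
        · exact ind_tower (U.subgroupOf W) (fun b => Subgroup.mem_subgroupOf) hUW _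
        · rw [← indHom_apply, map_zsmul, indHom_apply]
      rw [h4] at h3
      have h6 := add_mem h2 h3
      rwa [sub_add_sub_cancel] at h6
    | zero => exact ⟨0, 0, zero_mem _, by rw [sub_zero]; exact zero_mem _⟩
    | add a b _ _ ha hb =>
      obtain ⟨r, g, hg, h2⟩ := ha
      obtain ⟨r', g', hg', h2'⟩ := hb
      refine ⟨max r r', g + g', add_mem (KK_mono (le_max_left _ _) hg)
        (KK_mono (le_max_right _ _) hg'), ?_⟩
      rw [add_sub_add_comm]
      exact add_mem h2 h2'
    | neg a _ ha =>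
      obtain ⟨r, g, hg, h2⟩ := ha
      refine ⟨r, -g, neg_mem hg, ?_⟩
      rw [← neg_sub']
      exact neg_mem h2
  exact key f (virt_mem_mon hf)

/-- **Nilpotent groups.** -/
theorem Tw.nil {G : Type} [Group G] [Finite G] [Group.IsNilpotent G] {X : Set G}
    {T : AddSubgroup (G → ℂ)} (hP : P G X T) {G' : Type} [Group G'] [Finite G'] {X' : Set G'}
    {T' : AddSubgroup (G' → ℂ)} {π : G' →* G} (c : Cov P X T X' T' π) {f : G → ℂ} (hf : Virt f)
    {k : G' → ℂ} (hk : k ∈ LL G') (h1 : f 1 = k 1) (hX : ∀ x ∈ X', f (π x) = k x) :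
    (fun g => f (π g)) - k ∈ T' := by
  obtain ⟨r, g, hg, h2⟩ := S.red hP hf
  have h3 := c.up _ h2
  obtain ⟨h4, h5⟩ := S.van G' X' T' c.mem _ h3
  have hk' : k ∈ KK G' r := by
    refine (AddSubgroup.closure_le (KK G' r)).mpr ?_ hk
    rintro F ⟨ψ, rfl⟩
    refine AddSubgroup.subset_closure ⟨0, Nat.zero_le _, ⊤, ψ.comp (Subgroup.subtype ⊤), Ch.top, ?_⟩
    exact (ind_top (lc ψ) (fun g x => lc_conj _ g x)).symm
  have h6 : (fun x => g (π x)) - k ∈ T' := by
    refine S.chain c.mem (r := r) (sub_mem (KK_comp hg c.surj) hk') ?_ fun x hx => ?_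
    · change (f - g) (π 1) = 0 at h4
      rw [map_one, Pi.sub_apply, h1] at h4
      change g (π 1) - k 1 = 0
      rw [map_one, ← sub_eq_zero.mp h4, sub_self]
    · have h7 := h5 x hx
      change f (π x) - g (π x) = 0 at h7
      change g (π x) - k x = 0
      rw [← hX x hx, ← sub_eq_zero.mp h7, sub_self]
  have h7 := add_mem h3 h6
  have h8 : (fun g => f (π g)) - k = (fun x => (f - g) (π x)) + ((fun x => g (π x)) - k) := by
    funext x
    simp only [Pi.add_apply, Pi.sub_apply]
    ring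
  rw [h8]
  exact h7

end main

end Pool.Agent.Run7.h810.DL
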