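import Mathlib
import Pool.Agent.Run7.h810.DL.Fields
import Pool.Agent.Run7.h810.DL.Nilp
import Pool.Agent.K4H74.ST.Chr
import Pool.Agent.K4H74.SC.ArtL
import Pool.Agent.K4H74.SC.Newt

/-!
# Twisted L-functions: additivity and inflation
-/

set_option autoImplicit false
set_option linter.unusedSectionVars false
set_option linter.unusedVariables false

namespace Pool.Agent.Run7.h810.DL

open NumberField NumberField.ComplexEmbedding Pool.Agent.R389 Pool.Agent.K4H74.ST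
  Pool.Agent.W446.AS Pool.Agent.H302R2 Pool.Agent.H302R3 Pool.Agent.H541R3.ART
  Pool.Agent.K4H74
open scoped Topology

section prime

/-- the prime ideal of `𝓞 ℚ` -/
noncomputable def pid (p : ℕ) : Ideal (𝓞 ℚ) := Ideal.span {(p : 𝓞 ℚ)}

lemma pid_prime {p : ℕ} (hp : p.Prime) : (pid p).IsPrime := by
  have h1 : Prime ((p : ℕ) : 𝓞 ℚ) := by
    rw [← MulEquiv.prime_iff Rat.ringOfIntegersEquiv.toMulEquiv]
    change Prime (Rat.ringOfIntegersEquiv ((p : ℕ) : 𝓞 ℚ))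
    rw [map_natCast]
    exact Nat.prime_iff_prime_int.mp hp
  exact (Ideal.span_singleton_prime h1.ne_zero).mpr h1

lemma pid_ne {p : ℕ} (hp : p.Prime) : pid p ≠ ⊥ := by
  intro h
  rw [pid, Ideal.span_singleton_eq_bot] at h
  exact hp.ne_zero (by exact_mod_cast h)

lemma pid_norm (p : ℕ) : Ideal.absNorm (pid p) = p := by
  rw [pid, Ideal.absNorm_span_natCast, RingOfIntegers.rank, Module.finrank_self, pow_one]

lemma over_iff {N : Type} [Field N] [NumberField N] {p : ℕ} (hp : p.Prime) {P : Ideal (𝓞 N)}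
    (hP : P.IsPrime) : P.LiesOver (pid p) ↔ (p : 𝓞 N) ∈ P := by
  have hmax : (pid p).IsMaximal := (pid_prime hp).isMaximal (pid_ne hp)
  constructor
  · intro h
    have h1 : (p : 𝓞 ℚ) ∈ pid p := Ideal.mem_span_singleton_self _
    have h2 := h.over
    rw [h2, Ideal.mem_comap, map_natCast] at h1
    exact h1
  · intro h
    refine ⟨?_⟩
    refine hmax.eq_of_le (Ideal.IsPrime.ne_top inferInstance) ?_
    rw [pid, Ideal.span_singleton_le_iff_mem, Ideal.mem_comap, map_natCast]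
    exact h

end prime

variable {E : Fld}

lemma frobSet_eq' {p : ℕ} (hp : p.Prime) (n : ℕ) :
    frobSet E p n = SC.frobSet ℚ E.N (pid p) n := by
  ext x
  constructor
  · rintro ⟨h1, h2, h3⟩
    refine ⟨h1, (over_iff hp h1).mpr h2, fun y => ?_⟩
    rw [pid_norm]
    exact h3 y _ rfl
  · rintro ⟨h1, h2, h3⟩
    refine ⟨h1, (over_iff hp h1).mp h2, fun y z hz => ?_⟩
    have h4 : z = x.2 • y := RingOfIntegers.ext hz
    rw [h4]
    have h5 := h3 y
    rwa [pid_norm] at h5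

lemma frobMean_eq' (χ : Gal E → ℂ) {p : ℕ} (hp : p.Prime) (n : ℕ) :
    frobMean χ p n = SC.frobMean ℚ E.N χ (pid p) n := by
  rw [frobMean, SC.frobMean, frobSet_eq' hp]

lemma frobMean_add' (χ χ' : Gal E → ℂ) {p : ℕ} (hp : p.Prime) (n : ℕ) :
    frobMean (χ + χ') p n = frobMean χ p n + frobMean χ' p n := by
  have := pid_prime hp
  rw [frobMean_eq' _ hp, frobMean_eq' _ hp, frobMean_eq' _ hp, SC.frobMean_add _ _ (pid_ne hp)]

lemma frobMean_infl' {E' : Fld} [Algebra E.N E'.N] {χ : Gal E → ℂ}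
    (hχ : ∀ g x, χ (x * g * x⁻¹) = χ g) {p : ℕ}
    (hp : p.Prime) (n : ℕ) : frobMean (fun g => χ (rs E E' g)) p n = frobMean χ p n := by
  have := pid_prime hp
  rw [frobMean_eq' _ hp, frobMean_eq' _ hp]
  exact SC.frobMean_infl (K := ℚ) (L := E.N) (N := E'.N) hχ (pid_ne hp) n

lemma frobMean_neg' (χ : Gal E → ℂ) {p : ℕ} (hp : p.Prime) (n : ℕ) :
    frobMean (-χ) p n = -frobMean χ p n := by
  have h1 := frobMean_add' (-χ) χ hp n
  rw [neg_add_cancel] at h1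
  have h2 : frobMean (0 : Gal E → ℂ) p n = 0 := by
    rw [frobMean]
    simp
  rw [h2] at h1
  exact eq_neg_of_add_eq_zero_left h1.symm

lemma logTerm_add' (t : ℕ → ℂ) (χ χ' : Gal E → ℂ) (s : ℂ) (x : Nat.Primes × ℕ+) :
    logTerm t (χ + χ') s x = logTerm t χ s x + logTerm t χ' s x := by
  rw [logTerm, logTerm, logTerm, frobMean_add' χ χ' x.1.2, mul_add, add_div]

lemma logTerm_neg' (t : ℕ → ℂ) (χ : Gal E → ℂ) (s : ℂ) (x : Nat.Primes × ℕ+) :
    logTerm t (-χ) s x = -logTerm t χ s x := by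
  rw [logTerm, logTerm, frobMean_neg' χ x.1.2, mul_neg, neg_div]

lemma logTerm_infl' {E' : Fld} [Algebra E.N E'.N] (t : ℕ → ℂ) {χ : Gal E → ℂ}
    (hχ : ∀ g x, χ (x * g * x⁻¹) = χ g)
    (s : ℂ) : logTerm t (fun g => χ (rs E E' g)) s = logTerm t χ s := by
  funext x
  rw [logTerm, logTerm, frobMean_infl' hχ x.1.2]

lemma re_ev (b : ℝ) : ∀ᶠ s in 𝓝[≠] (((b + 1 : ℝ)) : ℂ), b < s.re := by
  have h1 : ∀ᶠ s in 𝓝 (((b + 1 : ℝ)) : ℂ), b < s.re := by
    refine (isOpen_lt continuous_const Complex.continuous_re).mem_nhds ?_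
    change b < (((b + 1 : ℝ)) : ℂ).re
    rw [Complex.ofReal_re]
    linarith
  exact h1.filter_mono nhdsWithin_le_nhds

/-- identity theorem -/
lemma val_unique {f f' : ℂ → ℂ} (hf : ∀ z, MeromorphicAt f z) (hf' : ∀ z, MeromorphicAt f' z)
    {b : ℝ} (h : ∀ s : ℂ, b < s.re → f s = f' s) (m : ℂ) : val f m = val f' m := by
  apply meromorphicTrailingCoeffAt_congr_nhdsNE
  have hm : MeromorphicOn (f - f') Set.univ := fun z _ => (hf z).sub (hf' z)
  have h0 : meromorphicOrderAt (f - f') m = ⊤ := by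
    by_contra hcon
    refine hm.meromorphicOrderAt_ne_top_of_isPreconnected isPreconnected_univ
      (Set.mem_univ m) (Set.mem_univ ((b + 1 : ℝ) : ℂ)) hcon ?_
    rw [meromorphicOrderAt_eq_top_iff]
    filter_upwards [re_ev b] with s hs
    rw [Pi.sub_apply, h s hs, sub_self]
  rw [meromorphicOrderAt_eq_top_iff] at h0
  filter_upwards [h0] with s hs
  exact sub_eq_zero.mp hs

lemma val_ne {f : ℂ → ℂ} (hf : ∀ z, MeromorphicAt f z) {b : ℝ}
    (h : ∀ s : ℂ, b < s.re → f s ≠ 0) (m : ℂ) : val f m ≠ 0 := by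
  refine (hf m).meromorphicTrailingCoeffAt_ne_zero ?_
  have hm : MeromorphicOn f Set.univ := fun z _ => hf z
  refine hm.meromorphicOrderAt_ne_top_of_isPreconnected isPreconnected_univ
    (Set.mem_univ ((b + 1 : ℝ) : ℂ)) (Set.mem_univ m) ?_
  intro h1
  rw [meromorphicOrderAt_eq_top_iff] at h1
  obtain ⟨s, hs1, hs2⟩ := (h1.and (re_ev b)).exists
  exact h s hs2 hs1

lemma IsL.ne {t : ℕ → ℂ} {b : ℝ} {χ : Gal E → ℂ} {f : ℂ → ℂ} (h : IsL t b χ f) (m : ℂ) :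
    val f m ≠ 0 :=
  val_ne h.1 (fun s hs => by
    obtain ⟨l, -, hl⟩ := h.2 s hs
    rw [hl]
    exact Complex.exp_ne_zero l) m

lemma IsL.unique {t : ℕ → ℂ} {b : ℝ} {χ : Gal E → ℂ} {f f' : ℂ → ℂ} (h : IsL t b χ f)
    (h' : IsL t b χ f') (m : ℂ) : val f m = val f' m := by
  refine val_unique h.1 h'.1 (b := b) (fun s hs => ?_) m
  obtain ⟨l, hl, e⟩ := h.2 s hs
  obtain ⟨l', hl', e'⟩ := h'.2 s hs
  rw [e, e', hl.unique hl']

lemma IsL.add {t : ℕ → ℂ} {b : ℝ} {χ χ' : Gal E → ℂ} {f f' : ℂ → ℂ} (h : IsL t b χ f)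
    (h' : IsL t b χ' f') : IsL t b (χ + χ') (f * f') := by
  refine ⟨fun z => (h.1 z).mul (h'.1 z), fun s hs => ?_⟩
  obtain ⟨l, hl, e⟩ := h.2 s hs
  obtain ⟨l', hl', e'⟩ := h'.2 s hs
  refine ⟨l + l', ?_, by rw [Pi.mul_apply, e, e', Complex.exp_add]⟩
  refine (hl.add hl').congr_fun ?_
  intro x
  exact logTerm_add' t χ χ' s x

lemma IsL.neg {t : ℕ → ℂ} {b : ℝ} {χ : Gal E → ℂ} {f : ℂ → ℂ} (h : IsL t b χ f) :
    IsL t b (-χ) f⁻¹ := by
  refine ⟨fun z => (h.1 z).inv, fun s hs => ?_⟩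
  obtain ⟨l, hl, e⟩ := h.2 s hs
  refine ⟨-l, ?_, by rw [Pi.inv_apply, e, Complex.exp_neg]⟩
  refine hl.neg.congr_fun ?_
  intro x
  exact logTerm_neg' t χ s x

lemma IsL.val_add {t : ℕ → ℂ} {b : ℝ} {χ χ' : Gal E → ℂ} {f f' : ℂ → ℂ} (h : IsL t b χ f)
    (h' : IsL t b χ' f') (m : ℂ) : val (f * f') m = val f m * val f' m :=
  (h.1 m).meromorphicTrailingCoeffAt_mul (h'.1 m)

lemma IsL.val_neg {t : ℕ → ℂ} {b : ℝ} {χ : Gal E → ℂ} {f : ℂ → ℂ} (h : IsL t b χ f) (m : ℂ) :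
    val f⁻¹ m = (val f m)⁻¹ :=
  meromorphicTrailingCoeffAt_inv

lemma IsL.zero (t : ℕ → ℂ) (b : ℝ) : IsL t b (0 : Gal E → ℂ) 1 := by
  refine ⟨fun z => MeromorphicAt.const 1 z, fun s _ => ⟨0, ?_, by rw [Complex.exp_zero]; rfl⟩⟩
  have h : logTerm t (0 : Gal E → ℂ) s = fun _ => 0 := by
    funext x
    rw [logTerm, frobMean]
    simp
  rw [h]
  exact hasSum_zero

lemma IsL.infl {E' : Fld} [Algebra E.N E'.N] {t : ℕ → ℂ} {b : ℝ} {χ : Gal E → ℂ}
    (hχ : ∀ g x, χ (x * g * x⁻¹) = χ g) {f : ℂ → ℂ} (h : IsL t b χ f) :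
    IsL t b (fun g => χ (rs E E' g)) f := by
  refine ⟨h.1, fun s hs => ?_⟩
  rw [logTerm_infl' t hχ s]
  exact h.2 s hs

end Pool.Agent.Run7.h810.DL
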