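import Mathlib
import Pool.Agent.Run7.h810.DL.LFun

/-!
# Resolvents and determinants
-/

set_option autoImplicit false
set_option linter.unusedSectionVars false
set_option linter.unusedVariables false

namespace Pool.Agent.Run7.h810.DL

open NumberField NumberField.ComplexEmbedding Pool.Agent.R389 Pool.Agent.K4H74.ST
  Pool.Agent.W446.AS Pool.Agent.H302R2 Pool.Agent.H302R3 Pool.Agent.H541R3.ART
  Pool.Agent.K4H74

section mats

lemma trace_pow_toLin {n : ℕ} (A : Matrix (Fin n) (Fin n) ℂ) (k : ℕ) :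
    LinearMap.trace ℂ _ ((Matrix.toLin' A) ^ k) = (A ^ k).trace := by
  rw [← Matrix.toLin'_pow, Matrix.trace_toLin'_eq]

lemma mat_det {n n' : ℕ} (A : Matrix (Fin n) (Fin n) ℂ) (A' : Matrix (Fin n') (Fin n') ℂ)
    (h : ∀ k : ℕ, (A' ^ k).trace = (A ^ k).trace) : A'.det = A.det := by
  have h1 := SC.det_of_trace (RingHom.id ℂ) (Matrix.toLin' A) (Matrix.toLin' A') (fun k => by
    rw [trace_pow_toLin, trace_pow_toLin, RingHom.id_apply, h])
  rwa [LinearMap.det_toLin', LinearMap.det_toLin', RingHom.id_apply] at h1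

lemma mat_det_add {n n₁ n₂ : ℕ} (A : Matrix (Fin n) (Fin n) ℂ) (B : Matrix (Fin n₁) (Fin n₁) ℂ)
    (C : Matrix (Fin n₂) (Fin n₂) ℂ)
    (h : ∀ k : ℕ, (A ^ k).trace = (B ^ k).trace + (C ^ k).trace) : A.det = B.det * C.det := by
  have h1 := SC.det_of_trace_add (Matrix.toLin' A) (Matrix.toLin' B) (Matrix.toLin' C) (fun k => by
    rw [trace_pow_toLin, trace_pow_toLin, trace_pow_toLin, h])
  rwa [LinearMap.det_toLin', LinearMap.det_toLin', LinearMap.det_toLin'] at h1

end mats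

variable {E : Fld}

lemma chr_isChar {n : ℕ} (ρ : Rep E n) : IsChar (chr ρ) := by
  let ρ' : Representation ℂ (Gal E) (Fin n → ℂ) :=
    { toFun := fun g => Matrix.toLin' (ρ g)
      map_one' := by rw [map_one, Matrix.toLin'_one]; rfl
      map_mul' := fun a b => by rw [map_mul, Matrix.toLin'_mul]; rfl }
  refine ⟨Fin n → ℂ, inferInstance, inferInstance, inferInstance, ρ', funext fun g => ?_⟩
  exact (Matrix.trace_toLin'_eq _).symm

lemma isChar_chr {χ : Gal E → ℂ} (h : IsChar χ) : ∃ (n : ℕ) (ρ : Rep E n), chr ρ = χ := by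
  obtain ⟨V, _, _, _, ρ, rfl⟩ := h
  let b := Module.finBasis ℂ V
  refine ⟨_, { toFun := fun g => LinearMap.toMatrix b b (ρ g)
               map_one' := by rw [map_one]; exact LinearMap.toMatrix_one b
               map_mul' := fun x y => by rw [map_mul]; exact LinearMap.toMatrix_mul b _ _ },
    funext fun g => ?_⟩
  exact (LinearMap.trace_eq_matrix_trace ℂ b _).symm

lemma conj_apply (τ : ℂ ≃+* ℂ) {n : ℕ} (ρ : Rep E n) (g : Gal E) :
    conj τ ρ g = (ρ g).map τ := rfl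

lemma chr_conj (τ : ℂ ≃+* ℂ) {n : ℕ} (ρ : Rep E n) : chr (conj τ ρ) = fun g => τ (chr ρ g) := by
  funext g
  rw [chr, conj_apply, chr, Matrix.trace, Matrix.trace, map_sum]
  rfl

lemma chr_one {n : ℕ} (ρ : Rep E n) : chr ρ 1 = n := by
  rw [chr, map_one, Matrix.trace_one, Fintype.card_fin]

lemma chr_class {n : ℕ} (ρ : Rep E n) (g x : Gal E) : chr ρ (x * g * x⁻¹) = chr ρ g := by
  rw [chr, chr, map_mul, map_mul, Matrix.trace_mul_cycle, ← map_mul, inv_mul_cancel, map_one,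
    one_mul]

/-- `τ` on `N` -/
lemma exists_tau (τ : ℂ ≃+* ℂ) (φ : E.N →+* ℂ) : ∃ g : Gal E, ∀ y, φ (g y) = τ (φ y) := by
  obtain ⟨σ, hσ⟩ := ComplexEmbedding.exists_comp_symm_eq_of_comp_eq (k := ℚ) φ
    ((τ : ℂ →+* ℂ).comp φ) (by ext x; simp)
  exact ⟨σ.symm, fun y => RingHom.congr_fun hσ y⟩

/-- two embeddings differ by an automorphism -/
lemma exists_aut (φ φ' : E.N →+* ℂ) : ∃ h : Gal E, ∀ y, φ (h y) = φ' y := by
  obtain ⟨σ, hσ⟩ := ComplexEmbedding.exists_comp_symm_eq_of_comp_eq (k := ℚ) φ φ' (by ext x; simp)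
  exact ⟨σ.symm, fun y => RingHom.congr_fun hσ y⟩

lemma tau_conj (τ : ℂ ≃+* ℂ) {φ φ' : E.N →+* ℂ} {g g' : Gal E} (hg : ∀ y, φ (g y) = τ (φ y))
    (hg' : ∀ y, φ' (g' y) = τ (φ' y)) : ∃ h : Gal E, g' = h⁻¹ * g * h := by
  obtain ⟨h, hh⟩ := exists_aut φ φ'
  refine ⟨h, ?_⟩
  have h1 : h * g' = g * h := by
    ext y
    apply φ.injective
    change φ (h (g' y)) = φ (g (h y))
    rw [hh, hg', hg, hh]
  rw [mul_assoc, ← h1, inv_mul_cancel_left]

/-- the determinant depends on the character only -/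
lemma det_unique (τ : ℂ ≃+* ℂ) {φ φ' : E.N →+* ℂ} {g g' : Gal E} (hg : ∀ y, φ (g y) = τ (φ y))
    (hg' : ∀ y, φ' (g' y) = τ (φ' y)) {n n' : ℕ} (ρ : Rep E n) (ρ' : Rep E n')
    (h : chr ρ = chr ρ') : (conj τ ρ g).det = (conj τ ρ' g').det := by
  obtain ⟨x, rfl⟩ := tau_conj τ hg hg'
  apply mat_det
  intro k
  rw [← map_pow, ← map_pow]
  change chr (conj τ ρ) (g ^ k) = chr (conj τ ρ') ((x⁻¹ * g * x) ^ k)
  rw [chr_conj, chr_conj, h]
  have h1 : (x⁻¹ * g * x) ^ k = x⁻¹ * g ^ k * x := by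
    have := conj_pow (i := k) (a := x⁻¹) (b := g)
    rw [inv_inv] at this
    exact this
  rw [h1]
  have h2 := chr_class ρ' (g ^ k) x⁻¹
  rw [inv_inv] at h2
  change τ (chr ρ' (g ^ k)) = τ (chr ρ' (x⁻¹ * g ^ k * x))
  rw [h2]

/-- `τ` and the resolvents -/
lemma res_conj (τ : ℂ ≃+* ℂ) {φ : E.N →+* ℂ} {g : Gal E} (hg : ∀ y, φ (g y) = τ (φ y)) (x : E.N)
    {n : ℕ} (ρ : Rep E n) : res φ x (conj τ ρ) = (conj τ ρ g).det * τ (res φ x ρ) := by
  classical
  have h1 : τ (res φ x ρ) = (∑ h : Gal E, φ ((g * h) x) • conj τ ρ h).det := by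
    rw [res]
    have h2 := RingHom.map_det (τ : ℂ →+* ℂ) (∑ h : Gal E, φ (h x) • ρ h)
    have h3 : τ (∑ h : Gal E, φ (h x) • ρ h).det
        = ((τ : ℂ →+* ℂ).mapMatrix (∑ h : Gal E, φ (h x) • ρ h)).det := h2
    rw [h3]
    congr 1
    rw [map_sum]
    refine Finset.sum_congr rfl fun h _ => ?_
    ext i j
    change τ (φ (h x) * ρ h i j) = φ ((g * h) x) * τ (ρ h i j)
    rw [map_mul]
    congr 1
    exact (hg _).symm
  rw [h1, ← Matrix.det_mul, res]
  congr 1
  rw [Finset.mul_sum, ← Equiv.sum_comp (Equiv.mulLeft g) (fun h => φ (h x) • conj τ ρ h)]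
  refine Finset.sum_congr rfl fun h _ => ?_
  change φ ((g * h) x) • conj τ ρ (g * h) = conj τ ρ g * (φ ((g * h) x) • conj τ ρ h)
  rw [Matrix.mul_smul, map_mul]

lemma det_conj_ne (τ : ℂ ≃+* ℂ) (g : Gal E) {n : ℕ} (ρ : Rep E n) : (conj τ ρ g).det ≠ 0 := by
  intro h
  have h1 : conj τ ρ g * conj τ ρ g⁻¹ = 1 := by rw [← map_mul, mul_inv_cancel, map_one]
  have h2 := congrArg Matrix.det h1
  rw [Matrix.det_mul, h, zero_mul, Matrix.det_one] at h2
  exact zero_ne_one h2

/-- **resolvents of a normal basis do not vanish** -/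
lemma exists_res (E : Fld) (φ : E.N →+* ℂ) : ∃ x : E.N, ∀ (n : ℕ) (ρ : Rep E n), res φ x ρ ≠ 0 := by
  classical
  let B := IsGalois.normalBasis ℚ E.N
  let x : E.N := B 1
  refine ⟨x, fun n ρ => ?_⟩
  let M : Matrix (Gal E) (Gal E) ℂ := fun k h => φ (k (h⁻¹ x))
  have hM : M.det ≠ 0 := by
    intro h0
    obtain ⟨v, hv, hv0⟩ := Matrix.exists_vecMul_eq_zero_iff.mpr h0
    apply hv
    have h1 : ∀ y : E.N, ∑ k : Gal E, v k * φ (k y) = 0 := by
      have h2 : ∀ h : Gal E, ∑ k : Gal E, v k * φ (k (h x)) = 0 := by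
        intro h
        have h3 := congrFun hv0 h⁻¹
        rw [Matrix.vecMul, Pi.zero_apply] at h3
        simp only [dotProduct, M, inv_inv] at h3
        exact h3
      intro y
      have h4 := B.sum_repr y
      rw [← h4]
      have h5 : ∀ k : Gal E, v k * φ (k (∑ h, B.repr y h • B h))
          = ∑ h, ((B.repr y h : ℚ) : ℂ) * (v k * φ (k (h x))) := by
        intro k
        rw [map_sum, map_sum, Finset.mul_sum]
        refine Finset.sum_congr rfl fun h _ => ?_
        rw [IsGalois.normalBasis_apply, Rat.smul_def, map_mul, map_mul, map_ratCast, map_ratCast]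
        ring
      rw [Finset.sum_congr rfl (fun k _ => h5 k), Finset.sum_comm]
      refine Finset.sum_eq_zero fun h _ => ?_
      rw [← Finset.mul_sum, h2, mul_zero]
    -- independence of characters
    let f : Gal E → (E.N →* ℂ) := fun k => ((φ.comp (k : E.N →+* E.N)) : E.N →+* ℂ).toMonoidHom
    have hf : Function.Injective f := by
      intro k k' h
      ext y
      apply φ.injective
      exact DFunLike.congr_fun h y
    have h6 := (linearIndependent_monoidHom E.N ℂ).comp f hf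
    rw [Fintype.linearIndependent_iff] at h6
    funext k
    refine h6 v ?_ k
    funext y
    rw [Finset.sum_apply]
    exact h1 y
  have hMu : IsUnit M.det := isUnit_iff_ne_zero.mpr hM
  let v : Gal E → ℂ := M⁻¹.mulVec (Pi.single 1 1)
  have hv : M.mulVec v = Pi.single 1 1 := by
    rw [Matrix.mulVec_mulVec, Matrix.mul_nonsing_inv _ hMu, Matrix.one_mulVec]
  have h1 : (∑ g : Gal E, φ (g x) • ρ g) * (∑ h : Gal E, v h • ρ h) = 1 := by
    rw [Finset.sum_mul_sum]
    have h2 : ∀ g : Gal E, ∑ h : Gal E, (φ (g x) • ρ g) * (v h • ρ h)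
        = ∑ k : Gal E, (φ (g x) * v (g⁻¹ * k)) • ρ k := by
      intro g
      rw [← Equiv.sum_comp (Equiv.mulLeft g) (fun k => (φ (g x) * v (g⁻¹ * k)) • ρ k)]
      refine Finset.sum_congr rfl fun h _ => ?_
      change _ = (φ (g x) * v (g⁻¹ * (g * h))) • ρ (g * h)
      rw [inv_mul_cancel_left, Matrix.smul_mul, Matrix.mul_smul, smul_smul, map_mul]
    rw [Finset.sum_congr rfl (fun g _ => h2 g), Finset.sum_comm]
    have h3 : ∀ k : Gal E, ∑ g : Gal E, (φ (g x) * v (g⁻¹ * k)) • ρ k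
        = ((Pi.single 1 1 : Gal E → ℂ) k) • ρ k := by
      intro k
      rw [← Finset.sum_smul]
      congr 1
      rw [← hv, Matrix.mulVec, dotProduct]
      rw [← Equiv.sum_comp ((Equiv.inv (Gal E)).trans (Equiv.mulLeft k))
        (fun g => φ (g x) * v (g⁻¹ * k))]
      refine Finset.sum_congr rfl fun h _ => ?_
      change φ ((k * h⁻¹) x) * v ((k * h⁻¹)⁻¹ * k) = φ (k (h⁻¹ x)) * v h
      rw [mul_inv_rev, inv_inv, inv_mul_cancel_right]
      rfl
    rw [Finset.sum_congr rfl (fun k _ => h3 k), Finset.sum_eq_single 1]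
    · rw [Pi.single_eq_same, one_smul, map_one]
    · intro k _ hk
      rw [Pi.single_eq_of_ne hk, zero_smul]
    · intro h
      exact absurd (Finset.mem_univ _) h
  intro h0
  have h2 := congrArg Matrix.det h1
  rw [Matrix.det_mul] at h2
  rw [res] at h0
  rw [h0, zero_mul, Matrix.det_one] at h2
  exact zero_ne_one h2

end Pool.Agent.Run7.h810.DL
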