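import Mathlib
import Pool.Agent.Run7.h810.DL.Inv

/-!
# Deligne's relation for Artin twists
-/

set_option autoImplicit false
set_option linter.unusedSectionVars false
set_option linter.unusedVariables false

namespace Pool.Agent.Run7.h810.DL

open NumberField NumberField.ComplexEmbedding Pool.Agent.R389 Pool.Agent.K4H74.ST
  Pool.Agent.W446.AS Pool.Agent.H302R2 Pool.Agent.H302R3 Pool.Agent.H541R3.ART
  Pool.Agent.K4H74

section

variable {E : Fld} {τ : ℂ ≃+* ℂ}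

lemma ind_tau {G : Type} [Group G] [Finite G] (τ : ℂ ≃+* ℂ) (H : Subgroup G) (f : H → ℂ) (g : G) :
    τ (ind H f g) = ind H (fun h => τ (f h)) g := by
  classical
  have : Fintype G := Fintype.ofFinite G
  rw [ind_eq, ind_eq, map_mul, map_inv₀, map_natCast, map_sum]
  congr 1
  refine Finset.sum_congr rfl fun x _ => ?_
  by_cases hx : x⁻¹ * g * x ∈ H
  · rw [ext_mem _ _ hx, ext_mem _ _ hx]
  · rw [ext_not _ _ hx, ext_not _ _ hx, map_zero]

lemma CC_iff (E : Fld) (c : Gal E) : c ∈ CC ℚ E.N ↔ ∃ φ : E.N →+* ℂ, IsCC φ c := by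
  constructor
  · rintro ⟨φ, hφ⟩
    exact ⟨φ, fun y => hφ.eq y⟩
  · rintro ⟨φ, hφ⟩
    exact ⟨φ, by ext y; exact (hφ y).symm⟩

lemma isLin_ext (H : Subgroup (Gal E)) (ψ : H →* ℂˣ) : IsLin H (ext H (lc ψ)) := by
  refine ⟨?_, fun x hx y hy => ?_, fun x hx => ext_not _ _ hx⟩
  · rw [ext_mem _ _ H.one_mem]
    have h : (⟨1, H.one_mem⟩ : H) = 1 := rfl
    rw [h]
    simp [lc]
  · rw [ext_mem _ _ hx, ext_mem _ _ hy, ext_mem _ _ (H.mul_mem hx hy)]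
    have h : ψ ⟨x * y, H.mul_mem hx hy⟩ = ψ ⟨x, hx⟩ * ψ ⟨y, hy⟩ := map_mul ψ ⟨x, hx⟩ ⟨y, hy⟩
    rw [lc, h, Units.val_mul]
    rfl

lemma isInd_of {H : Subgroup (Gal E)} {ψ : H →* ℂˣ} {n : ℕ} {ρ : Rep E n}
    (h : chr ρ = ind H (lc ψ)) : IsInd H (ext H (lc ψ)) ρ :=
  ⟨isLin_ext H ψ, fun g => by rw [h, ind]⟩

lemma agree_ext {H : Subgroup (Gal E)} {ψ ψ' : H →* ℂˣ}
    (h : ∀ c : H, (c : Gal E) ∈ CC ℚ E.N → ψ c = ψ' c) :
    Agree (ext H (lc ψ)) (ext H (lc ψ')) := by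
  intro φ c hc
  by_cases hH : c ∈ H
  · rw [ext_mem _ _ hH, ext_mem _ _ hH, lc, lc, h ⟨c, hH⟩ ((CC_iff E c).mpr ⟨φ, hc⟩)]
  · rw [ext_not _ _ hH, ext_not _ _ hH]

lemma DV.of_rep {n : ℕ} (ρ : Rep E n) (g : Gal E) : DV τ g (chr ρ) (conj τ ρ g).det := by
  refine ⟨n, 0, ρ, 1, ?_, ?_⟩
  · have h : chr (1 : Rep E 0) = 0 := by
      funext x
      simp [chr, Matrix.trace]
    rw [h, sub_zero]
  · have h : (conj τ (1 : Rep E 0) g).det = 1 := Matrix.det_isEmpty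
    rw [h, div_one]

/-- linear characters as representations -/
noncomputable def lr (E : Fld) (ψ : Gal E →* ℂˣ) : Rep E 1 where
  toFun g := Matrix.scalar (Fin 1) ((ψ g : ℂˣ) : ℂ)
  map_one' := by rw [map_one, Units.val_one, map_one]
  map_mul' a b := by rw [map_mul, Units.val_mul, map_mul]

lemma chr_lr (E : Fld) (ψ : Gal E →* ℂˣ) : chr (lr E ψ) = lc ψ := by
  funext g
  change (Matrix.scalar (Fin 1) ((ψ g : ℂˣ) : ℂ)).trace = _
  simp [Matrix.trace, lc]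

lemma exists_cc (φ : E.N →+* ℂ) : ∃ c : Gal E, IsCC φ c := by
  obtain ⟨c, hc⟩ := exists_conj (K := ℚ) (φ := φ) (by ext x; simp)
  exact ⟨c, fun y => hc.eq y⟩

end

/-- the data for `M`, `τ` and `m` -/
def dat (τ : ℂ ≃+* ℂ) (r : ℕ) (m : ℂ) (t : ℕ → ℂ) (b : ℝ) : Dat :=
  ⟨τ, r, m, t, fun k => τ (t k), b⟩

section

variable {τ : ℂ ≃+* ℂ} {r : ℕ} {m : ℂ} {t : ℕ → ℂ} {b : ℝ} {E : Fld}

lemma VV.of_rep {n : ℕ} {ρ : Rep E n} {φ : E.N →+* ℂ} {g : Gal E}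
    (hg : ∀ y, φ (g y) = τ (φ y)) {f f' : ℂ → ℂ} (hf : IsL t b (chr ρ) f)
    (hf' : IsL (fun k => τ (t k)) b (chr (conj τ ρ)) f') :
    VV (dat τ r m t b) (chr ρ) (τ (val f m) * (conj τ ρ g).det ^ r / val f' m) := by
  refine ⟨φ, g, _, f, f', hg, DV.of_rep ρ g, hf, ?_, rfl⟩
  have h := chr_conj τ ρ
  change IsL (fun k => τ (t k)) b (fun x => τ (chr ρ x)) f'
  rw [← h]
  exact hf'

lemma del_iff {P Q P' Q' : ℂ} (hP : P ≠ 0) (hQ : Q ≠ 0) (hP' : P' ≠ 0) (hQ' : Q' ≠ 0) {n : ℕ}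
    {ρ : Rep E n} {φ : E.N →+* ℂ} {g : Gal E} (hg : ∀ y, φ (g y) = τ (φ y)) {f f' : ℂ → ℂ}
    (hf : IsL t b (chr ρ) f) (hf' : IsL (fun k => τ (t k)) b (chr (conj τ ρ)) f') {x : E.N}
    (hx : res φ x ρ ≠ 0) (a d : ℕ) :
    τ (val f m / (res φ x ρ ^ r * P ^ a * Q ^ d)) =
      val f' m / (res φ x (conj τ ρ) ^ r * P' ^ a * Q' ^ d) ↔
    τ (val f m) * (conj τ ρ g).det ^ r / val f' m = (τ P / P') ^ a * (τ Q / Q') ^ d := by
  rw [res_conj τ hg]
  have a1 : τ (val f m) ≠ 0 := (map_ne_zero τ).mpr (hf.ne m)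
  have a3 := hf'.ne m
  have a5 := det_conj_ne τ g ρ
  have a7 : τ (res φ x ρ) ≠ 0 := (map_ne_zero τ).mpr hx
  have b1 : τ P ≠ 0 := (map_ne_zero τ).mpr hP
  have b2 : τ Q ≠ 0 := (map_ne_zero τ).mpr hQ
  rw [map_div₀, map_mul, map_mul, map_pow, map_pow, map_pow]
  generalize τ (val f m) = u at *
  generalize val f' m = u' at *
  generalize (conj τ ρ g).det = w at *
  generalize τ (res φ x ρ) = y at *
  generalize τ P = p at *
  generalize τ Q = q at *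
  have c1 := pow_ne_zero r a7
  have c2 := pow_ne_zero a b1
  have c3 := pow_ne_zero d b2
  have c4 := pow_ne_zero a hP'
  have c5 := pow_ne_zero d hQ'
  have c6 := pow_ne_zero r a5
  rw [div_pow, div_pow, div_mul_div_comm, div_eq_div_iff a3 (mul_ne_zero c4 c5), mul_pow,
    div_eq_div_iff (mul_ne_zero (mul_ne_zero c1 c2) c3)
      (mul_ne_zero (mul_ne_zero (mul_ne_zero c6 c1) c4) c5)]
  constructor
  · intro h
    apply mul_left_cancel₀ c1
    linear_combination h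
  · intro h
    linear_combination y ^ r * h

lemma VV.of_rel {n : ℕ} {ρ ρ' : Rep E n} (h : Rel τ r m t b ρ ρ') {f₁ f₂ f₁' f₂' : ℂ → ℂ}
    (h₁ : IsL t b (chr ρ) f₁) (h₂ : IsL t b (chr ρ') f₂)
    (h₁' : IsL (fun k => τ (t k)) b (chr (conj τ ρ)) f₁')
    (h₂' : IsL (fun k => τ (t k)) b (chr (conj τ ρ')) f₂') :
    VV (dat τ r m t b) (chr ρ - chr ρ') 1 := by
  obtain ⟨φ, -⟩ := exists_emb E
  obtain ⟨g, hg⟩ := exists_tau τ φ
  obtain ⟨x, hx⟩ := exists_res E φ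
  have h0 := (VV.of_rep (r := r) (m := m) hg h₁ h₁').sub (VV.of_rep (r := r) (m := m) hg h₂ h₂')
  have h1 := h φ x f₁ f₂ f₁' f₂' (hx n ρ) (hx n ρ') h₁ h₂ h₁' h₂'
  have key : (τ (val f₁ m) * (conj τ ρ g).det ^ r / val f₁' m)
      / (τ (val f₂ m) * (conj τ ρ' g).det ^ r / val f₂' m) = 1 := by
    rw [res_conj τ hg, res_conj τ hg, map_div₀, map_div₀, map_pow, map_div₀] at h1
    have a1 : τ (val f₁ m) ≠ 0 := (map_ne_zero τ).mpr (h₁.ne m)
    have a2 : τ (val f₂ m) ≠ 0 := (map_ne_zero τ).mpr (h₂.ne m)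
    have a3 := h₁'.ne m
    have a4 := h₂'.ne m
    have a5 := det_conj_ne τ g ρ
    have a6 := det_conj_ne τ g ρ'
    have a7 : τ (res φ x ρ) ≠ 0 := (map_ne_zero τ).mpr (hx n ρ)
    have a8 : τ (res φ x ρ') ≠ 0 := (map_ne_zero τ).mpr (hx n ρ')
    have h2 : ((conj τ ρ g).det * τ (res φ x ρ) / ((conj τ ρ' g).det * τ (res φ x ρ'))) ^ r
        = ((conj τ ρ g).det / (conj τ ρ' g).det) ^ r * (τ (res φ x ρ) / τ (res φ x ρ')) ^ r := by
      rw [← mul_pow]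
      congr 1
      field_simp
    rw [h2] at h1
    have a9 : (τ (res φ x ρ) / τ (res φ x ρ')) ^ r ≠ 0 := pow_ne_zero _ (div_ne_zero a7 a8)
    have a10 : ((conj τ ρ g).det / (conj τ ρ' g).det) ^ r ≠ 0 := pow_ne_zero _ (div_ne_zero a5 a6)
    rw [div_eq_div_iff a9 (mul_ne_zero a10 a9)] at h1
    have h3 : τ (val f₁ m) / τ (val f₂ m) * ((conj τ ρ g).det / (conj τ ρ' g).det) ^ r
        = val f₁' m / val f₂' m := by
      apply mul_right_cancel₀ a9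
      rw [mul_assoc]
      exact h1
    rw [div_pow] at h3
    have a11 := pow_ne_zero r a6
    have a12 := pow_ne_zero r a5
    rw [div_div_div_eq, div_eq_one_iff_eq (mul_ne_zero a3 (mul_ne_zero a2 a11))]
    field_simp at h3
    linear_combination h3
  rw [key] at h0
  exact h0

lemma adm_good : Adm Good := ⟨Good.rat, fun E E' _ H => Good.up E E' H, Good.cyc⟩

lemma adm_all : Adm fun _ _ => True :=
  ⟨fun _ => trivial, fun _ _ _ _ _ => trivial, fun _ _ _ _ _ => trivial⟩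

lemma sn_good' {𝒢 : (E : Fld) → Subgroup (Gal E) → Prop} (h𝒢 : Adm 𝒢) (E : Fld)
    {A : Subgroup (Gal E)} (hA : Sn A) : 𝒢 E A := by
  induction hA with
  | top => exact h𝒢.rat E
  | @step A B hB h ih => exact h𝒢.cyc E _ _ ih h

/-- the fields of the theorem -/
lemma nice_of (E : Fld) (hE : Group.IsNilpotent (Gal E) ∨
    (Group.IsSolvable (Gal E) ∧ RealOrCM E) ∨
      ∀ V : Subgroup (Gal E), Group.IsNilpotent V → Good E V) : Nice Good E := by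
  rcases hE with h | h | h
  · intro V _
    exact sn_good' adm_good E (allSn V)
  · intro V _
    exact Good.real E V h.1 h.2
  · exact h

/-- **The main theorem.** -/
theorem main {𝒢 : (E : Fld) → Subgroup (Gal E) → Prop} (h𝒢 : Adm 𝒢) (P Q P' Q' : ℂ) (hP : P ≠ 0) (hQ : Q ≠ 0) (hP' : P' ≠ 0) (hQ' : Q' ≠ 0)
    (hA : ∀ (E : Fld) (H : Subgroup (Gal E)) (ψ : Gal E → ℂ) (n : ℕ) (ρ : Rep E n), 𝒢 E H →
      IsInd H ψ ρ → Con τ t b ρ)
    (hB : ∀ (E : Fld) (ρ : Rep E 1), Del τ r m t b P Q P' Q' ρ)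
    (hC : ∀ (E : Fld) (H : Subgroup (Gal E)) (ψ ψ' : Gal E → ℂ) (n : ℕ) (ρ ρ' : Rep E n),
      𝒢 E H → Agree ψ ψ' → IsInd H ψ ρ → IsInd H ψ' ρ' → Rel τ r m t b ρ ρ')
    (E : Fld) (hE : Nice 𝒢 E) (n : ℕ) (ρ : Rep E n) :
    Con τ t b ρ ∧ Del τ r m t b P Q P' Q' ρ := by
  classical
  -- existence for induced representations
  have hex : ∀ (E : Fld) (H : Subgroup (Gal E)) (ψ : H →* ℂˣ) (n : ℕ) (ρ : Rep E n), 𝒢 E H →
      chr ρ = ind H (lc ψ) → Con τ t b ρ :=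
    fun E H ψ n ρ hH hρ => hA E H _ n ρ hH (isInd_of hρ)
  have hy : Hy (dat τ r m t b) 𝒢 := by
    refine ⟨h𝒢, ?_, ?_⟩
    · intro E H ψ hH
      obtain ⟨n, ρ, hρ⟩ := isChar_chr (SC.isChar_ind H (IsChar.lc ψ))
      obtain ⟨⟨f, hf⟩, f', hf'⟩ := hex E H ψ n ρ hH hρ
      obtain ⟨φ, -⟩ := exists_emb E
      obtain ⟨g, hg⟩ := exists_tau τ φ
      rw [← hρ]
      exact ⟨_, VV.of_rep hg hf hf'⟩
    · intro E H ψ ψ' hH h
      obtain ⟨n, ρ, hρ⟩ := isChar_chr (SC.isChar_ind H (IsChar.lc ψ))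
      obtain ⟨n', ρ', hρ'⟩ := isChar_chr (SC.isChar_ind H (IsChar.lc ψ'))
      have hn : n' = n := by
        have h1 : (n' : ℂ) = n := by
          rw [← chr_one ρ, ← chr_one ρ', hρ, hρ']
          have h2 : ind H (lc ψ' - lc ψ) 1 = 0 := ind_one' H (by simp [lc])
          rw [ind_sub, Pi.sub_apply] at h2
          exact sub_eq_zero.mp h2
        exact_mod_cast h1
      subst hn
      obtain ⟨⟨f₁, h₁⟩, f₁', h₁'⟩ := hex E H ψ _ ρ hH hρ
      obtain ⟨⟨f₂, h₂⟩, f₂', h₂'⟩ := hex E H ψ' _ ρ' hH hρ'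
      have h3 := hC E H _ _ _ ρ ρ' hH (agree_ext h) (isInd_of hρ) (isInd_of hρ')
      have h4 := VV.of_rel h3 h₁ h₂ h₁' h₂'
      rw [hρ, hρ'] at h4
      exact h4
  -- the values for the linear characters
  have hlin : ∀ (E : Fld) (ψ : Gal E →* ℂˣ) (a d : ℕ), a + d = 1 →
      (∀ c ∈ CC ℚ E.N, ((ψ c : ℂˣ) : ℂ) = a - d) →
      VV (dat τ r m t b) (lc ψ) ((τ P / P') ^ a * (τ Q / Q') ^ d) := by
    intro E ψ a d had hψ
    have hρ : chr (lr E ψ) = ind ⊤ (lc (ψ.comp (Subgroup.subtype ⊤))) := by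
      rw [chr_lr]
      exact (ind_top (lc ψ) (fun g x => lc_conj _ g x)).symm
    obtain ⟨⟨f, hf⟩, f', hf'⟩ := hex E ⊤ _ 1 (lr E ψ) (h𝒢.rat E) hρ
    obtain ⟨φ, -⟩ := exists_emb E
    obtain ⟨g, hg⟩ := exists_tau τ φ
    obtain ⟨x, hx⟩ := exists_res E φ
    obtain ⟨c, hc⟩ := exists_cc φ
    have h1 := hB E (lr E ψ) φ x c a d f f' (hx 1 _) hc had (by
      rw [chr_lr]
      exact hψ c ((CC_iff E c).mpr ⟨φ, hc⟩)) hf hf'
    rw [del_iff hP hQ hP' hQ' hg hf hf' (hx 1 _)] at h1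
    have h2 := VV.of_rep (r := r) (m := m) hg hf hf'
    rw [h1, chr_lr] at h2
    exact h2
  have hmul : ∀ {E : Fld} {F : Gal E → ℂ} {v : ℂ}, VV (dat τ r m t b) F v → ∀ n : ℕ,
      VV (dat τ r m t b) (n • F) (v ^ n) := by
    intro E F v hv n
    induction n with
    | zero =>
      rw [zero_smul, pow_zero]
      exact VV.zero
    | succ n ih =>
      rw [succ_nsmul, pow_succ]
      exact ih.add hv
  -- the formula
  have hform : ∀ (v : ℂ) (a d : ℕ), VV (dat τ r m t b) (chr ρ) v → a + d = n →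
      (∀ c ∈ CC ℚ E.N, chr ρ c = a - d) → v = (τ P / P') ^ a * (τ Q / Q') ^ d := by
    intro v a d hv had hc
    obtain ⟨E', i1, s, hs, hs'⟩ := exists_odd E
    have hll : ∀ ψ : Gal E' →* ℂˣ, lc ψ ∈ LL (Gal E') := fun ψ =>
      AddSubgroup.subset_closure ⟨ψ, rfl⟩
    have hk : a • lc (1 : Gal E' →* ℂˣ) + d • lc s ∈ LL (Gal E') :=
      add_mem (nsmul_mem (hll 1) a) (nsmul_mem (hll s) d)
    have h1 := hy.formula hE (chr_isChar ρ).virt hk (by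
      rw [chr_one, ← had]
      simp [lc]) (by
      intro c hcc
      rw [hc _ (rs_CC hcc)]
      change (a : ℂ) - d = a • lc 1 c + d • lc s c
      simp only [lc, hs' c hcc, MonoidHom.one_apply, Units.val_one,
        Units.val_neg, nsmul_eq_mul]
      ring)
    have h2 := (hmul (hlin E' 1 1 0 rfl (by simp)) a).add (hmul (hlin E' s 0 1 rfl (by
      intro c hc
      rw [hs' c hc]
      simp)) d)
    have h3 := (hv.infl (E' := E')).sub h2
    have h4 := h3.unique h1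
    rw [pow_one, pow_zero, mul_one, pow_zero, one_mul, pow_one] at h4
    have h5 := h2.ne
    rw [pow_one, pow_zero, mul_one, pow_zero, one_mul, pow_one] at h5
    exact (div_eq_one_iff_eq h5).mp h4
  -- existence
  obtain ⟨v, hv⟩ := hy.exist hE (chr_isChar ρ).virt
  refine ⟨⟨?_, ?_⟩, ?_⟩
  · obtain ⟨φ, g, d, f, f', hg, hd, hf, hf', -⟩ := hv
    exact ⟨f, hf⟩
  · obtain ⟨φ, g, d, f, f', hg, hd, hf, hf', -⟩ := hv
    refine ⟨f', ?_⟩
    rw [chr_conj]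
    exact hf'
  · intro φ x c a d f f' hx hc had hχ hf hf'
    obtain ⟨g, hg⟩ := exists_tau τ φ
    rw [del_iff hP hQ hP' hQ' hg hf hf' hx]
    refine hform _ a d (VV.of_rep hg hf hf') had fun c' hc' => ?_
    obtain ⟨φ', hφ'⟩ := (CC_iff E c').mp hc'
    obtain ⟨h, hh⟩ := exists_aut φ φ'
    have h2 : h * c' = c * h := by
      ext y
      apply φ.injective
      change φ (h (c' y)) = φ (c (h y))
      rw [hh, hφ', hc, hh]
    have h3 : c' = h⁻¹ * c * h := by rw [mul_assoc, ← h2, inv_mul_cancel_left]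
    have h4 := chr_class ρ c h⁻¹
    rw [inv_inv] at h4
    rw [h3, h4, hχ]

end

end Pool.Agent.Run7.h810.DL
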