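import Mathlib
import Pool.Agent.Run7.h810.DL.Final

/-!
# The converse
-/

set_option autoImplicit false
set_option linter.unusedSectionVars false
set_option linter.unusedVariables false

namespace Pool.Agent.Run7.h810.DL

open NumberField NumberField.ComplexEmbedding Pool.Agent.R389 Pool.Agent.K4H74.ST
  Pool.Agent.W446.AS Pool.Agent.H302R2 Pool.Agent.H302R3 Pool.Agent.H541R3.ART
  Pool.Agent.K4H74

/-- the multiplicities of the eigenvalues of an involution, commutative groups -/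
lemma mult_comm {G : Type} [Group G] [Finite G] (hc : ∀ a b : G, a * b = b * a) {χ : G → ℂ}
    (hχ : IsChar χ) {c : G} (h2 : c * c = 1) :
    ∃ a d : ℕ, χ 1 = a + d ∧ χ c = a - d := by
  have h := SC.IsChar.mem hχ
  induction h using AddSubmonoid.closure_induction with
  | mem χ hχ' =>
    obtain ⟨ψ, rfl⟩ := irr_comm hc hχ'
    have h3 : ((ψ c : ℂˣ) : ℂ) * ((ψ c : ℂˣ) : ℂ) = 1 := by
      rw [← Units.val_mul, ← map_mul, h2, map_one, Units.val_one]
    rcases mul_self_eq_one_iff.mp h3 with h4 | h4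
    · exact ⟨1, 0, by simp [lc], by simp [lc, h4]⟩
    · exact ⟨0, 1, by simp [lc], by simp [lc, h4]⟩
  | zero => exact ⟨0, 0, by simp, by simp⟩
  | add x y hx hy ihx ihy =>
    obtain ⟨a, d, h1, h3⟩ := ihx (SC.isChar_of_mem hx)
    obtain ⟨a', d', h1', h3'⟩ := ihy (SC.isChar_of_mem hy)
    refine ⟨a + a', d + d', ?_, ?_⟩
    · rw [Pi.add_apply, h1, h1']
      push_cast
      ring
    · rw [Pi.add_apply, h3, h3']
      push_cast
      ring

/-- the multiplicities of the eigenvalues of an involution -/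
lemma mult {G : Type} [Group G] [Finite G] {χ : G → ℂ} (hχ : IsChar χ) {c : G} (h2 : c * c = 1) :
    ∃ a d : ℕ, χ 1 = a + d ∧ χ c = a - d := by
  have hc : ∀ a b : Subgroup.zpowers c, a * b = b * a := by
    rintro ⟨_, i, rfl⟩ ⟨_, j, rfl⟩
    apply Subtype.ext
    change c ^ i * c ^ j = c ^ j * c ^ i
    rw [← zpow_add, ← zpow_add, add_comm]
  have h3 := isChar_comp hχ (Subgroup.zpowers c).subtype
  exact mult_comm hc h3 (c := ⟨c, Subgroup.mem_zpowers c⟩) (Subtype.ext h2)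

variable {E : Fld}

lemma isCC_sq {φ : E.N →+* ℂ} {c : Gal E} (h : IsCC φ c) : c * c = 1 := by
  ext y
  apply φ.injective
  change φ (c (c y)) = φ y
  rw [h, h, star_star]

lemma isCC_conj {φ : E.N →+* ℂ} {c : Gal E} (h : IsCC φ c) (g : Gal E) :
    IsCC (φ.comp (g : E.N →+* E.N)) (g⁻¹ * c * g) := by
  intro y
  change φ (g (g⁻¹ (c (g y)))) = star (φ (g y))
  rw [← h]
  congr 1
  exact g.apply_symm_apply _

/-- **The equivalence.** -/
theorem main_iff (τ : ℂ ≃+* ℂ) (r : ℕ) (m : ℂ) (t : ℕ → ℂ) (b : ℝ) (P Q P' Q' : ℂ)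
    (hP : P ≠ 0) (hQ : Q ≠ 0) (hP' : P' ≠ 0) (hQ' : Q' ≠ 0) :
    (∀ (E : Fld) (n : ℕ) (ρ : Rep E n), Con τ t b ρ ∧ Del τ r m t b P Q P' Q' ρ) ↔
      (∀ (E : Fld) (ρ : Rep E 1), Con τ t b ρ ∧ Del τ r m t b P Q P' Q' ρ) ∧
      ∀ (E : Fld) (H : Subgroup (Gal E)) (ψ ψ' : Gal E → ℂ) (n : ℕ) (ρ ρ' : Rep E n),
        Agree ψ ψ' → IsInd H ψ ρ → IsInd H ψ' ρ' → Con τ t b ρ ∧ Con τ t b ρ' ∧ Rel τ r m t b ρ ρ' := by
  constructor
  · intro h
    refine ⟨fun E ρ => h E 1 ρ, fun E H ψ ψ' n ρ ρ' hψ hρ hρ' =>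
      ⟨(h E n ρ).1, (h E n ρ').1, ?_⟩⟩
    intro φ x f₁ f₂ f₁' f₂' hx hx' h₁ h₂ h₁' h₂'
    obtain ⟨c, hc⟩ := exists_cc φ
    obtain ⟨a, d, h1, h2⟩ := mult (chr_isChar ρ) (isCC_sq hc)
    have had : a + d = n := by
      rw [chr_one] at h1
      exact_mod_cast h1.symm
    have h3 : chr ρ' c = a - d := by
      rw [← h2, hρ.2, hρ'.2]
      congr 1
      refine finsum_congr fun y => ?_
      exact (hψ _ _ (isCC_conj hc y)).symm
    have e1 := (h E n ρ).2 φ x c a d f₁ f₁' hx hc had h2 h₁ h₁'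
    have e2 := (h E n ρ').2 φ x c a d f₂ f₂' hx' hc had h3 h₂ h₂'
    have n1 := h₁.ne m
    have n2 := h₂.ne m
    have n1' := h₁'.ne m
    have n2' := h₂'.ne m
    obtain ⟨g, hg⟩ := exists_tau τ φ
    have m1 : res φ x (conj τ ρ) ≠ 0 := by
      rw [res_conj τ hg]
      exact mul_ne_zero (det_conj_ne τ g ρ) ((map_ne_zero τ).mpr hx)
    have m2 : res φ x (conj τ ρ') ≠ 0 := by
      rw [res_conj τ hg]
      exact mul_ne_zero (det_conj_ne τ g ρ') ((map_ne_zero τ).mpr hx')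
    have e3 : val f₁ m / val f₂ m / (res φ x ρ / res φ x ρ') ^ r
        = (val f₁ m / (res φ x ρ ^ r * P ^ a * Q ^ d))
          / (val f₂ m / (res φ x ρ' ^ r * P ^ a * Q ^ d)) := by
      have k1 := pow_ne_zero r hx
      have k2 := pow_ne_zero r hx'
      have k3 := pow_ne_zero a hP
      have k4 := pow_ne_zero d hQ
      rw [div_pow]
      field_simp
    have e4 : val f₁' m / val f₂' m / (res φ x (conj τ ρ) / res φ x (conj τ ρ')) ^ r
        = (val f₁' m / (res φ x (conj τ ρ) ^ r * P' ^ a * Q' ^ d))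
          / (val f₂' m / (res φ x (conj τ ρ') ^ r * P' ^ a * Q' ^ d)) := by
      have k1 := pow_ne_zero r m1
      have k2 := pow_ne_zero r m2
      have k3 := pow_ne_zero a hP'
      have k4 := pow_ne_zero d hQ'
      rw [div_pow]
      field_simp
    rw [e3, map_div₀, e1, e2, e4]
  · rintro ⟨hB, hC⟩ E n ρ
    refine main adm_all P Q P' Q' hP hQ hP' hQ' ?_ (fun E ρ => (hB E ρ).2) ?_ E
      (fun _ _ => trivial) n ρ
    · intro E H ψ n ρ _ hρ
      exact (hC E H ψ ψ n ρ ρ (fun _ _ _ => rfl) hρ hρ).1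
    · intro E H ψ ψ' n ρ ρ' _ h hρ hρ'
      exact (hC E H ψ ψ' n ρ ρ' h hρ hρ').2.2

end Pool.Agent.Run7.h810.DL
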