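import Mathlib
import Pool.Agent.Run7.h810.DL.Iff

/-!
# The permutation representation on the embeddings of a number field
-/

set_option autoImplicit false
set_option linter.unusedSectionVars false
set_option linter.unusedVariables false

namespace Pool.Agent.Run7.h810.DL

open NumberField NumberField.ComplexEmbedding Pool.Agent.R389 Pool.Agent.K4H74.ST
  Pool.Agent.W446.AS Pool.Agent.H302R2 Pool.Agent.H302R3 Pool.Agent.H541R3.ART
  Pool.Agent.K4H74

section perm

variable (K : Type) [Field K] [NumberField K] (E : Fld) [Algebra K E.N]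

/-- the embeddings of `K` into `N` -/
abbrev Em : Type := K →ₐ[ℚ] E.N

/-- the given embedding -/
def i0 : Em K E := IsScalarTower.toAlgHom ℚ K E.N

variable {K E}

/-- the action of the Galois group -/
def act (g : Gal E) (σ : Em K E) : Em K E := (g : E.N →ₐ[ℚ] E.N).comp σ

lemma act_one (σ : Em K E) : act 1 σ = σ := rfl

lemma act_mul (g h : Gal E) (σ : Em K E) : act (g * h) σ = act g (act h σ) := rfl

lemma act_apply (g : Gal E) (σ : Em K E) (x : K) : act g σ x = g (σ x) := rfl

lemma exists_act (σ : Em K E) : ∃ g : Gal E, act g (i0 K E) = σ := by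
  obtain ⟨φ, -⟩ := exists_emb E
  let φ' : E.N →+* ℂ := ComplexEmbedding.lift E.N (φ.comp (σ : K →+* E.N))
  have h1 : φ'.comp (algebraMap K E.N) = φ.comp (σ : K →+* E.N) :=
    ComplexEmbedding.lift_comp_algebraMap _ _
  obtain ⟨h, hh⟩ := exists_aut φ φ'
  refine ⟨h, ?_⟩
  ext x
  apply φ.injective
  rw [act_apply, hh]
  exact RingHom.congr_fun h1 x

lemma act_res (h : E.N ≃ₐ[K] E.N) : act (h.restrictScalars ℚ) (i0 K E) = i0 K E := by
  ext x
  exact h.commutes x

lemma exists_res_of {g : Gal E} (hg : act g (i0 K E) = i0 K E) :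
    ∃ h : E.N ≃ₐ[K] E.N, h.restrictScalars ℚ = g :=
  ⟨{ g with commutes' := fun x => DFunLike.congr_fun hg x }, rfl⟩

lemma res_inj {h h' : E.N ≃ₐ[K] E.N} (e : h.restrictScalars ℚ = h'.restrictScalars ℚ) :
    h = h' := by
  ext x
  exact DFunLike.congr_fun e x

open Classical in
/-- sums over cosets -/
lemma sum_coset {σ σ' : Em K E} {g₀ g₁ : Gal E} (h0 : act g₀ (i0 K E) = σ')
    (h1 : act g₁ (i0 K E) = σ) (F : Gal E → ℂ) :
    ∑ g : Gal E, (if act g σ = σ' then F g else 0)
      = ∑ h : E.N ≃ₐ[K] E.N, F (g₀ * h.restrictScalars ℚ * g₁⁻¹) := by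
  rw [← Finset.sum_filter]
  symm
  refine Finset.sum_bij (fun h _ => g₀ * h.restrictScalars ℚ * g₁⁻¹) ?_ ?_ ?_ ?_
  · intro h _
    rw [Finset.mem_filter]
    refine ⟨Finset.mem_univ _, ?_⟩
    rw [← h1, ← act_mul, mul_assoc, inv_mul_cancel, mul_one, act_mul, act_res, h0]
  · intro h _ h' _ e
    have e1 : h.restrictScalars ℚ = h'.restrictScalars ℚ := by
      have := mul_right_cancel e
      exact mul_left_cancel this
    exact res_inj e1
  · intro g hg
    rw [Finset.mem_filter] at hg
    obtain ⟨h, hh⟩ := exists_res_of (K := K) (g := g₀⁻¹ * g * g₁) (by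
      rw [act_mul, act_mul, h1, hg.2, ← h0, ← act_mul, inv_mul_cancel, act_one])
    refine ⟨h, Finset.mem_univ _, ?_⟩
    rw [hh]
    group
  · intro h _
    rfl

/-- sums over the group -/
lemma sum_group (f : Em K E → ℂ) : ∑ g : Gal E, f (act g (i0 K E))
    = Nat.card (E.N ≃ₐ[K] E.N) * ∑ σ : Em K E, f σ := by
  classical
  rw [← Finset.sum_fiberwise (Finset.univ : Finset (Gal E)) (fun g => act g (i0 K E))
    (fun g => f (act g (i0 K E))), Finset.mul_sum]
  refine Finset.sum_congr rfl fun σ _ => ?_
  obtain ⟨g₀, hg₀⟩ := exists_act σ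
  have h1 := sum_coset (K := K) hg₀ (act_one (i0 K E)) (fun _ => f σ)
  rw [Finset.sum_const, Finset.card_univ, nsmul_eq_mul, ← Nat.card_eq_fintype_card,
    ← Finset.sum_filter] at h1
  rw [← h1]
  refine Finset.sum_congr rfl fun g hg => ?_
  rw [Finset.mem_filter] at hg
  rw [hg.2]

variable (K E)

/-- numbering of the embeddings -/
noncomputable def ix : Em K E ≃ Fin (Fintype.card (Em K E)) := Fintype.equivFin _

open Classical in
/-- the permutation representation -/
noncomputable def perm : Rep E (Fintype.card (Em K E)) where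
  toFun g := Matrix.of fun i j => if act g ((ix K E).symm j) = (ix K E).symm i then 1 else 0
  map_one' := by
    ext i j
    rw [Matrix.of_apply, Matrix.one_apply, act_one]
    simp only [EmbeddingLike.apply_eq_iff_eq, eq_comm]
  map_mul' g h := by
    ext i j
    rw [Matrix.mul_apply, Matrix.of_apply, ← Equiv.sum_comp (ix K E)]
    simp only [Matrix.of_apply, Equiv.symm_apply_apply]
    rw [Finset.sum_eq_single (act h ((ix K E).symm j)), if_pos rfl, mul_one, act_mul]
    · intro σ _ hσ
      rw [if_neg (c := act h ((ix K E).symm j) = σ) (fun e => hσ e.symm), mul_zero]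
    · intro h'
      exact absurd (Finset.mem_univ _) h'

open Classical in
lemma perm_apply (g : Gal E) (i j) : perm K E g i j
    = if act g ((ix K E).symm j) = (ix K E).symm i then 1 else 0 := rfl

open Classical in
lemma chr_perm (g : Gal E) : chr (perm K E) g = ∑ σ : Em K E, if act g σ = σ then 1 else 0 := by
  rw [chr, Matrix.trace, ← Equiv.sum_comp (ix K E)]
  refine Finset.sum_congr rfl fun σ _ => ?_
  rw [Matrix.diag_apply, perm_apply, Equiv.symm_apply_apply]

lemma conj_perm (τ : ℂ ≃+* ℂ) : conj τ (perm K E) = perm K E := by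
  ext g i j
  rw [conj_apply, Matrix.map_apply, perm_apply]
  split_ifs
  · exact map_one τ
  · exact map_zero τ

open Classical in
/-- the permutation character is induced -/
lemma perm_ind (g : Gal E) : chr (perm K E) g = indChar ℚ K E.N (fun _ => 1) g := by
  have h1 := sum_group (K := K) (E := E) (fun σ => if act g σ = σ then 1 else 0)
  have h0 : (Nat.card (E.N ≃ₐ[K] E.N) : ℂ) ≠ 0 := by exact_mod_cast Nat.card_pos.ne'
  rw [chr_perm, indChar, finsum_eq_sum_of_fintype]
  have h2 : ∀ x : Gal E, (∑ᶠ (h : E.N ≃ₐ[K] E.N) (_ : h.restrictScalars ℚ = x⁻¹ * g * x), (1 : ℂ))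
      = if act g (act x (i0 K E)) = act x (i0 K E) then 1 else 0 := by
    intro x
    have h3 : act g (act x (i0 K E)) = act x (i0 K E) ↔ act (x⁻¹ * g * x) (i0 K E) = i0 K E := by
      rw [act_mul, act_mul]
      constructor
      · intro h
        rw [h, ← act_mul, inv_mul_cancel, act_one]
      · intro h
        have h4 := congrArg (act x) h
        rwa [← act_mul, mul_inv_cancel, act_one] at h4
    by_cases hx : act (x⁻¹ * g * x) (i0 K E) = i0 K E
    · rw [if_pos (h3.mpr hx)]
      obtain ⟨h, hh⟩ := exists_res_of hx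
      rw [finsum_eq_single _ h]
      · rw [finsum_eq_single _ hh]
        intro h' hne
        exact absurd rfl hne
      · intro h' hne
        refine @finsum_of_isEmpty _ _ _ ⟨fun e => hne (res_inj (e.trans hh.symm))⟩ _
    · rw [if_neg (fun e => hx (h3.mp e))]
      apply finsum_eq_zero_of_forall_eq_zero
      intro h
      refine @finsum_of_isEmpty _ _ _ ⟨fun e => hx ?_⟩ _
      rw [← e]
      exact act_res h
  rw [Finset.sum_congr rfl (fun x _ => h2 x), h1, inv_mul_cancel_left₀ h0]

end perm

end Pool.Agent.Run7.h810.DL
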