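import Mathlib
import Pool.Agent.Run7.h810.DL.Perm

/-!
# Resolvents of permutation representations and discriminants
-/

set_option autoImplicit false
set_option linter.unusedSectionVars false
set_option linter.unusedVariables false

namespace Pool.Agent.Run7.h810.DL

open NumberField NumberField.ComplexEmbedding Pool.Agent.R389 Pool.Agent.K4H74.ST
  Pool.Agent.W446.AS Pool.Agent.H302R2 Pool.Agent.H302R3 Pool.Agent.H541R3.ART
  Pool.Agent.K4H74

section disc

variable (K : Type) [Field K] [NumberField K] {E : Fld} [Algebra K E.N]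

/-- the embeddings of `K` into `ℂ` -/
noncomputable def eqv (φ : E.N →+* ℂ) : Em K E ≃ (K →+* ℂ) :=
  Equiv.ofBijective (fun σ => φ.comp (σ : K →+* E.N)) (by
    constructor
    · intro σ σ' h
      ext x
      apply φ.injective
      exact RingHom.congr_fun h x
    · intro ψ
      let φ' : E.N →+* ℂ := ComplexEmbedding.lift E.N ψ
      have h1 : φ'.comp (algebraMap K E.N) = ψ := ComplexEmbedding.lift_comp_algebraMap _ _
      obtain ⟨h, hh⟩ := exists_aut φ φ'
      refine ⟨act h (i0 K E), ?_⟩
      ext x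
      change φ (h (algebraMap K E.N x)) = ψ x
      rw [hh]
      exact RingHom.congr_fun h1 x)

lemma eqv_apply (φ : E.N →+* ℂ) (σ : Em K E) (x : K) : eqv K φ σ x = φ (σ x) := rfl

lemma card_em (φ : E.N →+* ℂ) : Fintype.card (Em K E) = Module.finrank ℚ K := by
  rw [Fintype.card_congr (eqv K φ), NumberField.Embeddings.card]

lemma chr_cc {φ : E.N →+* ℂ} {c : Gal E} (hc : IsCC φ c) :
    chr (perm K E) c = (InfinitePlace.nrRealPlaces K : ℂ) := by
  classical
  rw [chr_perm, Finset.sum_boole, ← InfinitePlace.card_real_embeddings, ← Fintype.card_subtype]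
  congr 1
  refine Fintype.card_congr (Equiv.subtypeEquiv (eqv K φ) fun σ => ?_)
  constructor
  · intro h
    ext x
    change star (φ (σ x)) = φ (σ x)
    rw [← hc, ← act_apply, h]
  · intro h
    ext x
    apply φ.injective
    rw [act_apply, hc]
    exact RingHom.congr_fun h x

lemma res_perm_aux (φ : E.N →+* ℂ) (x : E.N) : ∃ w : Fin (Fintype.card (Em K E)) → K,
    ∑ g : Gal E, φ (g x) • perm K E g
      = Matrix.of fun i j => φ ((ix K E).symm i (w j)) := by
  classical
  choose g₁ hg₁ using fun σ : Em K E => exists_act σ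
  refine ⟨fun j => Algebra.trace K E.N ((g₁ ((ix K E).symm j))⁻¹ x), ?_⟩
  ext i j
  rw [Matrix.of_apply, Matrix.sum_apply]
  have h1 := sum_coset (K := K) (hg₁ ((ix K E).symm i)) (hg₁ ((ix K E).symm j))
    (fun g => φ (g x))
  have h2 : ∀ g : Gal E, (φ (g x) • perm K E g) i j
      = if act g ((ix K E).symm j) = (ix K E).symm i then φ (g x) else 0 := by
    intro g
    rw [Matrix.smul_apply, perm_apply, smul_eq_mul, mul_ite, mul_one, mul_zero]
  rw [Finset.sum_congr rfl (fun g _ => h2 g), h1]
  have hG : IsGalois K E.N := IsGalois.tower_top_of_isGalois ℚ K E.N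
  have h3 := trace_eq_sum_automorphisms (K := K) (L := E.N)
    ((g₁ ((ix K E).symm j))⁻¹ x)
  have h4 : (ix K E).symm i (Algebra.trace K E.N ((g₁ ((ix K E).symm j))⁻¹ x))
      = g₁ ((ix K E).symm i) (algebraMap K E.N
        (Algebra.trace K E.N ((g₁ ((ix K E).symm j))⁻¹ x))) := by
    have h5 := DFunLike.congr_fun (hg₁ ((ix K E).symm i))
      (Algebra.trace K E.N ((g₁ ((ix K E).symm j))⁻¹ x))
    exact h5.symm
  rw [h4, h3, map_sum, map_sum]
  rfl

lemma discr_family {n : ℕ} (hn : n = Module.finrank ℚ K) (w : Fin n → K) :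
    ∃ q : ℚ, Algebra.discr ℚ w = q ^ 2 * NumberField.discr K := by
  classical
  let f : Module.Free.ChooseBasisIndex ℤ (𝓞 K) ≃ Fin n := Fintype.equivOfCardEq (by
    rw [Fintype.card_fin, hn, ← RingOfIntegers.rank K, Module.finrank_eq_card_chooseBasisIndex])
  let b := (integralBasis K).reindex f
  let P : Matrix (Fin n) (Fin n) ℚ := Matrix.of fun i j => b.repr (w j) i
  have hw : Matrix.vecMul (b : Fin n → K) (P.map (algebraMap ℚ K)) = w := by
    funext j
    rw [Matrix.vecMul, dotProduct]
    conv_rhs => rw [← b.sum_repr (w j)]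
    refine Finset.sum_congr rfl fun i _ => ?_
    rw [Matrix.map_apply, Algebra.smul_def, mul_comm]
    rfl
  refine ⟨P.det, ?_⟩
  rw [← hw, Algebra.discr_of_matrix_vecMul]
  congr 1
  have h1 : Algebra.discr ℚ (b : Fin n → K) = Algebra.discr ℚ (integralBasis K) := by
    rw [Module.Basis.coe_reindex]
    exact Algebra.discr_reindex ℚ (integralBasis K) f
  rw [h1, NumberField.coe_discr]

/-- **The resolvent of the permutation representation.** -/
theorem res_perm (φ : E.N →+* ℂ) (x : E.N) :
    ∃ q : ℚ, res φ x (perm K E) ^ 2 = (q : ℂ) ^ 2 * (NumberField.discr K : ℂ) := by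
  classical
  obtain ⟨w, hw⟩ := res_perm_aux K φ x
  obtain ⟨q, hq⟩ := discr_family K (card_em K φ) w
  refine ⟨q, ?_⟩
  let e : Fin (Fintype.card (Em K E)) ≃ (K →ₐ[ℚ] ℂ) :=
    (ix K E).symm.trans ((eqv K φ).trans (RingHom.equivRatAlgHom K ℂ))
  have h1 := Algebra.discr_eq_det_embeddingsMatrixReindex_pow_two ℚ ℂ w e
  have h2 : (Algebra.embeddingsMatrixReindex ℚ ℂ w e).transpose
      = Matrix.of fun i j => φ ((ix K E).symm i (w j)) := by
    ext i j
    rfl
  rw [← Matrix.det_transpose, h2, ← hw] at h1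
  rw [res, ← h1, hq]
  simp

end disc

end Pool.Agent.Run7.h810.DL
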