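import Mathlib

/-!
# The L-function of a motive over a number field
-/

set_option autoImplicit false

namespace Pool.Agent.Run7.h810.DL

open NumberField IsDedekindDomain

/-- The term `t(N(v)^j) / (j N(v)^(j s))` of `log L(s, M over K)`, for a prime `v` of the number
field `K`: `t(N(v)^j)` is the trace of the `j`-th power of the Frobenius at `v`. -/
noncomputable def kTerm (t : ℕ → ℂ) (K : Type) [Field K] [NumberField K] (s : ℂ)
    (x : HeightOneSpectrum (𝓞 K) × ℕ+) : ℂ :=
  t (Ideal.absNorm x.1.asIdeal ^ (x.2 : ℕ)) /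
    ((x.2 : ℕ) * (Ideal.absNorm x.1.asIdeal : ℂ) ^ (((x.2 : ℕ) : ℂ) * s))

/-- `f` is the L-function `L(s, M over K) = exp (∑ t(N(v)^j) / (j N(v)^(j s)))`, for `Re s > b`,
continued meromorphically to `ℂ`. -/
def IsLK (t : ℕ → ℂ) (b : ℝ) (K : Type) [Field K] [NumberField K] (f : ℂ → ℂ) : Prop :=
  (∀ z, MeromorphicAt f z) ∧
    ∀ s : ℂ, b < s.re → ∃ l, HasSum (kTerm t K s) l ∧ f s = Complex.exp l

end Pool.Agent.Run7.h810.DL
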