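import Mathlib
import Pool.Agent.Run7.h810.DL.KDefs
import Pool.Agent.Run7.h810.DL.Disc

/-!
# The L-function of a motive over a number field and the permutation character
-/

set_option autoImplicit false
set_option linter.unusedSectionVars false
set_option linter.unusedVariables false

namespace Pool.Agent.Run7.h810.DL

open NumberField NumberField.ComplexEmbedding Pool.Agent.R389 Pool.Agent.K4H74.ST
  Pool.Agent.W446.AS Pool.Agent.H302R2 Pool.Agent.H302R3 Pool.Agent.H541R3.ART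
  Pool.Agent.K4H74 IsDedekindDomain

section primes

variable {K : Type} [Field K] [NumberField K]

lemma prime_of_mem {I : Ideal (𝓞 K)} (hI : I.IsPrime) : ∀ n : ℕ, n ≠ 0 → (n : 𝓞 K) ∈ I →
    ∃ p : Nat.Primes, ((p : ℕ) : 𝓞 K) ∈ I := by
  intro n
  induction n using induction_on_primes with
  | zero => intro h; exact absurd rfl h
  | one =>
    intro _ h
    rw [Nat.cast_one] at h
    exact absurd ((Ideal.eq_top_iff_one I).mpr h) hI.ne_top
  | prime_mul p a hp ih =>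
    intro h0 h
    rw [Nat.cast_mul] at h
    rcases hI.mem_or_mem h with h1 | h1
    · exact ⟨⟨p, hp⟩, h1⟩
    · exact ih (fun h2 => h0 (by rw [h2, mul_zero])) h1

lemma exists_p (v : HeightOneSpectrum (𝓞 K)) : ∃ p : Nat.Primes, ((p : ℕ) : 𝓞 K) ∈ v.asIdeal :=
  prime_of_mem v.isPrime _ (fun h => v.ne_bot (Ideal.absNorm_eq_zero_iff.mp h))
    (Ideal.absNorm_mem v.asIdeal)

/-- the prime number below a prime -/
noncomputable def pv (v : HeightOneSpectrum (𝓞 K)) : Nat.Primes := (exists_p v).choose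

lemma pv_mem (v : HeightOneSpectrum (𝓞 K)) : ((pv v : ℕ) : 𝓞 K) ∈ v.asIdeal :=
  (exists_p v).choose_spec

lemma pv_unique {v : HeightOneSpectrum (𝓞 K)} {p : Nat.Primes}
    (h : ((p : ℕ) : 𝓞 K) ∈ v.asIdeal) : pv v = p := by
  by_contra hne
  have h1 : Nat.Coprime (pv v : ℕ) p := (Nat.coprime_primes (pv v).2 p.2).mpr (fun e =>
    hne (Subtype.ext e))
  have h2 := Nat.isCoprime_iff_coprime.mpr h1
  obtain ⟨a, b, hab⟩ := h2
  have h3 : ((a * (pv v : ℕ) + b * (p : ℕ) : ℤ) : 𝓞 K) ∈ v.asIdeal := by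
    push_cast
    exact v.asIdeal.add_mem (v.asIdeal.mul_mem_left _ (pv_mem v)) (v.asIdeal.mul_mem_left _ h)
  rw [hab, Int.cast_one] at h3
  exact v.isPrime.ne_top ((Ideal.eq_top_iff_one _).mpr h3)

lemma pv_over (v : HeightOneSpectrum (𝓞 K)) : v.asIdeal.LiesOver (pid (pv v)) :=
  (over_iff (pv v).2 v.isPrime).mpr (pv_mem v)

/-- the map of the index sets -/
noncomputable def kidx (x : HeightOneSpectrum (𝓞 K) × ℕ+) : Nat.Primes × ℕ+ :=
  (pv x.1, ⟨x.1.asIdeal.inertiaDeg (𝓞 ℚ) * x.2, by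
    have := x.1.isPrime
    exact Nat.mul_pos (SC.deg_pos x.1.asIdeal) x.2.2⟩)

lemma norm_v (v : HeightOneSpectrum (𝓞 K)) :
    Ideal.absNorm v.asIdeal = (pv v : ℕ) ^ v.asIdeal.inertiaDeg (𝓞 ℚ) := by
  have h1 := pv_over v
  have h2 := pid_prime (pv v).2
  have h3 := v.isPrime
  have h4 : (pid (pv v)).IsMaximal := h2.isMaximal (pid_ne (pv v).2)
  rw [← Ideal.absNorm_pow_inertiaDeg (pid (pv v)) v.asIdeal, pid_norm]

lemma kTerm_fib (t : ℕ → ℂ) (s : ℂ) {x : HeightOneSpectrum (𝓞 K) × ℕ+} {p : Nat.Primes} {n : ℕ+}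
    (hx : kidx x = (p, n)) : kTerm t K s x = (x.1.asIdeal.inertiaDeg (𝓞 ℚ) : ℂ) *
      (t ((p : ℕ) ^ (n : ℕ)) / ((n : ℕ) * ((p : ℕ) : ℂ) ^ (((n : ℕ) : ℂ) * s))) := by
  obtain ⟨v, j⟩ := x
  have h1 : pv v = p := congrArg Prod.fst hx
  have h2 : v.asIdeal.inertiaDeg (𝓞 ℚ) * (j : ℕ) = n := congrArg (fun y : Nat.Primes × ℕ+ => (y.2 : ℕ)) hx
  have hp := v.isPrime
  have hf : (v.asIdeal.inertiaDeg (𝓞 ℚ) : ℂ) ≠ 0 := by
    exact_mod_cast (SC.deg_pos (K := ℚ) v.asIdeal).ne'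
  have h3 : Ideal.absNorm v.asIdeal = (p : ℕ) ^ v.asIdeal.inertiaDeg (𝓞 ℚ) := by
    rw [norm_v, h1]
  have h4 : (Ideal.absNorm v.asIdeal : ℂ) ^ (((j : ℕ) : ℂ) * s)
      = ((p : ℕ) : ℂ) ^ (((n : ℕ) : ℂ) * s) := by
    rw [h3, ← h2]
    push_cast
    rw [mul_assoc, Complex.natCast_cpow_natCast_mul]
  rw [kTerm]
  change t (Ideal.absNorm v.asIdeal ^ (j : ℕ)) / ((j : ℕ) *
    (Ideal.absNorm v.asIdeal : ℂ) ^ (((j : ℕ) : ℂ) * s)) = _
  rw [h4, h3, ← pow_mul, h2]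
  have h5 : ((n : ℕ) : ℂ) = (v.asIdeal.inertiaDeg (𝓞 ℚ) : ℂ) * (j : ℕ) := by
    rw [← h2]; push_cast; rfl
  have aux : ∀ u j A f : ℂ, f ≠ 0 → u / (j * A) = f * (u / (f * j * A)) := by
    intro u j A f hf
    rw [mul_assoc, ← mul_div_assoc, mul_div_mul_left _ _ hf]
  rw [h5]
  exact aux _ _ _ _ hf

end primes

section perm

variable (K : Type) [Field K] [NumberField K] {E : Fld} [Algebra K E.N]

lemma frobMean_const {q : Ideal (𝓞 K)} (hq : q ≠ ⊥) [q.IsPrime] [IsGalois K E.N] (m : ℕ) :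
    SC.frobMean K E.N (fun _ => 1) q m = 1 := by
  have h0 : (SC.frobSet K E.N q m).ncard ≠ 0 := by
    rw [SC.ncard_frob hq]
    exact mul_ne_zero SC.pr_ne SC.ram_ne
  have hfin : (SC.frobSet K E.N q m).Finite := Set.finite_of_ncard_ne_zero h0
  rw [SC.frobMean]
  have h1 : (∑ᶠ x ∈ SC.frobSet K E.N q m, (1 : ℂ)) = (SC.frobSet K E.N q m).ncard := by
    rw [finsum_mem_eq_finite_toFinset_sum _ hfin, Finset.sum_const, nsmul_eq_mul, mul_one,
      Set.ncard_eq_toFinset_card _ hfin]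
  rw [h1]
  exact div_self (by exact_mod_cast h0)

open Classical in
lemma frobMean_perm (p : Nat.Primes) [hpp : (pid p).IsPrime] (n : ℕ+) :
    frobMean (chr (perm K E)) p n
      = ∑ q ∈ (SC.pr_finite K (pid_ne p.2)).toFinset,
        if q.inertiaDeg (𝓞 ℚ) ∣ (n : ℕ) then (q.inertiaDeg (𝓞 ℚ) : ℂ) else 0 := by
  have hG : IsGalois K E.N := IsGalois.tower_top_of_isGalois ℚ K E.N
  have h1 : chr (perm K E) = indChar ℚ K E.N (fun _ => 1) := funext fun g => perm_ind K E g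
  rw [frobMean_eq' _ p.2, h1, SC.frobMean_ind (K := ℚ) (F := K) (L := E.N) (pid_ne p.2) n.pos]
  refine Finset.sum_congr rfl fun q hq => ?_
  rw [Set.Finite.mem_toFinset] at hq
  obtain ⟨e1, e2⟩ := hq
  have hq0 : q ≠ ⊥ := Ideal.ne_bot_of_liesOver_of_ne_bot (pid_ne p.2) q
  rw [frobMean_const K hq0, mul_one]

/-- **the two L-functions** -/
theorem hasSum_K {t : ℕ → ℂ} {s l : ℂ} (h : HasSum (logTerm t (chr (perm K E)) s) l) :
    HasSum (kTerm t K s) l := by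
  classical
  let e := Equiv.sigmaFiberEquiv (kidx (K := K))
  rw [← Equiv.hasSum_iff e]
  -- the fibres
  have key : ∀ b : Nat.Primes × ℕ+, ∃ D : Finset {x // kidx (K := K) x = b},
      (∀ x, x ∈ D) ∧ ∑ x ∈ D, ((x : {x // kidx (K := K) x = b}).1.1.asIdeal.inertiaDeg (𝓞 ℚ) : ℂ)
        = frobMean (chr (perm K E)) b.1 b.2 := by
    rintro ⟨p, n⟩
    have hpp := pid_prime p.2
    have hpm : (pid p).IsMaximal := hpp.isMaximal (pid_ne p.2)
    let D : Finset (Ideal (𝓞 K)) := (SC.pr_finite K (pid_ne p.2)).toFinset.filter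
      fun q => q.inertiaDeg (𝓞 ℚ) ∣ (n : ℕ)
    have hD : ∀ q ∈ D, q.IsPrime ∧ q.LiesOver (pid p) ∧ q ≠ ⊥ ∧ q.inertiaDeg (𝓞 ℚ) ∣ (n : ℕ) := by
      intro q hq
      rw [Finset.mem_filter, Set.Finite.mem_toFinset] at hq
      obtain ⟨⟨e1, e2⟩, e3⟩ := hq
      exact ⟨e1, e2, Ideal.ne_bot_of_liesOver_of_ne_bot (pid_ne p.2) q, e3⟩
    let T : D ≃ {x // kidx (K := K) x = (p, n)} :=
      { toFun := fun q => ⟨(⟨q.1, (hD q.1 q.2).1, (hD q.1 q.2).2.2.1⟩,
          ⟨n / q.1.inertiaDeg (𝓞 ℚ), by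
            have := (hD q.1 q.2).1
            exact Nat.div_pos (Nat.le_of_dvd n.2 (hD q.1 q.2).2.2.2) (SC.deg_pos q.1)⟩), by
            refine Prod.ext ?_ ?_
            · exact pv_unique ((over_iff p.2 (hD q.1 q.2).1).mp (hD q.1 q.2).2.1)
            · apply PNat.eq
              exact Nat.mul_div_cancel' (hD q.1 q.2).2.2.2⟩
        invFun := fun x => ⟨x.1.1.asIdeal, by
            have hx1 : pv x.1.1 = p := congrArg (fun y => y.1) x.2
            have hx2 := congrArg (fun y => (y.2 : ℕ)) x.2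
            rw [Finset.mem_filter, Set.Finite.mem_toFinset]
            refine ⟨⟨x.1.1.isPrime, ?_⟩, ?_⟩
            · have h9 := pv_over x.1.1
              rw [hx1] at h9
              exact h9
            · exact ⟨x.1.2, hx2.symm⟩⟩
        left_inv := fun q => rfl
        right_inv := fun x => by
            apply Subtype.ext
            refine Prod.ext rfl ?_
            apply PNat.eq
            have hx2 : x.1.1.asIdeal.inertiaDeg (𝓞 ℚ) * (x.1.2 : ℕ) = n :=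
              congrArg (fun y => (y.2 : ℕ)) x.2
            have := x.1.1.isPrime
            change (n : ℕ) / x.1.1.asIdeal.inertiaDeg (𝓞 ℚ) = x.1.2
            rw [← hx2]
            exact Nat.mul_div_cancel_left _ (SC.deg_pos _) }
    refine ⟨Finset.univ.map T.toEmbedding, fun x => ?_, ?_⟩
    · rw [Finset.mem_map]
      exact ⟨T.symm x, Finset.mem_univ _, T.apply_symm_apply x⟩
    · rw [Finset.sum_map, frobMean_perm, ← Finset.sum_filter]
      change ∑ q : D, ((q.1.inertiaDeg (𝓞 ℚ) : ℕ) : ℂ) = ∑ q ∈ D, (q.inertiaDeg (𝓞 ℚ) : ℂ)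
      exact Finset.sum_coe_sort D (fun q => (q.inertiaDeg (𝓞 ℚ) : ℂ))
  choose D hD1 hD2 using key
  have hfin : ∀ b, Fintype {x // kidx (K := K) x = b} := fun b => ⟨D b, hD1 b⟩
  have hterm : ∀ (b : Nat.Primes × ℕ+) (c : {x // kidx (K := K) x = b}),
      (kTerm t K s ∘ e) ⟨b, c⟩ = (c.1.1.asIdeal.inertiaDeg (𝓞 ℚ) : ℂ) *
        (t ((b.1 : ℕ) ^ (b.2 : ℕ)) / ((b.2 : ℕ) * ((b.1 : ℕ) : ℂ) ^ (((b.2 : ℕ) : ℂ) * s))) :=
    fun b c => kTerm_fib t s c.2
  have hlog : ∀ b : Nat.Primes × ℕ+, logTerm t (chr (perm K E)) s b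
      = (∑ x ∈ D b, ((x : {x // kidx (K := K) x = b}).1.1.asIdeal.inertiaDeg (𝓞 ℚ) : ℂ)) *
        (t ((b.1 : ℕ) ^ (b.2 : ℕ)) / ((b.2 : ℕ) * ((b.1 : ℕ) : ℂ) ^ (((b.2 : ℕ) : ℂ) * s))) := by
    intro b
    rw [hD2, logTerm]
    ring
  refine HasSum.sigma_of_hasSum h ?_ ?_
  · intro b
    have := hfin b
    have h1 := hasSum_fintype (fun c => (kTerm t K s ∘ e) ⟨b, c⟩)
    have h2 : ∑ c, (kTerm t K s ∘ e) ⟨b, c⟩ = logTerm t (chr (perm K E)) s b := by
      rw [hlog, Finset.sum_mul]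
      refine Finset.sum_congr (by ext c; simp [hD1]) fun c _ => hterm b c
    rw [h2] at h1
    exact h1
  · apply Summable.of_norm
    rw [summable_sigma_of_nonneg (fun _ => norm_nonneg _)]
    constructor
    · intro b
      have := hfin b
      exact (hasSum_fintype _).summable
    · have h1 : Summable fun b => ‖logTerm t (chr (perm K E)) s b‖ := h.summable.norm
      refine h1.congr fun b => ?_
      have := hfin b
      rw [tsum_fintype, hlog, norm_mul]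
      have h2 : ‖∑ x ∈ D b,
          ((x : {x // kidx (K := K) x = b}).1.1.asIdeal.inertiaDeg (𝓞 ℚ) : ℂ)‖
          = ∑ x ∈ D b,
            ((x : {x // kidx (K := K) x = b}).1.1.asIdeal.inertiaDeg (𝓞 ℚ) : ℝ) := by
        have h3 : ∑ x ∈ D b, ((x : {x // kidx (K := K) x = b}).1.1.asIdeal.inertiaDeg (𝓞 ℚ) : ℂ)
            = ((∑ x ∈ D b, (x : {x // kidx (K := K) x = b}).1.1.asIdeal.inertiaDeg (𝓞 ℚ) : ℕ) :
              ℂ) := by push_cast; rfl
        rw [h3, Complex.norm_natCast]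
        push_cast
        rfl
      rw [h2, Finset.sum_mul]
      refine Finset.sum_congr (by ext c; simp [hD1]) fun c _ => ?_
      rw [hterm, norm_mul, Complex.norm_natCast]

end perm

end Pool.Agent.Run7.h810.DL
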