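import Mathlib

/-!
# Complex numbers which are fixed by all automorphisms of `ℂ` are rational
-/

set_option autoImplicit false

namespace Pool.Agent.Run7.h810.DL

open MvPolynomial

lemma ext_aut {k : Type} [Field k] [Algebra k ℂ] {ι : Type} {t : ι → ℂ}
    (ht : IsTranscendenceBasis k t) (f : MvPolynomial ι k ≃+* MvPolynomial ι k) :
    ∃ τ : ℂ ≃+* ℂ, ∀ p, τ (aeval t p) = aeval t (f p) := by
  have h1 : IsAlgClosure (Algebra.adjoin k (Set.range t)) ℂ :=
    IsAlgClosed.isAlgClosure_of_transcendence_basis t ht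
  let e : Algebra.adjoin k (Set.range t) ≃+* Algebra.adjoin k (Set.range t) :=
    (ht.1.aevalEquiv.symm.toRingEquiv.trans f).trans ht.1.aevalEquiv.toRingEquiv
  refine ⟨IsAlgClosure.equivOfEquiv ℂ ℂ e, fun p => ?_⟩
  have h2 := IsAlgClosure.equivOfEquiv_algebraMap (L := ℂ) (M := ℂ) e (ht.1.aevalEquiv p)
  rw [ht.1.algebraMap_aevalEquiv] at h2
  rw [h2]
  have h3 : e (ht.1.aevalEquiv p) = ht.1.aevalEquiv (f p) := by
    change ht.1.aevalEquiv (f (ht.1.aevalEquiv.symm (ht.1.aevalEquiv p))) = _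
    rw [AlgEquiv.symm_apply_apply]
  rw [h3, ht.1.algebraMap_aevalEquiv]

/-- **rationality** -/
theorem rat_of_fixed {z : ℂ} (h : ∀ τ : ℂ ≃+* ℂ, τ z = z) : ∃ q : ℚ, z = q := by
  classical
  by_cases hz : IsAlgebraic ℚ z
  · -- the algebraic case
    let Qb : IntermediateField ℚ ℂ := algebraicClosure ℚ ℂ
    have hzQ : z ∈ Qb := mem_algebraicClosure_iff.mpr hz
    obtain ⟨ι, t, ht⟩ : ∃ (ι : Type) (t : ι → ℂ), IsTranscendenceBasis Qb t :=
      exists_isTranscendenceBasis' Qb ℂ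
    have hfix : ∀ g : Qb ≃ₐ[ℚ] Qb, g ⟨z, hzQ⟩ = ⟨z, hzQ⟩ := by
      intro g
      obtain ⟨τ, hτ⟩ := ext_aut ht (MvPolynomial.mapEquiv ι g.toRingEquiv)
      have h1 := hτ (C ⟨z, hzQ⟩)
      rw [aeval_C] at h1
      have h2 : (MvPolynomial.mapEquiv ι g.toRingEquiv) (C ⟨z, hzQ⟩) = C (g ⟨z, hzQ⟩) := by
        rw [MvPolynomial.mapEquiv_apply, MvPolynomial.map_C]
        rfl
      rw [h2, aeval_C] at h1
      change τ z = ((g ⟨z, hzQ⟩ : Qb) : ℂ) at h1
      rw [h τ] at h1
      exact Subtype.ext h1.symm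
    have hG : IsGalois ℚ Qb := by
      have h1 : IsAlgClosure ℚ Qb := algebraicClosure.isAlgClosure ℚ ℂ
      infer_instance
    obtain ⟨q, hq⟩ := (InfiniteGalois.mem_range_algebraMap_iff_fixed (⟨z, hzQ⟩ : Qb)).mpr hfix
    refine ⟨q, ?_⟩
    have h2 := congrArg (fun w : Qb => (w : ℂ)) hq
    change ((algebraMap ℚ Qb q : Qb) : ℂ) = z at h2
    rw [← h2]
    simp
  · -- the transcendental case
    exfalso
    have h1 : AlgebraicIndepOn ℚ id ({z} : Set ℂ) := by
      have h2 : Transcendental ℚ z := hz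
      exact (algebraicIndependent_singleton_iff (⟨z, rfl⟩ : ({z} : Set ℂ))).mpr h2
    obtain ⟨s, hs, ht⟩ := exists_isTranscendenceBasis_superset h1
    let i : s := ⟨z, hs rfl⟩
    let f : MvPolynomial s ℚ →ₐ[ℚ] MvPolynomial s ℚ := aeval fun j => if j = i then X i + 1 else X j
    let f' : MvPolynomial s ℚ →ₐ[ℚ] MvPolynomial s ℚ := aeval fun j => if j = i then X i - 1 else X j
    have hff' : f.comp f' = AlgHom.id ℚ _ := by
      ext1 j
      by_cases hj : j = i
      · subst hj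
        simp [f, f']
      · simp [f, f', hj]
    have hf'f : f'.comp f = AlgHom.id ℚ _ := by
      ext1 j
      by_cases hj : j = i
      · subst hj
        simp [f, f']
      · simp [f, f', hj]
    obtain ⟨τ, hτ⟩ := ext_aut ht (AlgEquiv.ofAlgHom f f' hff' hf'f).toRingEquiv
    have h2 := hτ (X i)
    have h3 : (AlgEquiv.ofAlgHom f f' hff' hf'f).toRingEquiv (X i) = X i + 1 := by
      change f (X i) = _
      simp [f]
    rw [h3, map_add, map_one, aeval_X] at h2
    have h4 : ((i : s) : ℂ) = z := rfl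
    rw [h4, h τ] at h2
    simp at h2

end Pool.Agent.Run7.h810.DL
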