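import Mathlib
import Pool.Agent.Run7.h810.DL.KL
import Pool.Agent.Run7.h810.DL.Rat

/-!
# Critical values over number fields, rational coefficients
-/

set_option autoImplicit false
set_option linter.unusedSectionVars false
set_option linter.unusedVariables false

namespace Pool.Agent.Run7.h810.DL

open NumberField NumberField.ComplexEmbedding Pool.Agent.R389 Pool.Agent.K4H74.ST
  Pool.Agent.W446.AS Pool.Agent.H302R2 Pool.Agent.H302R3 Pool.Agent.H541R3.ART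
  Pool.Agent.K4H74 IsDedekindDomain

lemma IsL.toK {K : Type} [Field K] [NumberField K] {E : Fld} [Algebra K E.N] {t : ℕ → ℂ} {b : ℝ}
    {f : ℂ → ℂ} (h : IsL t b (chr (perm K E)) f) : IsLK t b K f := by
  refine ⟨h.1, fun s hs => ?_⟩
  obtain ⟨l, hl, e⟩ := h.2 s hs
  exact ⟨l, hasSum_K K hl, e⟩

/-- **Rationality from the relations for all automorphisms.** -/
theorem number_field_aux {r : ℕ} {m : ℂ} {t : ℕ → ℚ} {b : ℝ} {P Q : ℂ} (hP : P ≠ 0) (hQ : Q ≠ 0)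
    (K : Type) [Field K] [NumberField K] (E : Fld) [Algebra K E.N]
    (h : ∀ τ : ℂ ≃+* ℂ, Con τ (fun k => (t k : ℂ)) b (perm K E) ∧
      Del τ r m (fun k => (t k : ℂ)) b P Q P Q (perm K E)) :
    ∃ f : ℂ → ℂ, IsLK (fun k => (t k : ℂ)) b K f ∧
      ∀ w : ℂ, w ^ 2 = NumberField.discr K → ∃ q : ℚ, val f m = q * w ^ r *
        P ^ (InfinitePlace.nrRealPlaces K + InfinitePlace.nrComplexPlaces K) *
          Q ^ InfinitePlace.nrComplexPlaces K := by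
  obtain ⟨⟨f, hf⟩, -⟩ := (h (RingEquiv.refl ℂ)).1
  refine ⟨f, hf.toK, fun w hw => ?_⟩
  obtain ⟨φ, -⟩ := exists_emb E
  obtain ⟨x, hx⟩ := exists_res E φ
  obtain ⟨c, hc⟩ := exists_cc φ
  set a := InfinitePlace.nrRealPlaces K + InfinitePlace.nrComplexPlaces K with ha
  set d := InfinitePlace.nrComplexPlaces K with hd
  have hn : a + d = Fintype.card (Em K E) := by
    rw [card_em K φ, ← InfinitePlace.card_add_two_mul_card_eq_rank]
    omega
  have hχ : chr (perm K E) c = a - d := by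
    rw [chr_cc K hc, ha]
    push_cast
    ring
  have hfix : ∀ τ : ℂ ≃+* ℂ, τ (val f m / (res φ x (perm K E) ^ r * P ^ a * Q ^ d))
      = val f m / (res φ x (perm K E) ^ r * P ^ a * Q ^ d) := by
    intro τ
    have ht : (fun k => τ ((t k : ℚ) : ℂ)) = fun k => ((t k : ℚ) : ℂ) := by
      funext k
      exact map_ratCast τ _
    have h1 := (h τ).2 φ x c a d f f (hx _ _) hc hn hχ hf (by
      rw [conj_perm, ht]
      exact hf)
    rw [conj_perm] at h1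
    exact h1
  obtain ⟨q₀, hq₀⟩ := rat_of_fixed hfix
  obtain ⟨q₁, hq₁⟩ := res_perm K φ x
  have hr0 : res φ x (perm K E) ≠ 0 := hx _ _
  have h2 : res φ x (perm K E) ^ 2 = ((q₁ : ℂ) * w) ^ 2 := by
    rw [hq₁, mul_pow, hw]
  have h3 : val f m = q₀ * (res φ x (perm K E) ^ r * P ^ a * Q ^ d) := by
    rw [← hq₀, div_mul_cancel₀]
    exact mul_ne_zero (mul_ne_zero (pow_ne_zero _ hr0) (pow_ne_zero _ hP)) (pow_ne_zero _ hQ)
  rcases sq_eq_sq_iff_eq_or_eq_neg.mp h2 with h4 | h4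
  · refine ⟨q₀ * q₁ ^ r, ?_⟩
    rw [h3, h4]
    push_cast
    ring
  · refine ⟨q₀ * (-q₁) ^ r, ?_⟩
    rw [h3, h4]
    push_cast
    rw [← neg_mul, mul_pow]
    ring

/-- **Deligne's conjecture over number fields.** -/
theorem number_field {r : ℕ} {m : ℂ} {t : ℕ → ℚ} {b : ℝ} {P Q : ℂ} (hP : P ≠ 0) (hQ : Q ≠ 0)
    {𝒢 : (E : Fld) → Subgroup (Gal E) → Prop} (h𝒢 : Adm 𝒢)
    (hB : ∀ (τ : ℂ ≃+* ℂ) (E : Fld) (ρ : Rep E 1),
      Del τ r m (fun k => (t k : ℂ)) b P Q P Q ρ)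
    (hC : ∀ (τ : ℂ ≃+* ℂ) (E : Fld) (H : Subgroup (Gal E)) (ψ ψ' : Gal E → ℂ) (n : ℕ)
      (ρ ρ' : Rep E n), 𝒢 E H → Agree ψ ψ' → IsInd H ψ ρ → IsInd H ψ' ρ' →
        Con τ (fun k => (t k : ℂ)) b ρ ∧ Con τ (fun k => (t k : ℂ)) b ρ' ∧
          Rel τ r m (fun k => (t k : ℂ)) b ρ ρ')
    (K : Type) [Field K] [NumberField K] (E : Fld) [Algebra K E.N] (hE : Nice 𝒢 E) :
    ∃ f : ℂ → ℂ, IsLK (fun k => (t k : ℂ)) b K f ∧
      ∀ w : ℂ, w ^ 2 = NumberField.discr K → ∃ q : ℚ, val f m = q * w ^ r *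
        P ^ (InfinitePlace.nrRealPlaces K + InfinitePlace.nrComplexPlaces K) *
          Q ^ InfinitePlace.nrComplexPlaces K := by
  refine number_field_aux hP hQ K E fun τ => ?_
  exact main h𝒢 P Q P Q hP hQ hP hQ
    (fun E H ψ n ρ hH hρ => (hC τ E H ψ ψ n ρ ρ hH (fun _ _ _ => rfl) hρ hρ).1) (hB τ)
    (fun E H ψ ψ' n ρ ρ' hH h hρ hρ' => (hC τ E H ψ ψ' n ρ ρ' hH h hρ hρ').2.2) E hE _ _

end Pool.Agent.Run7.h810.DL
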